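import Pool.Agent.RelS.Core

/-!
# Coins
-/

set_option autoImplicit false

namespace Pool.Agent.RelS

open MeasureTheory Set
open scoped ENNReal

section
variable (K : ℕ)

lemma mixP_pos {p : Set Idx} {τ ω : Om} {a : Idx} (h : a ∈ p) : mixP p τ ω a = τ a := by
  simp [mixP, h]

lemma mixP_neg {p : Set Idx} {τ ω : Om} {a : Idx} (h : a ∉ p) : mixP p τ ω a = ω a := by
  simp [mixP, h]

lemma mixP_meas (p : Set Idx) : Measurable fun z : Om × Om => mixP p z.1 z.2 := by
  refine measurable_pi_lambda _ fun i => ?_
  by_cases h : i ∈ p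
  · simp only [mixP_pos h]; fun_prop
  · simp only [mixP_neg h]; fun_prop

/-- Mixing two samples gives a sample. -/
theorem mixp (p : Set Idx) :
    MeasurePreserving (fun z : Om × Om => mixP p z.1 z.2) ((coin K).prod (coin K)) (coin K) := by
  classical
  refine ⟨mixP_meas p, ?_⟩
  unfold coin
  refine Measure.eq_infinitePi _ fun s t ht => ?_
  rw [Measure.map_apply (mixP_meas p) (MeasurableSet.pi s.countable_toSet fun i _ => ht i)]
  have h1 : (fun z : Om × Om => mixP p z.1 z.2) ⁻¹' (Set.pi s t) =
      (Set.pi (s.filter fun i => i ∈ p : Finset Idx) t) ×ˢ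
        (Set.pi (s.filter fun i => ¬ i ∈ p : Finset Idx) t) := by
    ext z
    simp only [Set.mem_preimage, Set.mem_pi, Set.mem_prod, Finset.coe_filter,
      Set.mem_ofPred_eq, Finset.mem_coe]
    constructor
    · intro h
      refine ⟨fun i hi => ?_, fun i hi => ?_⟩
      · have := h i hi.1
        rwa [mixP_pos hi.2] at this
      · have := h i hi.1
        rwa [mixP_neg hi.2] at this
    · rintro ⟨h1, h2⟩ i hi
      by_cases hp : i ∈ p
      · rw [mixP_pos hp]; exact h1 i ⟨hi, hp⟩
      · rw [mixP_neg hp]; exact h2 i ⟨hi, hp⟩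
  rw [h1, Measure.prod_prod, Measure.infinitePi_pi _ fun i _ => ht i,
    Measure.infinitePi_pi _ fun i _ => ht i]
  exact Finset.prod_filter_mul_prod_filter_not s (fun i => i ∈ p) fun i => cm K i (t i)

/-- A set that depends on finitely many coins is measurable. -/
theorem fd {F : Set Idx} (hF : F.Finite) {s : Set Om}
    (hs : ∀ ω ω' : Om, (∀ a ∈ F, ω a = ω' a) → (ω ∈ s ↔ ω' ∈ s)) : MeasurableSet s := by
  classical
  have : Finite F := hF
  let r : Om → (F → Bool) := fun ω a => ω a
  have hr : Measurable r := by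
    refine measurable_pi_lambda _ fun i => ?_
    exact measurable_pi_apply _
  have h1 : s = r ⁻¹' (r '' s) := by
    ext ω
    constructor
    · intro h
      exact ⟨ω, h, rfl⟩
    · rintro ⟨ω', h', he⟩
      refine (hs ω' ω fun a ha => ?_).1 h'
      exact congrFun he ⟨a, ha⟩
  rw [h1]
  exact hr (Set.toFinite _).measurableSet

theorem meas_of_dep {α : Type} [MeasurableSpace α] {s : Set Idx} (hs : s.Finite) {f : Om → α}
    (hf : Dep s f) : Measurable f := by
  intro A _
  refine fd hs fun ω ω' h => ?_
  rw [Set.mem_preimage, Set.mem_preimage, hf ω ω' h]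

theorem Dep.mono {α : Type} {s t : Set Idx} {f : Om → α} (hf : Dep s f) (h : s ⊆ t) : Dep t f :=
  fun ω ω' h' => hf ω ω' fun a ha => h' a (h ha)

/-- Functions of different coins are independent. -/
theorem indep {p : Set Idx} {F G : Om → ℝ≥0∞} (hF : Measurable F) (hG : Measurable G)
    (dF : Dep p F) (dG : Dep pᶜ G) :
    ∫⁻ ω, F ω * G ω ∂(coin K) = (∫⁻ ω, F ω ∂(coin K)) * ∫⁻ ω, G ω ∂(coin K) := by
  have h0 : ∫⁻ z : Om × Om, F (mixP p z.1 z.2) * G (mixP p z.1 z.2) ∂((coin K).prod (coin K)) =
      ∫⁻ ω, F ω * G ω ∂(coin K) := (mixp K p).lintegral_comp (hF.mul hG)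
  rw [← h0]
  have h1 : ∀ z : Om × Om, F (mixP p z.1 z.2) * G (mixP p z.1 z.2) = F z.1 * G z.2 := by
    intro z
    rw [dF (mixP p z.1 z.2) z.1 fun a ha => mixP_pos ha,
      dG (mixP p z.1 z.2) z.2 fun a ha => mixP_neg ha]
  simp only [h1]
  exact lintegral_prod_mul hF.aemeasurable hG.aemeasurable

/-- The probability of an event is the mean of its conditional probabilities. -/
theorem lint_mix {p : Set Idx} {S : Set Om} (hS : MeasurableSet S) {H : Om → ℝ≥0∞}
    (hH : Measurable H) (dH : Dep p H) :
    ∫⁻ ω in S, H ω ∂(coin K) =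
      ∫⁻ ω, H ω * coin K {τ | mixP p ω τ ∈ S} ∂(coin K) := by
  rw [← lintegral_indicator hS, ← (mixp K p).lintegral_comp (hH.indicator hS),
    lintegral_prod (fun z : Om × Om => S.indicator H (mixP p z.1 z.2))
      ((hH.indicator hS).comp (mixP_meas p)).aemeasurable]
  refine lintegral_congr fun ω => ?_
  have h1 : ∀ τ : Om, S.indicator H (mixP p ω τ) =
      H ω * (({τ | mixP p ω τ ∈ S} : Set Om).indicator 1 τ) := by
    intro τ
    by_cases h : mixP p ω τ ∈ S
    · rw [indicator_of_mem h, indicator_of_mem (show τ ∈ {τ | mixP p ω τ ∈ S} from h),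
        dH (mixP p ω τ) ω fun a ha => mixP_pos ha]
      simp
    · rw [indicator_of_notMem h, indicator_of_notMem (show τ ∉ {τ | mixP p ω τ ∈ S} from h)]
      simp
  have hm : MeasurableSet {τ | mixP p ω τ ∈ S} :=
    ((mixP_meas p).comp (measurable_const.prodMk measurable_id)) hS
  simp only [h1]
  rw [lintegral_const_mul _ (measurable_one.indicator hm), lintegral_indicator_one hm]

theorem bern_false (s : ℝ) : bern s {false} = ENNReal.ofReal s := by
  unfold bern
  simp

theorem bern_true (s : ℝ) : bern s {true} = ENNReal.ofReal (1 - s) := by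
  unfold bern
  simp

theorem coin_true (a : Idx) : coin K {ω | ω a = true} = ENNReal.ofReal (1 - sv K a) := by
  have h1 : {ω : Om | ω a = true} = Set.pi (({a} : Finset Idx) : Set Idx) fun _ => {true} := by
    ext ω
    simp
  rw [h1]
  unfold coin
  rw [Measure.infinitePi_pi _ fun i _ => measurableSet_singleton _]
  simp only [Finset.prod_singleton]
  exact bern_true _

theorem coin_false (F : Finset Idx) :
    coin K {ω | ∀ a ∈ F, ω a = false} = ENNReal.ofReal (∏ a ∈ F, sv K a) := by
  have h1 : {ω : Om | ∀ a ∈ F, ω a = false} = Set.pi (F : Set Idx) fun _ => {false} := by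
    ext ω
    simp [Set.mem_pi]
  rw [h1]
  unfold coin
  rw [Measure.infinitePi_pi _ fun i _ => measurableSet_singleton _,
    ENNReal.ofReal_prod_of_nonneg fun a _ => (sv_pos K a).le]
  refine Finset.prod_congr rfl fun a _ => ?_
  exact bern_false _

/-- The law of finitely many coins. -/
theorem coin_map {D : Type} [Fintype D] (ι : D → Idx) (hι : Function.Injective ι) :
    (coin K).map (fun ω d => ω (ι d)) = Measure.pi fun d => bern (sv K (ι d)) := by
  classical
  have : ∀ d, IsProbabilityMeasure (bern (sv K (ι d))) := fun d =>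
    bern_prob (sv_pos K _).le (sv_le_one K _)
  refine (Measure.pi_eq fun s hs => ?_).symm
  have hm : Measurable fun (ω : Om) (d : D) => ω (ι d) :=
    measurable_pi_lambda _ fun d => measurable_pi_apply _
  rw [Measure.map_apply hm (MeasurableSet.univ_pi hs)]
  let T : Idx → Set Bool := fun a => ⋂ (d : D) (_ : ι d = a), s d
  have hT : ∀ d, T (ι d) = s d := by
    intro d
    ext b
    simp only [T, Set.mem_iInter]
    constructor
    · intro h
      exact h d rfl
    · intro h d' hd'
      rw [hι hd']
      exact h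
  have h1 : (fun (ω : Om) (d : D) => ω (ι d)) ⁻¹' (Set.univ.pi s) =
      Set.pi ((Finset.univ.image ι : Finset Idx) : Set Idx) T := by
    ext ω
    simp only [Set.mem_preimage, Set.mem_pi, Finset.coe_image, Finset.coe_univ, Set.image_univ,
      Set.mem_range, forall_exists_index, forall_apply_eq_imp_iff, Set.mem_univ, true_imp_iff]
    refine forall_congr' fun d => ?_
    rw [hT]
  rw [h1]
  unfold coin
  rw [Measure.infinitePi_pi _ fun i _ => MeasurableSet.of_discrete,
    Finset.prod_image fun a _ b _ h => hι h]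
  refine Finset.prod_congr rfl fun d _ => ?_
  rw [hT]
  rfl

end

end Pool.Agent.RelS
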