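import Pool.Agent.RelS.Targets
import Pool.Agent.RelO.LEV
import Pool.Agent.RelM.LOC

/-!
# The beginnings of the stages
-/

set_option autoImplicit false

namespace Pool.Agent.RelS

open Pool.Agent.RelM (Lang str qb)
open Pool.Agent.RelO (lev st levfin levmono)

namespace NN_

theorem exp_bound (e C j : ℕ) : ∃ N : ℕ, ∀ n, N ≤ n → C * (n + j + 2) ^ e + 2 < 2 ^ n := by
  have h := (isLittleO_pow_const_const_pow_of_one_lt (R := ℝ) e (by norm_num : (1 : ℝ) < 2))
  have h1 := (h.bound (by positivity : (0 : ℝ) < 1 / (8 * (C + 1) * 2 ^ (j + 2))))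
  rw [Filter.eventually_atTop] at h1
  obtain ⟨N, hN⟩ := h1
  refine ⟨N + 3, fun n hn => ?_⟩
  have h2 := hN (n + j + 2) (by omega)
  rw [Real.norm_of_nonneg (by positivity), Real.norm_of_nonneg (by positivity)] at h2
  have h3 : (8 : ℝ) * (C + 1) * (((n + j + 2 : ℕ) : ℝ)) ^ e ≤ 2 ^ n := by
    have h4 : (8 : ℝ) * (C + 1) * (1 / (8 * (C + 1) * 2 ^ (j + 2)) * 2 ^ (n + j + 2)) = 2 ^ n := by
      rw [show n + j + 2 = n + (j + 2) by ring, pow_add]
      field_simp
      ring
    rw [← h4]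
    gcongr
  have h5 : 8 * (C + 1) * (n + j + 2) ^ e ≤ 2 ^ n := by exact_mod_cast h3
  have h6 : 2 ^ 3 ≤ 2 ^ n := Nat.pow_le_pow_right (by norm_num) (by omega)
  have h7 : C * (n + j + 2) ^ e ≤ (C + 1) * (n + j + 2) ^ e :=
    Nat.mul_le_mul_right _ (by omega)
  have h8 : 8 * (C + 1) * (n + j + 2) ^ e = 8 * ((C + 1) * (n + j + 2) ^ e) := by ring
  omega

theorem thr_spec (K j : ℕ) :
    j + 2 ≤ thr K j ∧ 4 * K * (j + 1) ≤ thr K j ∧ ∀ n, thr K j ≤ n →
      2 ^ (j + 3) * qb (mc j) (n + j) * 4 ^ ((j + 1) * (K + 3)) + 2 < 2 ^ n := by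
  have hne : {N | j + 2 ≤ N ∧ 4 * K * (j + 1) ≤ N ∧ ∀ n, N ≤ n →
      2 ^ (j + 3) * qb (mc j) (n + j) * 4 ^ ((j + 1) * (K + 3)) + 2 < 2 ^ n}.Nonempty := by
    obtain ⟨N, hN⟩ := exp_bound ((mc j).2.1 + (mc j).2.2 + 3)
      (2 ^ (j + 3) * 4 ^ ((j + 1) * (K + 3))) j
    refine ⟨max N (max (j + 2) (4 * K * (j + 1))), ?_, ?_, fun n hn => ?_⟩
    · exact (le_max_left _ _).trans (le_max_right _ _)
    · exact (le_max_right _ _).trans (le_max_right _ _)
    · have := hN n ((le_max_left _ _).trans hn)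
      unfold qb
      calc _ = 2 ^ (j + 3) * 4 ^ ((j + 1) * (K + 3)) *
            (n + j + 2) ^ ((mc j).2.1 + (mc j).2.2 + 3) + 2 := by ring
        _ < _ := this
  exact Nat.sInf_mem hne

theorem thr_le (K j : ℕ) : thr K j ≤ nn K j := by
  cases j with
  | zero => exact le_rfl
  | succ j => rw [nn]; exact le_max_right _ _

end NN_

open NN_

theorem nnmono : T_NNMONO := by
  intro K
  refine strictMono_nat_of_lt_succ fun j => ?_
  rw [nn]
  refine lt_of_lt_of_le (Nat.lt_succ_of_le ?_) (le_max_left _ _)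
  exact (Nat.le_add_right _ _).trans (le_max_right _ _)

theorem nnge : T_NNGE := fun K j => (thr_spec K j).1.trans (thr_le K j)

theorem nnk : T_NNK := fun K j => (thr_spec K j).2.1.trans (thr_le K j)

theorem nnq (K j n : ℕ) (h : nn K j ≤ n) :
    2 ^ (j + 3) * qb (mc j) (n + j) * 4 ^ ((j + 1) * (K + 3)) + 2 < 2 ^ n :=
  (thr_spec K j).2.2 n ((thr_le K j).trans h)

theorem nnnext (K j : ℕ) : qb (mc j) (nn K j + j) < nn K (j + 1) := by
  rw [nn]
  exact lt_of_lt_of_le (Nat.lt_succ_of_le (le_max_left _ _)) (le_max_left _ _)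

theorem nnnext' (K j : ℕ) : nn K j + j < nn K (j + 1) := by
  rw [nn]
  exact lt_of_lt_of_le (Nat.lt_succ_of_le (le_max_right _ _)) (le_max_left _ _)

theorem jjspec : T_JJ := by
  intro K m
  have hne : {j | m < nn K j}.Nonempty := ⟨m, by
    have := nnge K m
    show m < nn K m
    omega⟩
  refine ⟨Nat.sInf_mem hne, fun j hj => ?_⟩
  have := Nat.notMem_of_lt_sInf hj
  exact not_lt.1 this

/-- The stage of a cost between two beginnings. -/
theorem jj_eq {K m j : ℕ} (h1 : nn K j ≤ m) (h2 : m < nn K (j + 1)) : jj K m = j + 1 := by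
  obtain ⟨h3, h4⟩ := jjspec K m
  have h5 : jj K m ≤ j + 1 := by
    by_contra h
    have := h4 (j + 1) (by omega)
    omega
  have h6 : j < jj K m := by
    by_contra h
    have h7 : nn K (jj K m) ≤ nn K j := (nnmono K).monotone (by omega)
    omega
  omega

theorem oldfin : T_OLDFIN := by
  intro K j
  have h1 : (Set.Iic (nn K j) ×ˢ ({x : List Bool | x.length ≤ nn K j} ×ˢ
      ({y : List Bool | y.length ≤ nn K j} ×ˢ Set.Iic K)) : Set Idx).Finite :=
    (Set.finite_Iic _).prod ((List.finite_length_le Bool _).prod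
      ((List.finite_length_le Bool _).prod (Set.finite_Iic _)))
  refine h1.subset ?_
  rintro ⟨κ, x, y, i⟩ ⟨h2, h3, h4⟩
  have h2' : lev κ x < nn K j := h2
  have h3' : y.length = lev κ x := h3
  obtain ⟨h5, h6⟩ := levfin κ x (nn K j) h2'.le
  refine ⟨h5, h6, ?_, h4.le⟩
  show y.length ≤ nn K j
  omega

theorem old_mono (K : ℕ) {m m' : ℕ} (h : m ≤ m') : Old K m ⊆ Old K m' := by
  rintro a ⟨h1, h2⟩
  exact ⟨h1.trans_le ((nnmono K).monotone h), h2⟩

/-! ## The histories -/

theorem pa_congr {K j : ℕ} {ω ω' : Om} (h : ∀ a ∈ Old K j, ω a = ω' a) (hh : Hist) (t i : ℕ) :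
    pa K j hh ω t i = pa K j hh ω' t i := by
  have h1 : ∀ τ, mixP (Old K j) ω τ = mixP (Old K j) ω' τ := by
    intro τ
    funext a
    unfold mixP
    by_cases ha : a ∈ Old K j
    · rw [if_pos ha, if_pos ha, h a ha]
    · rw [if_neg ha, if_neg ha]
  unfold pa
  simp only [h1]

theorem unc_congr {K j : ℕ} {ω ω' : Om} (h : ∀ a ∈ Old K j, ω a = ω' a) (hh : Hist) (i : ℕ) :
    unc K j hh ω i = unc K j hh ω' i := by
  unfold unc
  simp only [pa_congr h]

theorem best_congr {K j : ℕ} {ω ω' : Om} (h : ∀ a ∈ Old K j, ω a = ω' a) (hh : Hist) :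
    best K j hh ω = best K j hh ω' := by
  unfold best
  simp only [unc_congr h]

theorem hint_congr {K j : ℕ} {ω ω' : Om} (h : ∀ a ∈ Old K j, ω a = ω' a) (hh : Hist) (i : ℕ) :
    hint K j hh ω i = hint K j hh ω' i := by
  funext t
  unfold hint
  simp only [pa_congr h]

theorem hs_succ (K : ℕ) (ω : Om) (j : ℕ) : hs K ω (j + 1) =
    (Function.update (hs K ω j).1 (j + 1) (best K j (hs K ω j) ω),
      Function.update (hs K ω j).2 j (hint K j (hs K ω j) ω (best K j (hs K ω j) ω))) := rfl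

theorem hsdep : T_HSDEP := by
  intro K j
  induction j with
  | zero =>
    intro ω ω' h
    simp only [hs]
    rw [best_congr h, hint_congr h]
  | succ j ih =>
    intro ω ω' h
    have h1 := ih ω ω' fun a ha => h a (old_mono K (Nat.le_succ j) ha)
    rw [hs_succ K ω (j + 1), hs_succ K ω' (j + 1), h1, best_congr h, hint_congr h]

theorem hs1_succ (K : ℕ) (ω : Om) (m j : ℕ) (h : j ≤ m) : (hs K ω (m + 1)).1 j = (hs K ω m).1 j := by
  rw [hs]
  exact Function.update_of_ne (by omega) _ _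

theorem hs2_succ (K : ℕ) (ω : Om) (m j : ℕ) (h : j < m) : (hs K ω (m + 1)).2 j = (hs K ω m).2 j := by
  rw [hs]
  exact Function.update_of_ne (by omega) _ _

theorem hs1_le (K : ℕ) (ω : Om) {m m' j : ℕ} (hm : m ≤ m') (h : j ≤ m) :
    (hs K ω m').1 j = (hs K ω m).1 j := by
  induction m', hm using Nat.le_induction with
  | base => rfl
  | succ m' hm ih => rw [hs1_succ K ω m' j (by omega), ih]

theorem hs2_le (K : ℕ) (ω : Om) {m m' j : ℕ} (hm : m ≤ m') (h : j < m) :
    (hs K ω m').2 j = (hs K ω m).2 j := by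
  induction m', hm using Nat.le_induction with
  | base => rfl
  | succ m' hm ih => rw [hs2_succ K ω m' j (by omega), ih]

theorem hsval : T_HSVAL := by
  intro K ω m
  constructor
  · intro j hj
    exact hs1_le K ω hj le_rfl
  · intro j hj
    show (hs K ω m).2 j = (hs K ω (j + 1)).2 j
    exact hs2_le K ω (by omega) (by omega)

theorem best_lt {K j : ℕ} (hK : 1 ≤ K) (hh : Hist) (ω : Om) : best K j hh ω < K := by
  unfold best
  split_ifs with hx
  · exact hx.choose_spec.1
  · omega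

theorem opt : T_OPT := by
  intro K ω m j hK
  induction m with
  | zero =>
    show 0 < K
    omega
  | succ m ih =>
    rw [hs]
    show Function.update (hs K ω m).1 (m + 1) (best K m (hs K ω m) ω) j < K
    by_cases h : j = m + 1
    · subst h
      rw [Function.update_self]
      exact best_lt hK _ _
    · rw [Function.update_of_ne h]
      exact ih

end Pool.Agent.RelS
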