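import Pool.Agent.RelS.Targets
import Pool.Agent.RelM.LOC

/-!
# The sequence without its first members
-/

set_option autoImplicit false

namespace Pool.Agent.RelS

open Pool.Agent.RelM (Lang Instr Cfg step run Halts Approx triple outVal run_zero run_succ stay
  halts_mono)

namespace SHIFT_

/-- The instruction with shifted jumps. -/
def sh (l : ℕ) : Instr → Instr
  | Instr.push s b => Instr.push s b
  | Instr.pop s l₀ l₁ l₂ => Instr.pop s (l₀ + l) (l₁ + l) (l₂ + l)
  | Instr.ask s l₀ l₁ => Instr.ask s (l₀ + l) (l₁ + l)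

/-- The program that first puts `l` ones on stack `0`. -/
def prog (l : ℕ) (P : List Instr) : List Instr :=
  List.replicate l (Instr.push 0 true) ++ P.map (sh l)

theorem prog_length (l : ℕ) (P : List Instr) : (prog l P).length = l + P.length := by
  simp [prog]

theorem prog_lt (l : ℕ) (P : List Instr) (i : ℕ) (h : i < l) :
    (prog l P)[i]? = some (Instr.push 0 true) := by
  unfold prog
  rw [List.getElem?_append_left (by simpa using h)]
  simp [h]

theorem prog_ge (l : ℕ) (P : List Instr) (i : ℕ) : (prog l P)[i + l]? = P[i]?.map (sh l) := by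
  unfold prog
  rw [List.getElem?_append_right (by simp)]
  simp

theorem first (O : Lang) (l : ℕ) (P : List Instr) (x : List Bool) (t : ℕ) (h : t ≤ l) :
    run O (prog l P) x t =
      ⟨t, Function.update (fun _ => []) 0 (List.replicate t true ++ x)⟩ := by
  induction t with
  | zero => rfl
  | succ t ih =>
    rw [run_succ, ih (by omega)]
    unfold step
    simp only [prog_lt l P t (by omega)]
    congr 1
    rw [Function.update_self, Function.update_idem]
    rfl

/-- The configuration with a shifted number of the next instruction. -/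
def cs (l : ℕ) (c : Cfg) : Cfg := ⟨c.pc + l, c.st⟩

theorem step_cs (O : Lang) (l : ℕ) (P : List Instr) (c : Cfg) :
    step O (prog l P) (cs l c) = cs l (step O P c) := by
  unfold step cs
  simp only [prog_ge]
  rcases hp : P[c.pc]? with _ | ⟨i, b⟩ | ⟨i, l₀, l₁, l₂⟩ | ⟨i, l₀, l₁⟩
  · rfl
  · simp only [Option.map_some, sh]
    congr 1
    omega
  · simp only [Option.map_some, sh]
    rcases hc : c.st i with _ | ⟨b, u⟩
    · rfl
    · cases b <;> rfl
  · simp only [Option.map_some, sh]
    cases O (c.st i) <;> rfl

theorem second (O : Lang) (l : ℕ) (P : List Instr) (x : List Bool) (t : ℕ) :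
    run O (prog l P) x (l + t) = cs l (run O P (List.replicate l true ++ x) t) := by
  induction t with
  | zero =>
    rw [add_zero, first O l P x l le_rfl, run_zero]
    unfold cs
    simp
  | succ t ih =>
    rw [← add_assoc, run_succ, run_succ, ih, step_cs]

theorem triple_shift (k l r : ℕ) (w : List Bool) :
    triple (k + l) r w = List.replicate l true ++ triple k r w := by
  unfold triple
  rw [add_comm k l, List.replicate_add, List.append_assoc]

theorem time_le (c l n : ℕ) : l + (n + l + 2) ^ c ≤ (n + 2) ^ ((l + 1) * c + l + 1) := by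
  have h1 : l < 2 ^ l := Nat.lt_two_pow_self
  have h2 : 2 ^ l ≤ (n + 2) ^ l := Nat.pow_le_pow_left (by omega) _
  have h3 : n + l + 2 ≤ (n + 2) ^ (l + 1) := by
    rw [pow_succ]
    have h4 : (l + 1) * (n + 2) ≤ (n + 2) ^ l * (n + 2) := Nat.mul_le_mul_right _ (by omega)
    have h5 : n + l + 2 ≤ (l + 1) * (n + 2) := by nlinarith
    omega
  have h6 : (n + l + 2) ^ c ≤ (n + 2) ^ ((l + 1) * c) := by
    rw [pow_mul]
    exact Nat.pow_le_pow_left h3 c
  have h7 : (n + 2) ^ ((l + 1) * c) ≤ (n + 2) ^ ((l + 1) * c + l) :=
    Nat.pow_le_pow_right (by omega) (by omega)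
  have h8 : (n + 2) ^ l ≤ (n + 2) ^ ((l + 1) * c + l) :=
    Nat.pow_le_pow_right (by omega) (by omega)
  have h9 : (n + 2) ^ ((l + 1) * c + l + 1) = (n + 2) ^ ((l + 1) * c + l) * (n + 2) := pow_succ _ _
  have h10 : (n + 2) ^ ((l + 1) * c + l) * 2 ≤ (n + 2) ^ ((l + 1) * c + l) * (n + 2) :=
    Nat.mul_le_mul_left _ (by omega)
  omega

end SHIFT_

open SHIFT_ in
theorem shift : T_SHIFT := by
  intro O P c l d h
  refine ⟨prog l P, (l + 1) * c + l + 1, fun k r w => ?_⟩
  obtain ⟨h1, h2⟩ := h (k + l) r w
  have h3 : (triple (k + l) r w).length = (triple k r w).length + l := by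
    rw [triple_shift, List.length_append, List.length_replicate, add_comm]
  have h4 : Halts O (prog l P) (triple k r w) (l + ((triple k r w).length + l + 2) ^ c) := by
    unfold Halts at h1 ⊢
    rw [second, prog_length, ← triple_shift]
    rw [h3] at h1
    have h6 : P.length ≤
        (run O P (triple (k + l) r w) (((triple k r w).length + l + 2) ^ c)).pc := h1
    show l + P.length ≤ (run O P (triple (k + l) r w) _).pc + l
    omega
  have h5 := time_le c l (triple k r w).length
  refine ⟨halts_mono _ _ _ _ _ h4 h5, ?_⟩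
  show |outVal (run O (prog l P) (triple k r w) (((triple k r w).length + 2) ^ _)) - _| ≤ _
  rw [stay _ _ _ _ _ h4 h5, second, ← triple_shift]
  rw [h3] at h2
  exact h2

end Pool.Agent.RelS
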