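import Pool.Agent.RelS.GAME

/-!
# Increasing events of independent coins with changing intensities
-/

set_option autoImplicit false

namespace Pool.Agent.RelS

open Real Set

/-- The weight of the outcome `V`, if coin `d` is `false` with probability `q d`. -/
noncomputable def wt {D : Type} [Fintype D] (q : D → ℝ) (V : D → Bool) : ℝ :=
  ∏ d, if V d = true then 1 - q d else q d

open Classical in
/-- The probability of `A`. -/
noncomputable def PF {D : Type} [Fintype D] (q : D → ℝ) (A : Set (D → Bool)) : ℝ :=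
  ∑ V, if V ∈ A then wt q V else 0

/-- `A` is decreasing. -/
def Low {D : Type} (A : Set (D → Bool)) : Prop :=
  ∀ V V' : D → Bool, V ∈ A → (∀ d, V' d = true → V d = true) → V' ∈ A

section
variable {D : Type} [Fintype D]

theorem wt_nonneg {q : D → ℝ} (h0 : ∀ d, 0 ≤ q d) (h1 : ∀ d, q d ≤ 1) (V : D → Bool) :
    0 ≤ wt q V := by
  refine Finset.prod_nonneg fun d _ => ?_
  split_ifs
  · linarith [h1 d]
  · exact h0 d

theorem PF_def [DecidableEq D] (q : D → ℝ) (A : Set (D → Bool)) [DecidablePred (· ∈ A)] :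
    PF q A = ∑ V : D → Bool, if V ∈ A then wt q V else 0 := by
  unfold PF
  refine Finset.sum_congr (by ext V; simp) fun V _ => ?_
  by_cases h : V ∈ A
  · rw [if_pos h, if_pos h]
  · rw [if_neg h, if_neg h]

theorem wt_sum [DecidableEq D] (q : D → ℝ) : ∑ V, wt q V = 1 := by
  have h := Finset.prod_univ_sum (fun _ : D => (Finset.univ : Finset Bool))
    (fun d b => if b = true then 1 - q d else q d)
  rw [Fintype.piFinset_univ] at h
  unfold wt
  rw [← h]
  refine Finset.prod_eq_one fun d _ => ?_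
  simp

theorem PF_nonneg {q : D → ℝ} (h0 : ∀ d, 0 ≤ q d) (h1 : ∀ d, q d ≤ 1) (A : Set (D → Bool)) :
    0 ≤ PF q A := by
  refine Finset.sum_nonneg fun V _ => ?_
  split_ifs
  · exact wt_nonneg h0 h1 V
  · exact le_rfl

theorem PF_mono {q : D → ℝ} (h0 : ∀ d, 0 ≤ q d) (h1 : ∀ d, q d ≤ 1) {A B : Set (D → Bool)}
    (h : A ⊆ B) : PF q A ≤ PF q B := by
  refine Finset.sum_le_sum fun V _ => ?_
  by_cases hA : V ∈ A
  · rw [if_pos hA, if_pos (h hA)]
  · rw [if_neg hA]
    split_ifs
    · exact wt_nonneg h0 h1 V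
    · exact le_rfl

theorem PF_univ (q : D → ℝ) : PF q Set.univ = 1 := by
  classical
  rw [PF_def]
  simp [wt_sum]

theorem PF_le_one {q : D → ℝ} (h0 : ∀ d, 0 ≤ q d) (h1 : ∀ d, q d ≤ 1) (A : Set (D → Bool)) :
    PF q A ≤ 1 := by
  rw [← PF_univ q]
  exact PF_mono h0 h1 (Set.subset_univ _)

end

/-! ## The power inequality -/

theorem incr {γ a b h : ℝ} (hγ : 1 ≤ γ) (hb : 0 ≤ b) (hab : b ≤ a) (hh : 0 ≤ h) :
    (b + h) ^ γ + a ^ γ ≤ b ^ γ + (a + h) ^ γ := by
  rcases eq_or_lt_of_le (show b ≤ a + h by linarith) with he | hlt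
  · have h1 : h = 0 := by linarith
    have h2 : a = b := by linarith
    rw [h1, h2]
    simp
  · have hL : 0 < a + h - b := by linarith
    have hc := (convexOn_rpow hγ).2
    set l := h / (a + h - b) with hl
    have l0 : 0 ≤ l := div_nonneg hh hL.le
    have l1 : l ≤ 1 := by rw [hl, div_le_one hL]; linarith
    have e0 : l * (a + h - b) = h := div_mul_cancel₀ _ hL.ne'
    have e1 : (1 - l) • b + l • (a + h) = b + h := by
      simp only [smul_eq_mul]; nlinarith
    have e2 : l • b + (1 - l) • (a + h) = a := by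
      simp only [smul_eq_mul]; nlinarith
    have mb : b ∈ Set.Ici (0 : ℝ) := hb
    have ma : a + h ∈ Set.Ici (0 : ℝ) := by
      show 0 ≤ a + h
      linarith
    have c1 := hc mb ma (by linarith : (0 : ℝ) ≤ 1 - l) l0 (by ring)
    have c2 := hc mb ma l0 (by linarith : (0 : ℝ) ≤ 1 - l) (by ring)
    rw [e1] at c1
    rw [e2] at c2
    simp only [smul_eq_mul] at c1 c2
    nlinarith

theorem elem {γ q x y : ℝ} (hγ : 1 ≤ γ) (q0 : 0 ≤ q) (q1 : q ≤ 1) (hy : 0 ≤ y) (hxy : y ≤ x) :
    q ^ γ * x ^ γ + (1 - q ^ γ) * y ^ γ ≤ (q * x + (1 - q) * y) ^ γ := by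
  have h := incr (γ := γ) (a := q * x) (b := q * y) (h := (1 - q) * y) hγ (by positivity)
    (by gcongr) (mul_nonneg (by linarith) hy)
  have e : q * y + (1 - q) * y = y := by ring
  rw [e, mul_rpow q0 (hy.trans hxy), mul_rpow q0 hy] at h
  nlinarith

theorem star_fin {γ : ℝ} (hγ : 1 ≤ γ) : ∀ (n : ℕ) (q : Fin n → ℝ), (∀ d, 0 ≤ q d) →
    (∀ d, q d ≤ 1) → ∀ A : Set (Fin n → Bool), Low A →
    PF (fun d => q d ^ γ) A ≤ PF q A ^ γ := by
  classical
  intro n
  induction n with
  | zero =>
    intro q _ _ A _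
    unfold PF wt
    rw [Fintype.sum_unique, Fintype.sum_unique]
    split_ifs
    · simp
    · rw [zero_rpow (by linarith)]
  | succ n ih =>
    intro q q0 q1 A hA
    have split : ∀ r : Fin (n + 1) → ℝ, PF r A =
        r 0 * PF (fun d => r d.succ) {V | Fin.cons false V ∈ A} +
          (1 - r 0) * PF (fun d => r d.succ) {V | Fin.cons true V ∈ A} := by
      intro r
      rw [PF_def, PF_def, PF_def, ← (Fin.consEquiv fun _ => Bool).sum_comp, Fintype.sum_prod_type, Fintype.sum_bool,
        add_comm]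
      congr 1
      · rw [Finset.mul_sum]
        refine Finset.sum_congr rfl fun V _ => ?_
        have hw : wt r (Fin.cons false V : Fin (n + 1) → Bool) =
            r 0 * wt (fun d => r d.succ) V := by
          unfold wt
          rw [Fin.prod_univ_succ]
          simp
        show (if (Fin.cons false V : Fin (n + 1) → Bool) ∈ A then
            wt r (Fin.cons false V : Fin (n + 1) → Bool) else 0) =
          r 0 * (if (Fin.cons false V : Fin (n + 1) → Bool) ∈ A then
            wt (fun d => r d.succ) V else 0)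
        by_cases hV : (Fin.cons false V : Fin (n + 1) → Bool) ∈ A
        · rw [if_pos hV, if_pos hV]; exact hw
        · rw [if_neg hV, if_neg hV, mul_zero]
      · rw [Finset.mul_sum]
        refine Finset.sum_congr rfl fun V _ => ?_
        have hw : wt r (Fin.cons true V : Fin (n + 1) → Bool) =
            (1 - r 0) * wt (fun d => r d.succ) V := by
          unfold wt
          rw [Fin.prod_univ_succ]
          simp
        show (if (Fin.cons true V : Fin (n + 1) → Bool) ∈ A then
            wt r (Fin.cons true V : Fin (n + 1) → Bool) else 0) =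
          (1 - r 0) * (if (Fin.cons true V : Fin (n + 1) → Bool) ∈ A then
            wt (fun d => r d.succ) V else 0)
        by_cases hV : (Fin.cons true V : Fin (n + 1) → Bool) ∈ A
        · rw [if_pos hV, if_pos hV]; exact hw
        · rw [if_neg hV, if_neg hV, mul_zero]
    have hlow : ∀ b : Bool, Low {V : Fin n → Bool | (Fin.cons b V : Fin (n + 1) → Bool) ∈ A} := by
      intro b V V' hV h
      refine hA _ _ hV fun d => ?_
      refine Fin.cases ?_ (fun d => ?_) d
      · simp
      · simpa using h d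
    have hsub : {V : Fin n → Bool | (Fin.cons true V : Fin (n + 1) → Bool) ∈ A} ⊆
        {V | Fin.cons false V ∈ A} := by
      intro V hV
      refine hA _ _ hV fun d => ?_
      refine Fin.cases ?_ (fun d => ?_) d
      · simp
      · simp
    have hx := ih (fun d => q d.succ) (fun d => q0 _) (fun d => q1 _) _ (hlow false)
    have hy := ih (fun d => q d.succ) (fun d => q0 _) (fun d => q1 _) _ (hlow true)
    have hxy := PF_mono (fun d => q0 d.succ) (fun d => q1 d.succ) hsub
    have hy0 := PF_nonneg (fun d => q0 d.succ) (fun d => q1 d.succ)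
      {V : Fin n → Bool | (Fin.cons true V : Fin (n + 1) → Bool) ∈ A}
    rw [split, split]
    refine le_trans ?_ (elem hγ (q0 0) (q1 0) hy0 hxy)
    have hq1 : q 0 ^ γ ≤ 1 := rpow_le_one (q0 0) (q1 0) (by linarith)
    have hq0 : 0 ≤ q 0 ^ γ := rpow_nonneg (q0 0) _
    exact add_le_add (mul_le_mul_of_nonneg_left hx hq0)
      (mul_le_mul_of_nonneg_left hy (by linarith))

theorem PF_equiv {D D' : Type} [Fintype D] [Fintype D'] (e : D ≃ D') (q : D → ℝ)
    (A : Set (D → Bool)) :
    PF q A = PF (fun d => q (e.symm d)) {V : D' → Bool | (fun d => V (e d)) ∈ A} := by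
  classical
  rw [PF_def, PF_def, ← (Equiv.arrowCongr e (Equiv.refl Bool)).sum_comp]
  refine Finset.sum_congr rfl fun V _ => ?_
  have h1 : (fun d => (Equiv.arrowCongr e (Equiv.refl Bool)) V (e d)) = V := by
    funext d
    simp [Equiv.arrowCongr]
  have h2 : wt (fun d => q (e.symm d)) ((Equiv.arrowCongr e (Equiv.refl Bool)) V) = wt q V := by
    unfold wt
    rw [← e.prod_comp]
    refine Finset.prod_congr rfl fun d _ => ?_
    simp [Equiv.arrowCongr]
  simp only [Set.mem_ofPred_eq, h1, h2]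

/-- The power inequality. -/
theorem star {D : Type} [Fintype D] {γ : ℝ} (hγ : 1 ≤ γ) {q : D → ℝ} (q0 : ∀ d, 0 ≤ q d)
    (q1 : ∀ d, q d ≤ 1) {A : Set (D → Bool)} (hA : Low A) :
    PF (fun d => q d ^ γ) A ≤ PF q A ^ γ := by
  rw [PF_equiv (Fintype.equivFin D) q A, PF_equiv (Fintype.equivFin D) (fun d => q d ^ γ) A]
  refine star_fin hγ _ _ (fun d => q0 _) (fun d => q1 _) _ ?_
  intro V V' hV h
  exact hA _ _ hV fun d => h _

/-! ## One dilation dominates -/

theorem dilate {K : ℕ} (hK : 1 ≤ K) {lam : Fin K → ℝ} (hl : ∀ i, 0 < lam i) (hm : Monotone lam)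
    {v : Fin K → ℝ} (v0 : ∀ i, 0 ≤ v i) (v1 : ∀ i, v i ≤ 1)
    (hv : ∀ i j, i ≤ j → v j ≤ v i ^ (lam j / lam i)) :
    ∃ u, 0 ≤ u ∧ ∀ i, binEntropy (v i) ≤ gf (lam i * u) := by
  have hl2 : 0 < log 2 := log_pos (by norm_num)
  have : Nonempty (Fin K) := ⟨⟨0, hK⟩⟩
  -- the truncated values
  let w : Fin K → ℝ := fun i => max (v i) 2⁻¹
  have w0 : ∀ i, 0 < w i := fun i => lt_of_lt_of_le (by norm_num) (le_max_right _ _)
  have w1 : ∀ i, w i ≤ 1 := fun i => max_le (v1 i) (by norm_num)
  let c : Fin K → ℝ := fun i => -log (w i) / lam i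
  have hc : ∀ i, lam i * c i = -log (w i) := fun i => by
    simp only [c]
    rw [mul_div_cancel₀ _ (hl i).ne']
  have hw2 : ∀ i, -log (w i) ≤ log 2 := by
    intro i
    have : log 2⁻¹ ≤ log (w i) := log_le_log (by norm_num) (le_max_right _ _)
    rw [log_inv] at this
    linarith
  have hw0 : ∀ i, 0 ≤ -log (w i) := fun i => by
    have := log_nonpos (w0 i).le (w1 i)
    linarith
  have c0 : ∀ i, 0 ≤ c i := fun i => div_nonneg (hw0 i) (hl i).le
  obtain ⟨i₀, h0⟩ := Finite.exists_max c
  have hexp : ∀ i j, exp (-(lam i * c j)) = w j ^ (lam i / lam j) := by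
    intro i j
    rw [rpow_def_of_pos (w0 j)]
    congr 1
    simp only [c]
    ring
  refine ⟨c i₀, c0 i₀, fun i => ?_⟩
  rcases le_or_gt 2⁻¹ (v i) with hi | hi
  · have hwi : w i = v i := max_eq_left hi
    have hvi : 0 < v i := lt_of_lt_of_le (by norm_num) hi
    have e1 : binEntropy (v i) = gf (-log (w i)) := by
      unfold gf
      rw [neg_neg, exp_log (w0 i), hwi]
    rw [e1]
    refine gf_mono (hw0 i) ?_ ?_
    · rw [← hc i]
      exact mul_le_mul_of_nonneg_left (h0 i) (hl i).le
    · rcases le_total i₀ i with h | h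
      · have h1 : exp (-(log 2)) ≤ exp (-(lam i * c i₀)) := by
          rw [hexp, exp_neg_log_two]
          refine hi.trans ((hv i₀ i h).trans ?_)
          exact rpow_le_rpow (v0 _) (le_max_left _ _) (div_nonneg (hl _).le (hl _).le)
        have := exp_le_exp.1 h1
        linarith
      · calc lam i * c i₀ ≤ lam i₀ * c i₀ := mul_le_mul_of_nonneg_right (hm h) (c0 _)
          _ = -log (w i₀) := hc i₀
          _ ≤ log 2 := hw2 i₀
  · have hwi : w i = 2⁻¹ := max_eq_right hi.le
    have hle : v i ≤ exp (-(lam i * c i₀)) := by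
      rcases le_total i₀ i with h | h
      · rw [hexp]
        refine (hv i₀ i h).trans ?_
        exact rpow_le_rpow (v0 _) (le_max_left _ _) (div_nonneg (hl _).le (hl _).le)
      · refine hi.le.trans ?_
        rw [← exp_neg_log_two]
        refine exp_le_exp.2 (neg_le_neg ?_)
        calc lam i * c i₀ ≤ lam i₀ * c i₀ := mul_le_mul_of_nonneg_right (hm h) (c0 _)
          _ = -log (w i₀) := hc i₀
          _ ≤ log 2 := hw2 i₀
    have hge : exp (-(lam i * c i₀)) ≤ 2⁻¹ := by
      rw [← exp_neg_log_two]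
      refine exp_le_exp.2 (neg_le_neg ?_)
      have h1 : lam i * c i = log 2 := by
        rw [hc i, hwi, log_inv]; ring
      rw [← h1]
      exact mul_le_mul_of_nonneg_left (h0 i) (hl i).le
    unfold gf
    exact binEntropy_strictMonoOn.monotoneOn ⟨v0 i, hle.trans hge⟩
      ⟨(exp_pos _).le, hge⟩ hle

/-- The mean entropy of a decreasing event is at most the value of the game. -/
theorem low_bound {K : ℕ} (hK : 1 ≤ K) {τ c : ℝ} (hτ : 0 ≤ τ) {pv : Fin K → ℝ}
    (pv0 : ∀ i, 0 ≤ pv i) (hpv : ∀ u, 0 ≤ u → ∑ i : Fin K, pv i * gf (exp (i * τ) * u) ≤ c)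
    {D : Type} [Fintype D] {e : D → ℝ} (he : ∀ d, 0 ≤ e d) {A : Set (D → Bool)} (hA : Low A) :
    ∑ i : Fin K, pv i * binEntropy (PF (fun d => exp (-(exp (i * τ) * e d))) A) ≤ c := by
  have q0 : ∀ (i : Fin K) d, 0 ≤ exp (-(exp (i * τ) * e d)) := fun i d => (exp_pos _).le
  have q1 : ∀ (i : Fin K) d, exp (-(exp (i * τ) * e d)) ≤ 1 := fun i d => by
    refine exp_le_one_iff.2 ?_
    have := mul_nonneg (exp_pos (i * τ)).le (he d)
    linarith
  have hm : Monotone fun i : Fin K => exp (i * τ) := by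
    intro i j hij
    refine exp_le_exp.2 (mul_le_mul_of_nonneg_right ?_ hτ)
    exact_mod_cast hij
  obtain ⟨u, hu, h⟩ := dilate hK (lam := fun i : Fin K => exp (i * τ)) (fun i => exp_pos _) hm
    (v := fun i => PF (fun d => exp (-(exp (i * τ) * e d))) A)
    (fun i => PF_nonneg (q0 i) (q1 i) A) (fun i => PF_le_one (q0 i) (q1 i) A) (by
      intro i j hij
      have hγ : 1 ≤ exp (j * τ) / exp (i * τ) := by
        rw [le_div_iff₀ (exp_pos _), one_mul]
        exact hm hij
      have h1 := star hγ (q0 i) (q1 i) hA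
      refine le_trans (le_of_eq ?_) h1
      congr 1
      funext d
      rw [← exp_mul]
      congr 1
      field_simp)
  exact (Finset.sum_le_sum fun i _ => mul_le_mul_of_nonneg_left (h i) (pv0 i)).trans (hpv u hu)

end Pool.Agent.RelS
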