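import Pool.Agent.RelS.STAR

/-!
# Events with short certificates are almost increasing
-/

set_option autoImplicit false

namespace Pool.Agent.RelS

open Real Set

/-- `F` has certificates of size at most `T`. -/
def Cert {D : Type} (F : (D → Bool) → Prop) (T : ℕ) : Prop :=
  ∀ V : D → Bool, F V → ∃ Q : Finset D, Q.card ≤ T ∧ ∀ V' : D → Bool, (∀ d ∈ Q, V' d = V d) → F V'

/-- The smallest increasing property that contains `F`. -/
def Upw {D : Type} (F : (D → Bool) → Prop) (V : D → Bool) : Prop :=
  ∃ V' : D → Bool, F V' ∧ ∀ d, V' d = true → V d = true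

theorem Upw.of {D : Type} {F : (D → Bool) → Prop} {V : D → Bool} (h : F V) : Upw F V :=
  ⟨V, h, fun _ h => h⟩

theorem low_not_upw {D : Type} (F : (D → Bool) → Prop) : Low {V : D → Bool | ¬ Upw F V} := by
  rintro V V' hV h ⟨V'', h1, h2⟩
  exact hV ⟨V'', h1, fun d hd => h d (h2 d hd)⟩

namespace UP_

variable {D : Type} [Fintype D]

/-- The names of the certificates: the coins that have to be `true` and the coins that have to be
`false`. -/
abbrev Ct (D : Type) : Type := Finset D × Finset D

/-- A certificate. -/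
def Ok (F : (D → Bool) → Prop) (T : ℕ) (c : Ct D) : Prop :=
  c.2.card ≤ T ∧ Disjoint c.1 c.2 ∧
    ∀ V : D → Bool, (∀ d ∈ c.1, V d = true) → (∀ d ∈ c.2, V d = false) → F V

/-- The certificate may be used for `V`. -/
def Us (F : (D → Bool) → Prop) (T : ℕ) (V : D → Bool) (c : Ct D) : Prop :=
  Ok F T c ∧ ∀ d ∈ c.1, V d = true

/-- The first certificate that may be used for `V`. -/
def Fst (F : (D → Bool) → Prop) (T : ℕ) (V : D → Bool) (c : Ct D) : Prop :=
  Us F T V c ∧ ∀ c' : Ct D, Fintype.equivFin (Ct D) c' < Fintype.equivFin (Ct D) c → ¬ Us F T V c'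

theorem fst_unique {F : (D → Bool) → Prop} {T : ℕ} {V : D → Bool} {c c' : Ct D}
    (h : Fst F T V c) (h' : Fst F T V c') : c = c' := by
  rcases lt_trichotomy (Fintype.equivFin (Ct D) c) (Fintype.equivFin (Ct D) c') with h1 | h1 | h1
  · exact absurd h.1 (h'.2 c h1)
  · exact (Fintype.equivFin (Ct D)).injective h1
  · exact absurd h'.1 (h.2 c' h1)

theorem exists_fst {F : (D → Bool) → Prop} {T : ℕ} (hF : Cert F T) {V : D → Bool}
    (h : Upw F V) : ∃ c, Fst F T V c := by
  classical
  obtain ⟨V', h1, h2⟩ := h
  obtain ⟨Q, hQ, h3⟩ := hF V' h1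
  have hne : ∃ c, Us F T V c := by
    refine ⟨(Q.filter fun d => V' d = true, Q.filter fun d => V' d = false), ⟨?_, ?_, ?_⟩, ?_⟩
    · exact (Finset.card_filter_le _ _).trans hQ
    · rw [Finset.disjoint_left]
      intro d hd hd'
      rw [Finset.mem_filter] at hd hd'
      rw [hd.2] at hd'
      exact absurd hd'.2 (by simp)
    · intro W hW1 hW2
      refine h3 W fun d hd => ?_
      rcases hb : V' d with _ | _
      · exact hW2 d (Finset.mem_filter.2 ⟨hd, hb⟩)
      · exact hW1 d (Finset.mem_filter.2 ⟨hd, hb⟩)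
    · intro d hd
      exact h2 d (Finset.mem_filter.1 hd).2
  let S : Finset (Ct D) := Finset.univ.filter fun c => Us F T V c
  have hS : S.Nonempty := by
    obtain ⟨c, hc⟩ := hne
    exact ⟨c, Finset.mem_filter.2 ⟨Finset.mem_univ _, hc⟩⟩
  obtain ⟨c, hc, hmin⟩ := S.exists_min_image (fun c => Fintype.equivFin (Ct D) c) hS
  refine ⟨c, (Finset.mem_filter.1 hc).2, fun c' hlt hu => ?_⟩
  exact absurd (hmin c' (Finset.mem_filter.2 ⟨Finset.mem_univ _, hu⟩)) (not_le.2 hlt)

theorem fst_update [DecidableEq D] {F : (D → Bool) → Prop} {T : ℕ} {V : D → Bool} {c : Ct D} {z : D}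
    (h : Fst F T V c) (hz : z ∈ c.2) : Fst F T (Function.update V z false) c := by
  have hz1 : z ∉ c.1 := fun h' => (Finset.disjoint_left.1 h.1.1.2.1) h' hz
  refine ⟨⟨h.1.1, fun d hd => ?_⟩, fun c' hlt hu => h.2 c' hlt ⟨hu.1, fun d hd => ?_⟩⟩
  · have hne : d ≠ z := by
      rintro rfl
      exact hz1 hd
    rw [Function.update_of_ne hne]
    exact h.1.2 d hd
  · have := hu.2 d hd
    by_cases he : d = z
    · rw [he, Function.update_self] at this
      exact absurd this (by simp)
    · rwa [Function.update_of_ne he] at this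

theorem wt_update [DecidableEq D] (q : D → ℝ) {V : D → Bool} {z : D} (hz : V z = true) :
    q z * wt q V = (1 - q z) * wt q (Function.update V z false) := by
  unfold wt
  rw [← Finset.mul_prod_erase Finset.univ _ (Finset.mem_univ z),
    ← Finset.mul_prod_erase Finset.univ
      (fun d => if (Function.update V z false) d = true then 1 - q d else q d)
      (Finset.mem_univ z)]
  simp only [hz, if_true, Function.update_self, Bool.false_eq_true, if_false]
  have : ∏ d ∈ Finset.univ.erase z, (if (Function.update V z false) d = true then 1 - q d else q d)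
      = ∏ d ∈ Finset.univ.erase z, (if V d = true then 1 - q d else q d) := by
    refine Finset.prod_congr rfl fun d hd => ?_
    rw [Function.update_of_ne (Finset.ne_of_mem_erase hd)]
  rw [this]
  ring

end UP_

open UP_ in
/-- An event with certificates of size `T` differs from an increasing event with small
probability. -/
theorem up_bound {D : Type} [Fintype D] {q : D → ℝ} (h0 : ∀ d, 1 / 2 ≤ q d) (h1 : ∀ d, q d ≤ 1)
    {ρ : ℝ} (hρ : ∀ d, 1 - q d ≤ ρ) (hρ0 : 0 ≤ ρ) {F : (D → Bool) → Prop} {T : ℕ}
    (hF : Cert F T) : PF q {V | Upw F V ∧ ¬ F V} ≤ 2 * T * ρ := by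
  classical
  have hq0 : ∀ d, 0 ≤ q d := fun d => by linarith [h0 d]
  rw [PF_def]
  have step1 : ∀ V : D → Bool, (if V ∈ {V | Upw F V ∧ ¬ F V} then wt q V else 0) ≤
      ∑ c : Ct D, ∑ z ∈ c.2, if Fst F T V c ∧ V z = true then wt q V else 0 := by
    intro V
    have hnn : ∀ c : Ct D, 0 ≤ ∑ z ∈ c.2, if Fst F T V c ∧ V z = true then wt q V else 0 := by
      intro c
      refine Finset.sum_nonneg fun z _ => ?_
      split_ifs
      · exact wt_nonneg hq0 h1 V
      · exact le_rfl
    by_cases hV : V ∈ {V | Upw F V ∧ ¬ F V}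
    · rw [if_pos hV]
      obtain ⟨c, hc⟩ := exists_fst hF hV.1
      have hz : ∃ z ∈ c.2, V z = true := by
        by_contra hcon
        push Not at hcon
        refine hV.2 (hc.1.1.2.2 V hc.1.2 fun d hd => ?_)
        have := hcon d hd
        simpa using this
      obtain ⟨z, hz1, hz2⟩ := hz
      refine le_trans ?_ (Finset.single_le_sum (fun c _ => hnn c) (Finset.mem_univ c))
      refine le_trans ?_ (Finset.single_le_sum (f := fun z =>
        if Fst F T V c ∧ V z = true then wt q V else 0) (fun z _ => ?_) hz1)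
      · rw [if_pos ⟨hc, hz2⟩]
      · split_ifs
        · exact wt_nonneg hq0 h1 V
        · exact le_rfl
    · rw [if_neg hV]
      exact Finset.sum_nonneg fun c _ => hnn c
  have step2 : ∀ (c : Ct D) (z : D), z ∈ c.2 →
      ∑ V : D → Bool, (if Fst F T V c ∧ V z = true then wt q V else 0) ≤
        2 * ρ * ∑ V : D → Bool, if Fst F T V c then wt q V else 0 := by
    intro c z hz
    rw [← Finset.sum_filter, ← Finset.sum_filter]
    have hinj : Set.InjOn (fun V : D → Bool => Function.update V z false)
        (Finset.univ.filter fun V : D → Bool => Fst F T V c ∧ V z = true) := by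
      intro V hV V' hV' he
      rw [Finset.mem_coe, Finset.mem_filter] at hV hV'
      funext d
      by_cases hd : d = z
      · rw [hd, hV.2.2, hV'.2.2]
      · have := congrFun he d
        simpa [Function.update_of_ne hd] using this
    calc ∑ V ∈ Finset.univ.filter (fun V : D → Bool => Fst F T V c ∧ V z = true), wt q V
        ≤ ∑ V ∈ Finset.univ.filter (fun V : D → Bool => Fst F T V c ∧ V z = true),
            2 * ρ * wt q (Function.update V z false) := by
          refine Finset.sum_le_sum fun V hV => ?_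
          rw [Finset.mem_filter] at hV
          have e1 := wt_update q hV.2.2
          have e2 := wt_nonneg hq0 h1 (Function.update V z false)
          have e3 := wt_nonneg hq0 h1 V
          have e4 := h0 z
          have e5 := hρ z
          have e6 : (1 - q z) * wt q (Function.update V z false) ≤
              ρ * wt q (Function.update V z false) := mul_le_mul_of_nonneg_right e5 e2
          nlinarith [mul_le_mul_of_nonneg_right e4 e3]
      _ = 2 * ρ * ∑ V ∈ (Finset.univ.filter (fun V : D → Bool => Fst F T V c ∧ V z = true)).image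
            (fun V => Function.update V z false), wt q V := by
          rw [Finset.sum_image hinj, Finset.mul_sum]
      _ ≤ 2 * ρ * ∑ V ∈ Finset.univ.filter (fun V : D → Bool => Fst F T V c), wt q V := by
          refine mul_le_mul_of_nonneg_left ?_ (by positivity)
          refine Finset.sum_le_sum_of_subset_of_nonneg ?_ fun V _ _ => wt_nonneg hq0 h1 V
          intro V hV
          rw [Finset.mem_image] at hV
          obtain ⟨W, hW, rfl⟩ := hV
          rw [Finset.mem_filter] at hW ⊢
          exact ⟨Finset.mem_univ _, fst_update hW.2.1 hz⟩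
  have step3 : ∀ c : Ct D, ∑ z ∈ c.2, ∑ V : D → Bool,
      (if Fst F T V c ∧ V z = true then wt q V else 0) ≤
        2 * T * ρ * ∑ V : D → Bool, if Fst F T V c then wt q V else 0 := by
    intro c
    have hs : 0 ≤ ∑ V : D → Bool, if Fst F T V c then wt q V else 0 := by
      refine Finset.sum_nonneg fun V _ => ?_
      split_ifs
      · exact wt_nonneg hq0 h1 V
      · exact le_rfl
    by_cases hc : c.2.card ≤ T
    · calc ∑ z ∈ c.2, ∑ V : D → Bool, (if Fst F T V c ∧ V z = true then wt q V else 0)
          ≤ ∑ z ∈ c.2, 2 * ρ * ∑ V : D → Bool, if Fst F T V c then wt q V else 0 :=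
            Finset.sum_le_sum fun z hz => step2 c z hz
        _ = c.2.card * (2 * ρ * ∑ V : D → Bool, if Fst F T V c then wt q V else 0) := by
            rw [Finset.sum_const, nsmul_eq_mul]
        _ ≤ T * (2 * ρ * ∑ V : D → Bool, if Fst F T V c then wt q V else 0) := by
            refine mul_le_mul_of_nonneg_right (by exact_mod_cast hc) ?_
            positivity
        _ = _ := by ring
    · have h2 : ∀ V : D → Bool, ¬ Fst F T V c := fun V h => hc h.1.1.1
      have h3 : ∑ z ∈ c.2, ∑ V : D → Bool,
          (if Fst F T V c ∧ V z = true then wt q V else 0) = 0 := by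
        refine Finset.sum_eq_zero fun z _ => Finset.sum_eq_zero fun V _ => ?_
        rw [if_neg fun h => h2 V h.1]
      rw [h3]
      positivity
  calc ∑ V : D → Bool, (if V ∈ {V | Upw F V ∧ ¬ F V} then wt q V else 0)
      ≤ ∑ V : D → Bool, ∑ c : Ct D, ∑ z ∈ c.2,
          if Fst F T V c ∧ V z = true then wt q V else 0 := Finset.sum_le_sum fun V _ => step1 V
    _ = ∑ c : Ct D, ∑ z ∈ c.2, ∑ V : D → Bool,
          if Fst F T V c ∧ V z = true then wt q V else 0 := by
        rw [Finset.sum_comm]
        exact Finset.sum_congr rfl fun c _ => Finset.sum_comm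
    _ ≤ ∑ c : Ct D, 2 * T * ρ * ∑ V : D → Bool, if Fst F T V c then wt q V else 0 :=
        Finset.sum_le_sum fun c _ => step3 c
    _ = 2 * T * ρ * ∑ V : D → Bool, ∑ c : Ct D, if Fst F T V c then wt q V else 0 := by
        rw [← Finset.mul_sum, Finset.sum_comm]
    _ ≤ 2 * T * ρ * ∑ V : D → Bool, wt q V := by
        refine mul_le_mul_of_nonneg_left (Finset.sum_le_sum fun V _ => ?_) (by positivity)
        by_cases hex : ∃ c, Fst F T V c
        · obtain ⟨c, hc⟩ := hex
          rw [Finset.sum_eq_single c]
          · rw [if_pos hc]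
          · intro c' _ hne
            rw [if_neg fun h => hne (fst_unique h hc)]
          · intro h
            exact absurd (Finset.mem_univ _) h
        · push Not at hex
          rw [Finset.sum_eq_zero fun c _ => if_neg (hex c)]
          exact wt_nonneg hq0 h1 V
    _ = 2 * T * ρ := by rw [wt_sum, mul_one]

/-- The probabilities of `F` and of the increasing property. -/
theorem up_diff {D : Type} [Fintype D] {q : D → ℝ} (h0 : ∀ d, 1 / 2 ≤ q d) (h1 : ∀ d, q d ≤ 1)
    {ρ : ℝ} (hρ : ∀ d, 1 - q d ≤ ρ) (hρ0 : 0 ≤ ρ) {F : (D → Bool) → Prop} {T : ℕ}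
    (hF : Cert F T) : |PF q {V | F V} - (1 - PF q {V | ¬ Upw F V})| ≤ 2 * T * ρ := by
  classical
  have hb := up_bound h0 h1 hρ hρ0 hF
  have e1 : PF q {V | Upw F V ∧ ¬ F V} + PF q {V | F V} + PF q {V | ¬ Upw F V} = 1 := by
    rw [← wt_sum q, PF_def, PF_def, PF_def, ← Finset.sum_add_distrib, ← Finset.sum_add_distrib]
    refine Finset.sum_congr rfl fun V _ => ?_
    simp only [Set.mem_ofPred_eq]
    by_cases hu : Upw F V
    · by_cases hf : F V
      · simp [hu, hf]
      · simp [hu, hf]
    · have hf : ¬ F V := fun h => hu (Upw.of h)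
      simp [hu, hf]
  have hn : 0 ≤ PF q {V | Upw F V ∧ ¬ F V} :=
    PF_nonneg (fun d => by linarith [h0 d]) h1 _
  rw [abs_le]
  constructor <;> linarith

end Pool.Agent.RelS
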