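import Pool.Agent.RelS.Core
import Pool.Agent.RelM.QRY

/-!
# Values of the oracle
-/

set_option autoImplicit false

namespace Pool.Agent.RelS

open Pool.Agent.RelM (Lang Instr wq sq0 sq1 Asks hq wq_inj triple_inj wq_length triple_length)
open Pool.Agent.RelO (lev)

lemma sq1_length (κ : ℕ) (x : List Bool) (m : ℕ) :
    (sq1 κ x m).length = m + κ + x.length + 4 := by
  simp [sq1, triple_length]

/-- The answer `yes` is kept if the keys, the visible pairs and the fixed part are. -/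
lemma orcV_imp {S S' : ℕ → List Bool → Prop} {G G' : Lang} {z z' : Z} {q : List Bool}
    (h1 : ∀ κ x y, S κ x → y.length = lev κ x → q = wq κ x y → z κ x y = true →
      S' κ x ∧ z' κ x y = true)
    (h2 : ∀ κ x m, S κ x → q = sq1 κ x m → 2 ^ lev κ x ≤ m → Rl z κ x = true →
      S' κ x ∧ Rl z' κ x = true)
    (h3 : ∀ u : List Bool, q = true :: true :: u → G u = true → G' u = true)
    (h : orcV S G z q = true) : orcV S' G' z' q = true := by
  simp only [orcV, decide_eq_true_eq] at h ⊢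
  rcases h with ⟨κ, x, y, a1, a2, a3, a4⟩ | ⟨κ, x, m, a1, a2⟩ | ⟨κ, x, m, a1, a2, a3, a4⟩ |
    ⟨u, a1, a2⟩
  · obtain ⟨b1, b2⟩ := h1 κ x y a1 a2 a3 a4
    exact Or.inl ⟨κ, x, y, b1, a2, a3, b2⟩
  · exact Or.inr (Or.inl ⟨κ, x, m, a1, a2⟩)
  · obtain ⟨b1, b2⟩ := h2 κ x m a1 a2 a3 a4
    exact Or.inr (Or.inr (Or.inl ⟨κ, x, m, b1, a2, a3, b2⟩))
  · exact Or.inr (Or.inr (Or.inr ⟨u, a1, h3 u a1 a2⟩))

theorem owq (S : ℕ → List Bool → Prop) (G : Lang) (z : Z) (κ : ℕ) (x y : List Bool) :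
    orcV S G z (wq κ x y) = true ↔ S κ x ∧ y.length = lev κ x ∧ z κ x y = true := by
  simp only [orcV, decide_eq_true_eq]
  constructor
  · rintro (⟨κ', x', y', hS, hl, hq, hz⟩ | ⟨κ', x', m, hq, -⟩ | ⟨κ', x', m, -, hq, -⟩ |
      ⟨u, hq, -⟩)
    · obtain ⟨h1, h2, h3⟩ := wq_inj hq
      subst h1; subst h2; subst h3
      exact ⟨hS, hl, hz⟩
    · simp [wq, sq0] at hq
    · simp [wq, sq1] at hq
    · simp [wq] at hq
  · rintro ⟨hS, hl, hz⟩
    exact Or.inl ⟨κ, x, y, hS, hl, rfl, hz⟩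

theorem osq0 (S : ℕ → List Bool → Prop) (G : Lang) (z : Z) (κ : ℕ) (x : List Bool) (m : ℕ) :
    orcV S G z (sq0 κ x m) = true ↔ 2 ^ lev κ x ≤ m := by
  simp only [orcV, decide_eq_true_eq]
  constructor
  · rintro (⟨κ', x', y', hS, hl, hq, hz⟩ | ⟨κ', x', m', hq, h⟩ | ⟨κ', x', m', -, hq, -⟩ |
      ⟨u, hq, -⟩)
    · simp [wq, sq0] at hq
    · simp only [sq0, List.cons.injEq, true_and] at hq
      obtain ⟨h1, h2, h3⟩ := triple_inj hq
      subst h1; subst h2; subst h3
      exact h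
    · simp [sq0, sq1] at hq
    · simp [sq0] at hq
  · intro h
    exact Or.inr (Or.inl ⟨κ, x, m, rfl, h⟩)

theorem osq1 (S : ℕ → List Bool → Prop) (G : Lang) (z : Z) (κ : ℕ) (x : List Bool) (m : ℕ) :
    orcV S G z (sq1 κ x m) = true ↔ S κ x ∧ 2 ^ lev κ x ≤ m ∧ Rl z κ x = true := by
  simp only [orcV, decide_eq_true_eq]
  constructor
  · rintro (⟨κ', x', y', hS, hl, hq, hz⟩ | ⟨κ', x', m', hq, h⟩ | ⟨κ', x', m', hS, hq, h⟩ |
      ⟨u, hq, -⟩)
    · simp [wq, sq1] at hq
    · simp [sq0, sq1] at hq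
    · simp only [sq1, List.cons.injEq, true_and] at hq
      obtain ⟨h1, h2, h3⟩ := triple_inj hq
      subst h1; subst h2; subst h3
      exact ⟨hS, h⟩
    · simp [sq1] at hq
  · rintro ⟨hS, h⟩
    exact Or.inr (Or.inr (Or.inl ⟨κ, x, m, hS, rfl, h⟩))

theorem ott (S : ℕ → List Bool → Prop) (G : Lang) (z : Z) (u : List Bool) :
    orcV S G z (true :: true :: u) = G u := by
  rw [Bool.eq_iff_iff]
  simp only [orcV, decide_eq_true_eq]
  constructor
  · rintro (⟨κ', x', y', hS, hl, hq, hz⟩ | ⟨κ', x', m', hq, h⟩ | ⟨κ', x', m', hS, hq, h⟩ |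
      ⟨u', hq, h⟩)
    · simp [wq] at hq
    · simp [sq0] at hq
    · simp [sq1] at hq
    · simp only [List.cons.injEq, true_and] at hq
      rw [hq]; exact h
  · intro h
    exact Or.inr (Or.inr (Or.inr ⟨u, rfl, h⟩))

lemma Rl_congr {z z' : Z} {κ : ℕ} {x : List Bool}
    (h : ∀ y : List Bool, y.length = lev κ x → z κ x y = z' κ x y) : Rl z κ x = Rl z' κ x := by
  rw [Bool.eq_iff_iff]
  simp only [Rl, decide_eq_true_eq]
  constructor
  · rintro ⟨y, h1, h2⟩
    exact ⟨y, h1, by rw [← h y h1]; exact h2⟩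
  · rintro ⟨y, h1, h2⟩
    exact ⟨y, h1, by rw [h y h1]; exact h2⟩

lemma lev_le_wq {κ : ℕ} {x y : List Bool} (h : y.length = lev κ x) :
    lev κ x ≤ (wq κ x y).length := by
  rw [wq_length]; omega

lemma lev_lt_sq1 {κ : ℕ} {x : List Bool} {m : ℕ} (h : 2 ^ lev κ x ≤ m) :
    2 ^ lev κ x ≤ (sq1 κ x m).length := by
  rw [sq1_length]; omega

/-- The answer to a short word depends only on the short keys and the short words of `G`. -/
theorem oloc (S : ℕ → List Bool → Prop) (G G' : Lang) (z z' : Z) (m : ℕ)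
    (hz : ∀ κ x y, lev κ x ≤ m → y.length = lev κ x → z κ x y = z' κ x y)
    (hG : ∀ u : List Bool, u.length + 2 ≤ m → G u = G' u) (q : List Bool) (hq : q.length ≤ m) :
    orcV S G z q = orcV S G' z' q := by
  have key : ∀ (G G' : Lang) (z z' : Z),
      (∀ κ x y, lev κ x ≤ m → y.length = lev κ x → z κ x y = z' κ x y) →
      (∀ u : List Bool, u.length + 2 ≤ m → G u = G' u) →
      orcV S G z q = true → orcV S G' z' q = true := by
    intro G G' z z' hz hG
    refine orcV_imp ?_ ?_ ?_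
    · intro κ x y h1 h2 h3 h4
      have := lev_le_wq h2
      rw [← h3] at this
      exact ⟨h1, by rw [← hz κ x y (this.trans hq) h2]; exact h4⟩
    · intro κ x k h1 h2 h3 h4
      have h5 := lev_lt_sq1 h3
      rw [← h2] at h5
      have h6 : lev κ x < 2 ^ lev κ x := Nat.lt_two_pow_self
      exact ⟨h1, by rw [← Rl_congr fun y hy => hz κ x y (by omega) hy]; exact h4⟩
    · intro u hu h4
      have hq' := hq
      rw [hu, List.length_cons, List.length_cons] at hq'
      rw [← hG u hq']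
      exact h4
  rw [Bool.eq_iff_iff]
  exact ⟨key G G' z z' hz hG, key G' G z' z (fun κ x y h1 h2 => (hz κ x y h1 h2).symm)
    fun u hu => (hG u hu).symm⟩

/-- The answers depend only on the keys of the pairs in `S`. -/
theorem ovis (S : ℕ → List Bool → Prop) (G : Lang) (z z' : Z)
    (hz : ∀ κ x y, S κ x → y.length = lev κ x → z κ x y = z' κ x y) (q : List Bool) :
    orcV S G z q = orcV S G z' q := by
  have key : ∀ (z z' : Z), (∀ κ x y, S κ x → y.length = lev κ x → z κ x y = z' κ x y) →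
      orcV S G z q = true → orcV S G z' q = true := by
    intro z z' hz
    refine orcV_imp ?_ ?_ ?_
    · intro κ x y h1 h2 h3 h4
      exact ⟨h1, by rw [← hz κ x y h1 h2]; exact h4⟩
    · intro κ x k h1 h2 h3 h4
      exact ⟨h1, by rw [← Rl_congr fun y hy => hz κ x y h1 hy]; exact h4⟩
    · intro u _ h4
      exact h4
  rw [Bool.eq_iff_iff]
  exact ⟨key z z' hz, key z' z fun κ x y h1 h2 => (hz κ x y h1 h2).symm⟩

/-- Where the oracle with hidden pairs and another part `11` differs from the oracle. -/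
theorem ocut (S : ℕ → List Bool → Prop) (G G' : Lang) (z z' : Z)
    (hz : ∀ κ x y, S κ x → y.length = lev κ x → z κ x y = z' κ x y) (q : List Bool)
    (h : orc G z q ≠ orcV S G' z' q) :
    (∃ κ x y, ¬ S κ x ∧ y.length = lev κ x ∧ q = wq κ x y ∧ z κ x y = true) ∨
    (∃ κ x m, ¬ S κ x ∧ q = sq1 κ x m ∧ 2 ^ lev κ x ≤ m) ∨
    (∃ u, q = true :: true :: u ∧ G u ≠ G' u) := by
  by_contra hcon
  push Not at hcon
  obtain ⟨h1, h2, hG⟩ := hcon
  apply h
  rw [Bool.eq_iff_iff]
  constructor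
  · unfold orc
    refine orcV_imp ?_ ?_ ?_
    · intro κ x y _ a2 a3 a4
      have hS : S κ x := by
        by_contra hS
        exact h1 κ x y hS a2 a3 a4
      exact ⟨hS, by rw [← hz κ x y hS a2]; exact a4⟩
    · intro κ x m _ a2 a3 a4
      have hS : S κ x := by
        by_contra hS
        have := h2 κ x m hS a2
        omega
      exact ⟨hS, by rw [← Rl_congr fun y hy => hz κ x y hS hy]; exact a4⟩
    · intro u hu a4
      rw [← hG u hu]
      exact a4
  · unfold orc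
    refine orcV_imp ?_ ?_ ?_
    · intro κ x y a1 a2 a3 a4
      exact ⟨trivial, by rw [hz κ x y a1 a2]; exact a4⟩
    · intro κ x m a1 a2 a3 a4
      exact ⟨trivial, by rw [Rl_congr fun y hy => hz κ x y a1 hy]; exact a4⟩
    · intro u hu a4
      rw [hG u hu]
      exact a4

end Pool.Agent.RelS
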