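import Pool.Agent.RelS.MEAS

/-!
# The union of independent random sets
-/

set_option autoImplicit false

namespace Pool.Agent.RelS

open MeasureTheory Set
open scoped ENNReal

section
variable {D : Type} [Fintype D]

/-- The coins `d` are `false` with probability `s d`, independently. -/
noncomputable def mu (s : D → ℝ) : Measure (D → Bool) := Measure.pi fun d => bern (s d)

/-- These are probabilities. -/
def Pr01 (s : D → ℝ) : Prop := ∀ d, 0 ≤ s d ∧ s d ≤ 1

theorem mu_prob {s : D → ℝ} (h : Pr01 s) : IsProbabilityMeasure (mu s) := by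
  have : ∀ d, IsProbabilityMeasure (bern (s d)) := fun d => bern_prob (h d).1 (h d).2
  unfold mu
  infer_instance

theorem bern_or {s s' : ℝ} (h0 : 0 ≤ s) (h1 : s ≤ 1) (h0' : 0 ≤ s') (h1' : s' ≤ 1) :
    ((bern s).prod (bern s')).map (fun z : Bool × Bool => z.1 || z.2) = bern (s * s') := by
  have := bern_prob h0 h1
  have := bern_prob h0' h1'
  have hp : IsProbabilityMeasure (bern (s * s')) :=
    bern_prob (mul_nonneg h0 h0') (mul_le_one₀ h1 h0' h1')
  have hf : ((bern s).prod (bern s')).map (fun z : Bool × Bool => z.1 || z.2) {false} =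
      bern (s * s') {false} := by
    rw [Measure.map_apply (by fun_prop) (measurableSet_singleton _)]
    have h2 : (fun z : Bool × Bool => z.1 || z.2) ⁻¹' {false} = {false} ×ˢ {false} := by
      ext ⟨a, b⟩
      cases a <;> cases b <;> simp
    rw [h2, Measure.prod_prod, bern_false, bern_false, bern_false, ENNReal.ofReal_mul h0]
  have hm : IsProbabilityMeasure
      (((bern s).prod (bern s')).map (fun z : Bool × Bool => z.1 || z.2)) :=
    Measure.isProbabilityMeasure_map (by fun_prop)
  refine Measure.ext_of_singleton fun b => ?_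
  cases b
  · exact hf
  · have h3 : ({true} : Set Bool) = {false}ᶜ := by
      ext b
      cases b <;> simp
    rw [h3, prob_compl_eq_one_sub (measurableSet_singleton _),
      prob_compl_eq_one_sub (measurableSet_singleton _), hf]

theorem mu_or {s s' : D → ℝ} (h : Pr01 s) (h' : Pr01 s') :
    ((mu s).prod (mu s')).map (fun z d => z.1 d || z.2 d) = mu fun d => s d * s' d := by
  have i1 : ∀ d, IsProbabilityMeasure (bern (s d)) := fun d => bern_prob (h d).1 (h d).2
  have i2 : ∀ d, IsProbabilityMeasure (bern (s' d)) := fun d => bern_prob (h' d).1 (h' d).2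
  have h1 := measurePreserving_arrowProdEquivProdArrow Bool Bool D (fun d => bern (s d))
    (fun d => bern (s' d))
  have h2 : (mu s).prod (mu s') = (Measure.pi fun d => (bern (s d)).prod (bern (s' d))).map
      (MeasurableEquiv.arrowProdEquivProdArrow Bool Bool D) := h1.map_eq.symm
  rw [h2, Measure.map_map (by fun_prop) (MeasurableEquiv.measurable _)]
  have h3 : ((fun (z : (D → Bool) × (D → Bool)) (d : D) => z.1 d || z.2 d) ∘
      (MeasurableEquiv.arrowProdEquivProdArrow Bool Bool D)) =
      fun (z : D → Bool × Bool) (d : D) => (fun p : Bool × Bool => p.1 || p.2) (z d) := by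
    funext z d
    rfl
  rw [h3]
  have i3 : ∀ d, SigmaFinite (((bern (s d)).prod (bern (s' d))).map
      (fun p : Bool × Bool => p.1 || p.2)) := fun d => by
    rw [bern_or (h d).1 (h d).2 (h' d).1 (h' d).2]
    have := bern_prob (mul_nonneg (h d).1 (h' d).1) (mul_le_one₀ (h d).2 (h' d).1 (h' d).2)
    infer_instance
  have h4 := Measure.pi_map_pi (μ := fun d => (bern (s d)).prod (bern (s' d)))
    (f := fun _ (p : Bool × Bool) => p.1 || p.2) fun d => Measurable.aemeasurable (by fun_prop)
  refine h4.trans ?_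
  unfold mu
  congr 1
  funext d
  exact bern_or (h d).1 (h d).2 (h' d).1 (h' d).2

theorem mu_eval {s : D → ℝ} (h : Pr01 s) (d : D) :
    mu s {z | z d = true} = ENNReal.ofReal (1 - s d) := by
  have i1 : ∀ d, IsProbabilityMeasure (bern (s d)) := fun d => bern_prob (h d).1 (h d).2
  have h1 := (measurePreserving_eval (fun d => bern (s d)) d).measure_preimage
    (measurableSet_singleton true).nullMeasurableSet
  rw [← bern_true, ← h1]
  rfl

/-- `C z` is a certificate for `g z`. -/
structure Cert (g : (D → Bool) → Prop) (T : ℕ) (C : (D → Bool) → Finset D) : Prop where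
  card : ∀ z, g z → (C z).card ≤ T
  keep : ∀ z z' : D → Bool, g z → (∀ d, z d = true → z' d = true) →
    (∀ d ∈ C z, z' d = z d) → g z'

theorem hit_le {s : D → ℝ} (h : Pr01 s) {ε : ℝ} (hε : ∀ d, 1 - s d ≤ ε) (hε0 : 0 ≤ ε)
    {T : ℕ} (F : Finset D) (hF : F.card ≤ T) :
    mu s {z | ∃ d ∈ F, z d = true} ≤ ENNReal.ofReal (T * ε) := by
  have h1 : {z : D → Bool | ∃ d ∈ F, z d = true} ⊆ ⋃ d ∈ F, {z | z d = true} := by
    rintro z ⟨d, hd, hz⟩
    exact Set.mem_biUnion hd hz
  calc mu s {z | ∃ d ∈ F, z d = true} ≤ mu s (⋃ d ∈ F, {z | z d = true}) := measure_mono h1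
    _ ≤ ∑ d ∈ F, mu s {z | z d = true} := measure_biUnion_finset_le _ _
    _ ≤ ∑ _d ∈ F, ENNReal.ofReal ε := by
        refine Finset.sum_le_sum fun d _ => ?_
        rw [mu_eval h]
        exact ENNReal.ofReal_le_ofReal (hε d)
    _ = ENNReal.ofReal (F.card * ε) := by
        rw [Finset.sum_const, nsmul_eq_mul, ENNReal.ofReal_mul (by positivity)]
        simp
    _ ≤ ENNReal.ofReal (T * ε) := by
        apply ENNReal.ofReal_le_ofReal
        gcongr

/-- The union inequality. -/
theorem union_ineq {s s' : D → ℝ} (h : Pr01 s) (h' : Pr01 s') {ε ε' : ℝ}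
    (hε : ∀ d, 1 - s d ≤ ε) (hε0 : 0 ≤ ε) (hε' : ∀ d, 1 - s' d ≤ ε') (hε0' : 0 ≤ ε')
    {g : (D → Bool) → Prop} {T : ℕ} {C : (D → Bool) → Finset D} (hC : Cert g T C) :
    mu (fun d => s d * s' d) {z | ¬ g z} ≤
      mu s {z | ¬ g z} * mu s' {z | ¬ g z} + ENNReal.ofReal (T * ε + T * ε') := by
  have i1 := mu_prob h
  have i2 := mu_prob h'
  rw [← mu_or h h', Measure.map_apply (by fun_prop) MeasurableSet.of_discrete]
  have hsub : (fun (z : (D → Bool) × (D → Bool)) (d : D) => z.1 d || z.2 d) ⁻¹' {z | ¬ g z} ⊆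
      ({z | ¬ g z} ×ˢ {z | ¬ g z}) ∪ ({z | g z.1 ∧ ∃ d ∈ C z.1, z.2 d = true} ∪
        {z | g z.2 ∧ ∃ d ∈ C z.2, z.1 d = true}) := by
    rintro ⟨z, z'⟩ hz
    simp only [Set.mem_preimage, Set.mem_ofPred_eq] at hz
    simp only [Set.mem_union, Set.mem_prod, Set.mem_ofPred_eq]
    by_cases h1 : g z
    · by_cases h2 : ∃ d ∈ C z, z' d = true
      · exact Or.inr (Or.inl ⟨h1, h2⟩)
      · exfalso
        push Not at h2
        refine hz (hC.keep z _ h1 (fun d hd => by rw [hd]; rfl) fun d hd => ?_)
        have : z' d = false := by simpa using h2 d hd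
        rw [this, Bool.or_false]
    · by_cases h1' : g z'
      · by_cases h2 : ∃ d ∈ C z', z d = true
        · exact Or.inr (Or.inr ⟨h1', h2⟩)
        · exfalso
          push Not at h2
          refine hz (hC.keep z' _ h1' (fun d hd => by rw [hd, Bool.or_true]) fun d hd => ?_)
          have : z d = false := by simpa using h2 d hd
          rw [this, Bool.false_or]
      · exact Or.inl ⟨h1, h1'⟩
  have e1 : (mu s).prod (mu s') {z | g z.1 ∧ ∃ d ∈ C z.1, z.2 d = true} ≤
      ENNReal.ofReal (T * ε') := by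
    rw [Measure.prod_apply MeasurableSet.of_discrete]
    calc ∫⁻ x, mu s' (Prod.mk x ⁻¹' {z | g z.1 ∧ ∃ d ∈ C z.1, z.2 d = true}) ∂(mu s)
        ≤ ∫⁻ _, ENNReal.ofReal (T * ε') ∂(mu s) := by
          refine lintegral_mono fun x => ?_
          by_cases hx : g x
          · refine (measure_mono ?_).trans (hit_le h' hε' hε0' (C x) (hC.card x hx))
            rintro y ⟨-, hy⟩
            exact hy
          · have : Prod.mk x ⁻¹' {z : (D → Bool) × (D → Bool) | g z.1 ∧
                ∃ d ∈ C z.1, z.2 d = true} = ∅ := by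
              ext y
              constructor
              · rintro ⟨hy, -⟩
                exact (hx hy).elim
              · intro hy
                exact hy.elim
            rw [this]
            simp
      _ = ENNReal.ofReal (T * ε') := by simp
  have e2 : (mu s).prod (mu s') {z | g z.2 ∧ ∃ d ∈ C z.2, z.1 d = true} ≤
      ENNReal.ofReal (T * ε) := by
    rw [Measure.prod_apply_symm MeasurableSet.of_discrete]
    calc ∫⁻ y, mu s ((fun x => (x, y)) ⁻¹' {z | g z.2 ∧ ∃ d ∈ C z.2, z.1 d = true}) ∂(mu s')
        ≤ ∫⁻ _, ENNReal.ofReal (T * ε) ∂(mu s') := by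
          refine lintegral_mono fun x => ?_
          by_cases hx : g x
          · refine (measure_mono ?_).trans (hit_le h hε hε0 (C x) (hC.card x hx))
            rintro y ⟨-, hy⟩
            exact hy
          · have : (fun y => (y, x)) ⁻¹' {z : (D → Bool) × (D → Bool) | g z.2 ∧
                ∃ d ∈ C z.2, z.1 d = true} = ∅ := by
              ext y
              constructor
              · rintro ⟨hy, -⟩
                exact (hx hy).elim
              · intro hy
                exact hy.elim
            rw [this]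
            simp
      _ = ENNReal.ofReal (T * ε) := by simp
  refine (measure_mono hsub).trans ((measure_union_le _ _).trans ?_)
  rw [Measure.prod_prod]
  refine add_le_add le_rfl ((measure_union_le _ _).trans ?_)
  rw [add_comm (T * ε), ENNReal.ofReal_add (by positivity) (by positivity)]
  exact add_le_add e1 e2

/-- The probability that `g` fails for the union of `m` independent copies. -/
theorem union_pow {s : D → ℝ} (h : Pr01 s) {ε : ℝ} (hε : ∀ d, 1 - s d ≤ ε) (hε0 : 0 ≤ ε)
    {g : (D → Bool) → Prop} {T : ℕ} {C : (D → Bool) → Finset D} (hC : Cert g T C) (m : ℕ) :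
    (mu fun d => s d ^ m).real {z | ¬ g z} ≤ (mu s).real {z | ¬ g z} ^ m + T * ε * m ^ 2 := by
  have i1 := mu_prob h
  have hm : ∀ m : ℕ, Pr01 fun d => s d ^ m := fun m d =>
    ⟨pow_nonneg (h d).1 m, pow_le_one₀ (h d).1 (h d).2⟩
  induction m with
  | zero =>
    have := mu_prob (hm 0)
    simp only [pow_zero, Nat.cast_zero]
    have h1 : (mu fun _ : D => (1 : ℝ)).real {z | ¬ g z} ≤ 1 := by
      have i3 : IsProbabilityMeasure (mu fun _ : D => (1 : ℝ)) :=
        mu_prob fun _ => ⟨zero_le_one, le_rfl⟩
      exact measureReal_le_one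
    nlinarith
  | succ m ih =>
    have i2 := mu_prob (hm m)
    have i3 := mu_prob (hm (m + 1))
    have hεm : ∀ d, 1 - s d ^ m ≤ m * ε := by
      intro d
      have h1 := one_add_mul_le_pow (a := s d - 1) (by linarith [(h d).1]) m
      have h2 : (1 + (s d - 1)) = s d := by ring
      rw [h2] at h1
      have h3 := hε d
      have h4 : (m : ℝ) * (1 - s d) ≤ m * ε := by gcongr
      linarith
    have h1 := union_ineq (hm m) h hεm (by positivity) hε hε0 hC
    have h2 : (fun d => s d ^ m * s d) = fun d => s d ^ (m + 1) := by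
      funext d
      rw [pow_succ]
    rw [h2] at h1
    have h3 : (mu fun d => s d ^ (m + 1)).real {z | ¬ g z} ≤
        (mu fun d => s d ^ m).real {z | ¬ g z} * (mu s).real {z | ¬ g z} +
          (T * (m * ε) + T * ε) := by
      unfold Measure.real
      rw [← ENNReal.toReal_mul, ← ENNReal.toReal_ofReal (r := T * (m * ε) + T * ε) (by positivity),
        ← ENNReal.toReal_add (by finiteness) (by finiteness)]
      exact ENNReal.toReal_mono (by finiteness) h1
    refine h3.trans ?_
    have h4 : (mu s).real {z | ¬ g z} ≤ 1 := measureReal_le_one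
    have h5 : 0 ≤ (mu s).real {z | ¬ g z} := measureReal_nonneg
    have h6 : (mu fun d => s d ^ m).real {z | ¬ g z} * (mu s).real {z | ¬ g z} ≤
        ((mu s).real {z | ¬ g z} ^ m + T * ε * m ^ 2) * (mu s).real {z | ¬ g z} := by
      gcongr
    have h7 : 0 ≤ (T : ℝ) * ε := by positivity
    have h8 : (T : ℝ) * ε * m ^ 2 * (mu s).real {z | ¬ g z} ≤ T * ε * m ^ 2 :=
      mul_le_of_le_one_right (by positivity) h4
    have h9 : (mu s).real {z | ¬ g z} ^ (m + 1) =
        (mu s).real {z | ¬ g z} ^ m * (mu s).real {z | ¬ g z} := pow_succ _ _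
    push_cast
    nlinarith [mul_nonneg h7 (Nat.cast_nonneg (α := ℝ) m)]

end

end Pool.Agent.RelS
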