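import Pool.Agent.RelS.NNS
import Pool.Agent.RelS.ORC
import Pool.Agent.RelS.DENS
import Pool.Agent.RelS.UNI

/-!
# Certificates of acceptance
-/

set_option autoImplicit false

namespace Pool.Agent.RelS

open MeasureTheory Set
open scoped ENNReal
open Pool.Agent.RelM (Lang Instr Cfg run Halts pair triple str pre hq wq sq0 sq1 Asks code qb)
open Pool.Agent.RelO (lev st)
open Pool.Agent.RelM.HFIX_ (qb_bound)

/-- The lengths of the words asked. -/
theorem ask_len {O : Lang} {v : List Instr × ℕ × ℕ} {x y q : List Bool} {s : ℕ}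
    (hy : y.length ≤ (x.length + 2) ^ v.2.1) (hs : s < (x.length + 2) ^ v.2.2)
    (hq : Asks O v.1 (pair x y) s q) : q.length ≤ qb v x.length := by
  have h1 := Pool.Agent.RelM.len _ _ _ _ _ hq
  have h2 : (pair x y).length = 2 * x.length + 1 + y.length := by
    simp [pair, List.length_flatMap]
    ring
  have h3 := qb_bound v x.length
  omega

/-- Acceptance depends only on short words. -/
theorem acc_loc {O O' : Lang} {v : List Instr × ℕ × ℕ} {x : List Bool}
    (h : ∀ q : List Bool, q.length ≤ qb v x.length → O q = O' q) (ha : acc O v x) :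
    acc O' v x := by
  obtain ⟨y, hy, hr⟩ := ha
  refine ⟨y, hy, ?_⟩
  rw [Pool.Agent.RelM.loc O O' v.1 (pair x y) ((x.length + 2) ^ v.2.2)
    (fun s hs q hq => h q (ask_len hy hs hq)) _ le_rfl]
  exact hr

theorem acc_congr {O O' : Lang} {v : List Instr × ℕ × ℕ} {x : List Bool}
    (h : ∀ q : List Bool, q.length ≤ qb v x.length → O q = O' q) : acc O v x ↔ acc O' v x :=
  ⟨acc_loc h, acc_loc fun q hq => (h q hq).symm⟩

/-! ## The new coins -/

/-- The coins with costs from `a` to `b`, without the option. -/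
abbrev DD (a b : ℕ) : Type :=
  {d : ℕ × List Bool × List Bool // a ≤ lev d.1 d.2.1 ∧ lev d.1 d.2.1 < b ∧
    d.2.2.length = lev d.1 d.2.1}

instance (a b : ℕ) : Finite (DD a b) := by
  have h1 : (Set.Iic b ×ˢ ({x : List Bool | x.length ≤ b} ×ˢ
      {y : List Bool | y.length ≤ b}) : Set (ℕ × List Bool × List Bool)).Finite :=
    (Set.finite_Iic _).prod ((List.finite_length_le Bool _).prod (List.finite_length_le Bool _))
  refine (h1.subset ?_).to_subtype
  rintro ⟨κ, x, y⟩ ⟨-, h3, h4⟩
  have h3' : lev κ x < b := h3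
  have h4' : y.length = lev κ x := h4
  obtain ⟨h5, h6⟩ := Pool.Agent.RelO.levfin κ x b h3'.le
  refine ⟨h5, h6, ?_⟩
  show y.length ≤ b
  omega

noncomputable instance (a b : ℕ) : Fintype (DD a b) := Fintype.ofFinite _

open Classical in
/-- The world with the keys `z` of costs from `a` to `b` and the keys of costs less than `a` of
the world `z0`. -/
noncomputable def WW (a b : ℕ) (z0 : Z) (z : DD a b → Bool) : Z := fun κ x y =>
  if lev κ x < a then z0 κ x y
  else if h : a ≤ lev κ x ∧ lev κ x < b ∧ y.length = lev κ x then z ⟨(κ, x, y), h⟩ else false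

lemma WW_lt {a b : ℕ} {z0 : Z} {z : DD a b → Bool} {κ : ℕ} {x y : List Bool}
    (h : lev κ x < a) : WW a b z0 z κ x y = z0 κ x y := by
  unfold WW
  rw [if_pos h]

lemma WW_mid {a b : ℕ} {z0 : Z} {z : DD a b → Bool} (d : DD a b) :
    WW a b z0 z d.1.1 d.1.2.1 d.1.2.2 = z d := by
  unfold WW
  rw [if_neg (not_lt.2 d.2.1), dif_pos d.2]

/-- The words asked determine the answers. -/
theorem orc_eq {a b : ℕ} {G : Lang} {z0 : Z} {z z' : DD a b → Bool} {q : List Bool}
    (hq : q.length < 2 ^ a) (h : ∀ d : DD a b, q = wq d.1.1 d.1.2.1 d.1.2.2 → z' d = z d)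
    (hT : orc G (WW a b z0 z) q = true) : orc G (WW a b z0 z') q = true := by
  unfold orc at hT ⊢
  refine orcV_imp ?_ ?_ ?_ hT
  · intro κ x y _ h2 h3 h4
    refine ⟨trivial, ?_⟩
    unfold WW at h4 ⊢
    by_cases h5 : lev κ x < a
    · rw [if_pos h5] at h4 ⊢
      exact h4
    · rw [if_neg h5] at h4 ⊢
      by_cases h6 : a ≤ lev κ x ∧ lev κ x < b ∧ y.length = lev κ x
      · rw [dif_pos h6] at h4 ⊢
        rw [h ⟨(κ, x, y), h6⟩ h3]
        exact h4
      · rw [dif_neg h6] at h4
        exact absurd h4 (by decide)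
  · intro κ x m _ h2 h3 h4
    refine ⟨trivial, ?_⟩
    have h5 := lev_lt_sq1 h3
    rw [← h2] at h5
    have h6 : lev κ x < a := by
      have h7 : 2 ^ lev κ x < 2 ^ a := h5.trans_lt hq
      exact (Nat.pow_lt_pow_iff_right (by norm_num)).1 h7
    rw [← h4]
    refine Rl_congr fun y _ => ?_
    rw [WW_lt h6, WW_lt h6]
  · intro u _ h4
    exact h4

/-- Acceptance in the world with new keys. -/
def gg (a b : ℕ) (G : Lang) (z0 : Z) (v : List Instr × ℕ × ℕ) (x : List Bool)
    (z : DD a b → Bool) : Prop := acc (orc G (WW a b z0 z)) v x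

open Classical in
/-- The new coins asked by the first accepting run. -/
noncomputable def CC (a b : ℕ) (G : Lang) (z0 : Z) (v : List Instr × ℕ × ℕ) (x : List Bool)
    (z : DD a b → Bool) : Finset (DD a b) :=
  if h : gg a b G z0 v x z then
    Finset.univ.filter fun d => ∃ s < (x.length + 2) ^ v.2.2,
      Asks (orc G (WW a b z0 z)) v.1 (pair x h.choose) s (wq d.1.1 d.1.2.1 d.1.2.2)
  else ∅

/-- Acceptance has certificates. -/
theorem cert (a b : ℕ) (G : Lang) (z0 : Z) (v : List Instr × ℕ × ℕ) (x : List Bool)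
    (h : qb v x.length < 2 ^ a) :
    Cert (gg a b G z0 v x) (qb v x.length) (CC a b G z0 v x) := by
  classical
  constructor
  · intro z hz
    have h1 : (CC a b G z0 v x z).card ≤ (x.length + 2) ^ v.2.2 := by
      unfold CC
      rw [dif_pos hz]
      have h2 : ∀ d ∈ (Finset.univ.filter fun d : DD a b => ∃ s < (x.length + 2) ^ v.2.2,
          Asks (orc G (WW a b z0 z)) v.1 (pair x hz.choose) s (wq d.1.1 d.1.2.1 d.1.2.2)),
          ∃ s ∈ Finset.range ((x.length + 2) ^ v.2.2),
          Asks (orc G (WW a b z0 z)) v.1 (pair x hz.choose) s (wq d.1.1 d.1.2.1 d.1.2.2) := by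
        intro d hd
        obtain ⟨s, h3, h4⟩ := (Finset.mem_filter.1 hd).2
        exact ⟨s, Finset.mem_range.2 h3, h4⟩
      have h5 := Finset.card_le_card_of_forall_subsingleton
        (fun (d : DD a b) (s : ℕ) =>
          Asks (orc G (WW a b z0 z)) v.1 (pair x hz.choose) s (wq d.1.1 d.1.2.1 d.1.2.2)) h2 ?_
      · rw [Finset.card_range] at h5
        exact h5
      · intro s _ d1 hd1 d2 hd2
        have h6 := Pool.Agent.RelM.one _ _ _ _ _ _ hd1.2 hd2.2
        obtain ⟨e1, e2, e3⟩ := Pool.Agent.RelM.wq_inj h6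
        exact Subtype.ext (Prod.ext e1 (Prod.ext e2 e3))
    refine h1.trans ?_
    have := qb_bound v x.length
    omega
  · intro z z' hz _ hC
    have hz' := hz.choose_spec
    refine ⟨hz.choose, hz'.1, ?_⟩
    rw [Pool.Agent.RelM.loc (orc G (WW a b z0 z)) (orc G (WW a b z0 z')) v.1
      (pair x hz.choose) ((x.length + 2) ^ v.2.2) (fun s hs q hq => ?_) _ le_rfl]
    · exact hz'.2
    · have hl := ask_len hz'.1 hs hq
      have hd : ∀ d : DD a b, q = wq d.1.1 d.1.2.1 d.1.2.2 → z' d = z d := by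
        intro d hd
        refine hC d ?_
        unfold CC
        rw [dif_pos hz, Finset.mem_filter]
        exact ⟨Finset.mem_univ _, s, hs, by rw [← hd]; exact hq⟩
      rw [Bool.eq_iff_iff]
      exact ⟨orc_eq (by omega) hd, orc_eq (by omega) fun d h => (hd d h).symm⟩

end Pool.Agent.RelS
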