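import Pool.Agent.RelS.ERR

/-!
# The supergales cover `NP`
-/

set_option autoImplicit false

namespace Pool.Agent.RelS

open MeasureTheory Set
open scoped ENNReal
open Pool.Agent.RelM (Lang Instr Cfg run Halts NP pair triple str pre hq wq sq0 sq1 Asks code qb
  code_surj)
open Pool.Agent.RelO (lev st)

theorem pre_length (A : Lang) (n : ℕ) : (pre A n).length = n := by simp [pre]

theorem pre_getD (A : Lang) {n t : ℕ} (h : t < n) : (pre A n).getD t false = A (str t) := by
  unfold pre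
  simp [List.getD_eq_getElem?_getD, h]

/-- The loss in the bits that are guessed with confidence. -/
theorem conf (n j : ℕ) :
    (1 / 2 : ℝ) ^ 2 ^ n ≤ (1 - (1 / 2 : ℝ) ^ (j + 1)) ^ 2 ^ (n + j) := by
  have h1 : (1 / 2 : ℝ) ^ (j + 1) ≤ 1 := pow_le_one₀ (by norm_num) (by norm_num)
  have h2 := one_add_mul_le_pow (a := -(1 / 2 : ℝ) ^ (j + 1)) (by linarith) (2 ^ j)
  have h3 : (1 : ℝ) + ((2 ^ j : ℕ) : ℝ) * -(1 / 2 : ℝ) ^ (j + 1) = 1 / 2 := by
    have h4 : (2 : ℝ) ^ j * (1 / 2) ^ j = 1 := by rw [← mul_pow]; norm_num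
    rw [pow_succ]
    push_cast
    linear_combination (-1 / 2 : ℝ) * h4
  rw [h3] at h2
  rw [show (2 : ℕ) ^ (n + j) = 2 ^ j * 2 ^ n by rw [pow_add, mul_comm], pow_mul]
  refine pow_le_pow_left₀ (by norm_num) ?_ _
  rw [show (1 : ℝ) - (1 / 2) ^ (j + 1) = 1 + -(1 / 2) ^ (j + 1) by ring]
  exact h2

open Classical in
/-- The probability of a language accepted by the machine of stage `j`, if the stage succeeds. -/
theorem Pw_low {K j : ℕ} {ω : Om} {A : Lang}
    (hA : ∀ t, A (str t) = decide (acc (oo K ω) (mc j) (str t))) (hf : ω ∉ fail K j) :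
    (1 / 2 : ℝ) ^ (2 ^ nn K j * (2 * j + 4) + unc K j (hs K ω j) ω (bo K j ω)) ≤
      Pw K (RelS.hf K ω).2 j (pre A (2 ^ (nn K j + j))) := by
  obtain ⟨x, hx⟩ : ∃ x : ℝ, x = (1 / 2) ^ (j + 1) := ⟨_, rfl⟩
  have hx0 : 0 < x := by rw [hx]; positivity
  have hx1 : x ≤ 1 / 2 := by
    rw [hx]
    calc (1 / 2 : ℝ) ^ (j + 1) ≤ (1 / 2) ^ 1 :=
          pow_le_pow_of_le_one (by norm_num) (by norm_num) (by omega)
      _ = 1 / 2 := pow_one _
  obtain ⟨N, hN⟩ : ∃ N, N = 2 ^ (nn K j + j) := ⟨_, rfl⟩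
  -- the exponents
  obtain ⟨a, ha⟩ : ∃ a : ℕ → ℕ, ∀ t, a t = (if t < 2 ^ nn K j then 1 else 0) +
      (if t ∈ (Finset.Ico (2 ^ nn K j) N).filter fun t =>
        dl j < pa K j (hs K ω j) ω t (bo K j ω) ∧ pa K j (hs K ω j) ω t (bo K j ω) < 1 - dl j
        then 1 else 0) +
      (j + 1) * (if t ∈ (Finset.Ico (2 ^ nn K j) N).filter fun t => Wrong K j t ω
        then 1 else 0) := ⟨_, fun _ => rfl⟩
  have hfac : ∀ t ∈ Finset.range N, (1 / 2 : ℝ) ^ a t * (1 - x) ≤
      qf j (hv K (RelS.hf K ω).2 j t) ((pre A N).getD t false) := by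
    intro t ht
    rw [Finset.mem_range] at ht
    rw [pre_getD A ht]
    have hone : ∀ n : ℕ, (1 / 2 : ℝ) ^ n ≤ 1 := fun n =>
      pow_le_one₀ (by norm_num) (by norm_num)
    have hhalf : ∀ n : ℕ, 1 ≤ n → (1 / 2 : ℝ) ^ n * (1 - x) ≤ 1 / 2 := by
      intro n hn
      calc (1 / 2 : ℝ) ^ n * (1 - x) ≤ (1 / 2) ^ 1 * 1 := by
            apply mul_le_mul _ (by linarith) (by linarith) (by norm_num)
            exact pow_le_pow_of_le_one (by norm_num) (by norm_num) hn
        _ = 1 / 2 := by norm_num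
    by_cases h1 : t < 2 ^ nn K j
    · have h2 : hv K (RelS.hf K ω).2 j t = none := by
        unfold hv
        rw [if_neg (by omega)]
      rw [h2]
      refine hhalf _ ?_
      rw [ha, if_pos h1]
      omega
    · have h2 : hv K (RelS.hf K ω).2 j t = (RelS.hf K ω).2 j t := by
        unfold hv
        rw [if_pos ⟨by omega, by omega⟩]
      have hI : t ∈ Finset.Ico (2 ^ nn K j) N := Finset.mem_Ico.2 ⟨by omega, ht⟩
      rw [h2]
      by_cases h3 : Wrong K j t ω
      · have h4 : (RelS.hf K ω).2 j t = some (!A (str t)) := by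
          rw [hA]
          exact h3
        rw [h4]
        have h5 : qf j (some (!A (str t))) (A (str t)) = x := by
          unfold qf
          simp only
          rw [if_neg (by cases A (str t) <;> simp), hx]
        rw [h5]
        have h6 : j + 1 ≤ a t := by
          have h7 : t ∈ (Finset.Ico (2 ^ nn K j) N).filter fun t => Wrong K j t ω :=
            Finset.mem_filter.2 ⟨hI, h3⟩
          rw [ha, if_pos h7]
          omega
        calc (1 / 2 : ℝ) ^ a t * (1 - x) ≤ (1 / 2) ^ (j + 1) * 1 := by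
              apply mul_le_mul _ (by linarith) (by linarith) (by positivity)
              exact pow_le_pow_of_le_one (by norm_num) (by norm_num) h6
          _ = x := by rw [hx, mul_one]
      · rcases h4 : (RelS.hf K ω).2 j t with _ | c
        · refine hhalf _ ?_
          rw [hf2_eq] at h4
          unfold hint at h4
          split_ifs at h4 with h5 h6
          have h7 : t ∈ (Finset.Ico (2 ^ nn K j) N).filter fun t =>
              dl j < pa K j (hs K ω j) ω t (bo K j ω) ∧
                pa K j (hs K ω j) ω t (bo K j ω) < 1 - dl j :=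
            Finset.mem_filter.2 ⟨hI, not_le.1 h5, not_le.1 h6⟩
          rw [ha, if_pos h7]
          omega
        · have h5 : A (str t) = c := by
            by_contra h6
            apply h3
            show (RelS.hf K ω).2 j t = some (!decide (acc (oo K ω) (mc j) (str t)))
            rw [h4, ← hA]
            congr 1
            revert h6
            cases A (str t) <;> cases c <;> simp
          have h6 : qf j (some c) (A (str t)) = 1 - x := by
            unfold qf
            simp only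
            rw [if_pos h5, hx]
          rw [h6]
          exact mul_le_of_le_one_left (by linarith) (hone _)
  have hsum : ∑ t ∈ Finset.range N, a t ≤
      2 ^ nn K j + unc K j (hs K ω j) ω (bo K j ω) + (j + 1) * err K j ω := by
    simp only [ha]
    rw [Finset.sum_add_distrib, Finset.sum_add_distrib, ← Finset.mul_sum]
    refine Nat.add_le_add (Nat.add_le_add ?_ ?_) (Nat.mul_le_mul_left _ ?_)
    · rw [← Finset.card_filter]
      calc _ ≤ (Finset.range (2 ^ nn K j)).card := by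
            refine Finset.card_le_card fun t ht => ?_
            exact Finset.mem_range.2 (Finset.mem_filter.1 ht).2
        _ = _ := Finset.card_range _
    · rw [← Finset.card_filter]
      unfold unc
      rw [← hN]
      refine Finset.card_le_card fun t ht => ?_
      exact (Finset.mem_filter.1 ht).2
    · rw [← Finset.card_filter]
      unfold err
      rw [← hN]
      refine Finset.card_le_card fun t ht => ?_
      exact (Finset.mem_filter.1 ht).2
  have herr : err K j ω ≤ 2 * 2 ^ nn K j := (not_le.1 hf).le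
  have hexp : ∑ t ∈ Finset.range N, a t + 2 ^ nn K j ≤
      2 ^ nn K j * (2 * j + 4) + unc K j (hs K ω j) ω (bo K j ω) := by
    have h1 : (j + 1) * err K j ω ≤ (j + 1) * (2 * 2 ^ nn K j) := Nat.mul_le_mul_left _ herr
    have h2 : 2 ^ nn K j * (2 * j + 4) = 2 ^ nn K j + 2 ^ nn K j +
        (j + 1) * (2 * 2 ^ nn K j) := by ring
    omega
  have hcf := conf (nn K j) j
  rw [← hN, ← hx] at hcf
  rw [← hN]
  unfold Pw
  rw [pre_length]
  calc (1 / 2 : ℝ) ^ (2 ^ nn K j * (2 * j + 4) + unc K j (hs K ω j) ω (bo K j ω))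
      ≤ (1 / 2) ^ (∑ t ∈ Finset.range N, a t + 2 ^ nn K j) :=
        pow_le_pow_of_le_one (by norm_num) (by norm_num) hexp
    _ = (1 / 2) ^ (∑ t ∈ Finset.range N, a t) * (1 / 2) ^ 2 ^ nn K j := pow_add _ _ _
    _ ≤ (1 / 2) ^ (∑ t ∈ Finset.range N, a t) * (1 - x) ^ N := by gcongr
    _ = ∏ t ∈ Finset.range N, ((1 / 2 : ℝ) ^ a t * (1 - x)) := by
        rw [Finset.prod_mul_distrib, Finset.prod_pow_eq_pow_sum, Finset.prod_const,
          Finset.card_range]
    _ ≤ _ := by
        refine Finset.prod_le_prod (fun t _ => ?_) hfac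
        exact mul_nonneg (by positivity) (by linarith)

/-- The supergale number `k` is large on a language in `NP` if enough stages succeed. -/
theorem cov {K : ℕ} (hK : 1 ≤ K) {ω : Om}
    (hω : ∀ e n : ℕ, ∃ m, n ≤ m ∧ ω ∉ fail K (Nat.pair e m)) {A : Lang} (hA : A ∈ NP (oo K ω))
    (k : ℕ) : ∃ N, 1 ≤ dd K (hf K ω).2 k (pre A N) := by
  classical
  obtain ⟨P, b, c, hP⟩ := hA
  obtain ⟨e, he⟩ := code_surj ((P, b, c), 0)
  obtain ⟨n, hn⟩ := NN_.exp_bound 1 ((k + 1) * (k + 5)) 0
  obtain ⟨m, hm, hmf⟩ := hω e n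
  obtain ⟨j, hj⟩ : ∃ j, j = Nat.pair e m := ⟨_, rfl⟩
  have hjn : n ≤ j := by
    rw [hj]
    exact hm.trans (Nat.right_le_pair e m)
  rw [← hj] at hmf
  have hst : st j = e := by
    unfold st
    rw [hj, Nat.unpair_pair]
  have hmc : mc j = (P, b, c) := by
    unfold mc
    rw [hst, he]
  have hAt : ∀ t, A (str t) = decide (acc (oo K ω) (mc j) (str t)) := by
    intro t
    rw [Bool.eq_iff_iff, (hP (str t)).2, decide_eq_true_eq, hmc]
    rfl
  have hlow := Pw_low hAt hmf
  have hbest := best_spec (j := j) hK (h := hs K ω j) (fun i => opt K ω j i hK) ω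
  have hj2 : (k + 1) * (k + 3 * j + 5) ≤ 2 ^ j := by
    have h1 := hn j hjn
    rw [pow_one] at h1
    nlinarith [Nat.zero_le (k * j), Nat.zero_le k, Nat.zero_le j, Nat.zero_le (k * k * j),
      Nat.zero_le (k * k)]
  refine ⟨2 ^ (nn K j + j), ?_⟩
  have hjN : j < (pre A (2 ^ (nn K j + j))).length := by
    rw [pre_length]
    have h1 : nn K j + j < 2 ^ (nn K j + j) := Nat.lt_two_pow_self
    omega
  refine le_trans ?_ (dlow K (hf K ω).2 k j _ hjN)
  rw [pre_length]
  obtain ⟨E, hE⟩ : ∃ E, E = 2 ^ nn K j * (2 * j + 4) + unc K j (hs K ω j) ω (bo K j ω) :=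
    ⟨_, rfl⟩
  rw [← hE] at hlow
  have hKr : (0 : ℝ) < K := by exact_mod_cast hK
  have hreal : ((k + (j + 1) + E : ℕ) : ℝ) ≤ sK K k * ((2 ^ (nn K j + j) : ℕ) : ℝ) := by
    have h1 : ((unc K j (hs K ω j) ω (bo K j ω) : ℕ) : ℝ) ≤
        1 / K * ((2 ^ (nn K j + j) : ℕ) : ℝ) := by
      rw [one_div, ← div_eq_inv_mul, le_div_iff₀ hKr]
      unfold bo
      have : ((K * unc K j (hs K ω j) ω (best K j (hs K ω j) ω) : ℕ) : ℝ) ≤
          ((2 ^ (nn K j + j) : ℕ) : ℝ) := by exact_mod_cast hbest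
      push_cast at this ⊢
      linarith
    have h2 : ((k + (j + 1) + 2 ^ nn K j * (2 * j + 4) : ℕ) : ℝ) ≤
        1 / (k + 1) * ((2 ^ (nn K j + j) : ℕ) : ℝ) := by
      rw [one_div, ← div_eq_inv_mul, le_div_iff₀ (by positivity)]
      have h3 : (k + (j + 1) + 2 ^ nn K j * (2 * j + 4)) * (k + 1) ≤ 2 ^ (nn K j + j) := by
        have h4 : 1 ≤ 2 ^ nn K j := Nat.one_le_two_pow
        calc (k + (j + 1) + 2 ^ nn K j * (2 * j + 4)) * (k + 1)
            ≤ (2 ^ nn K j * (k + (j + 1)) + 2 ^ nn K j * (2 * j + 4)) * (k + 1) := by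
              gcongr
              exact Nat.le_mul_of_pos_left _ h4
          _ = 2 ^ nn K j * ((k + 1) * (k + 3 * j + 5)) := by ring
          _ ≤ 2 ^ nn K j * 2 ^ j := Nat.mul_le_mul_left _ hj2
          _ = 2 ^ (nn K j + j) := (pow_add _ _ _).symm
      exact_mod_cast h3
    rw [hE]
    unfold sK
    push_cast at h1 h2 ⊢
    rw [add_mul]
    linarith
  have h5 : (2 : ℝ) ^ (k + (j + 1) + E) ≤ (2 : ℝ) ^ (sK K k * ((2 ^ (nn K j + j) : ℕ) : ℝ)) := by
    rw [← Real.rpow_natCast]
    exact Real.rpow_le_rpow_of_exponent_le (by norm_num) hreal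
  have h6 : (1 / 2 : ℝ) ^ k * ((1 / 2) ^ (j + 1) * (1 / 2) ^ E) * 2 ^ (k + (j + 1) + E) = 1 := by
    rw [← pow_add, ← pow_add, ← add_assoc, ← mul_pow]
    norm_num
  calc (1 : ℝ) = (1 / 2 : ℝ) ^ k * ((1 / 2) ^ (j + 1) * (1 / 2) ^ E) * 2 ^ (k + (j + 1) + E) :=
        h6.symm
    _ ≤ (1 / 2 : ℝ) ^ k * ((1 / 2) ^ (j + 1) * Pw K (hf K ω).2 j (pre A (2 ^ (nn K j + j)))) *
        (2 : ℝ) ^ (sK K k * ((2 ^ (nn K j + j) : ℕ) : ℝ)) := by
        have h7 := Pw_nonneg K (hf K ω).2 j (pre A (2 ^ (nn K j + j)))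
        refine mul_le_mul ?_ h5 (by positivity) (by positivity)
        gcongr
    _ = _ := by ring

end Pool.Agent.RelS
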