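import Pool.Agent.RelM.Targets
import Pool.Agent.RelO.Targets

/-!
# Oracles relative to which the dimension of `NP` in `E` is `1 / K`

A world `z` says which words `y` of length `lev κ x` are keys of the pair `κ, x`; the language
`Rl z κ` consists of the words `x` for which the pair has a key. In part `00` of the oracle one can
ask whether `y` is a key, in parts `01` and `10` the bit of `x` can be bought for `2 ^ lev κ x`,
and part `11` holds the bits of a sequence of supergales.

The words are keys independently. Their probabilities depend on an option, a number `i < K`: for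
the pairs of class `c` the probability that there is no key is `2 ^ (- Λ ^ c / Λ ^ i)`. The option
is the same for all pairs which become old at the same stage; it is chosen, given the older coins,
against the nondeterministic machine of the stage.
-/

set_option autoImplicit false

namespace Pool.Agent.RelS

open MeasureTheory Set
open scoped ENNReal
open Pool.Agent.RelM (Lang Instr Cfg step run Halts Decides E1 E2 NP pair triple binVal outVal
  Approx IsDensity str pre IsNullCover Null1 Null2 wq sq0 sq1 Asks hq code qb)
open Pool.Agent.RelO (lev IsGale IsGaleCover GaleNull1 GaleNull2 st)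

/-! ## The oracle -/

/-- A world says whether `y` is a key of the pair `κ`, `x`. -/
abbrev Z : Type := ℕ → List Bool → List Bool → Bool

open Classical in
/-- The words with a key. -/
noncomputable def Rl (z : Z) (κ : ℕ) : Lang := fun x =>
  decide (∃ y : List Bool, y.length = lev κ x ∧ z κ x y = true)

open Classical in
/-- The oracle, in which the pairs κ, x outside `S` are hidden. -/
noncomputable def orcV (S : ℕ → List Bool → Prop) (G : Lang) (z : Z) : Lang := fun q => decide (
  (∃ κ x y, S κ x ∧ y.length = lev κ x ∧ q = wq κ x y ∧ z κ x y = true) ∨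
  (∃ κ x m, q = sq0 κ x m ∧ 2 ^ lev κ x ≤ m) ∨
  (∃ κ x m, S κ x ∧ q = sq1 κ x m ∧ 2 ^ lev κ x ≤ m ∧ Rl z κ x = true) ∨
  (∃ u, q = true :: true :: u ∧ G u = true))

/-- The oracle with the part `G`. -/
noncomputable def orc (G : Lang) (z : Z) : Lang := orcV (fun _ _ => True) G z

/-- The nondeterministic machine `v = (P, j, k)` accepts `x`. -/
def acc (O : Lang) (v : List Instr × ℕ × ℕ) (x : List Bool) : Prop :=
  ∃ y : List Bool, y.length ≤ (x.length + 2) ^ v.2.1 ∧
    (run O v.1 (pair x y) ((x.length + 2) ^ v.2.2)).st 1 = [true]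

/-! ## Stages -/

/-- The machine of stage `j`. -/
noncomputable def mc (j : ℕ) : List Instr × ℕ × ℕ := (code (st j)).1

/-- Stage `j` must begin at least here. -/
noncomputable def thr (K j : ℕ) : ℕ :=
  sInf {N | j + 2 ≤ N ∧ 4 * K * (j + 1) ≤ N ∧ ∀ n, N ≤ n →
    2 ^ (j + 3) * qb (mc j) (n + j) * 4 ^ ((j + 1) * (K + 3)) + 2 < 2 ^ n}

/-- The beginning of stage `j`. The gambler of stage `j` bets on the words with the numbers
`2 ^ nn K j, ..., 2 ^ (nn K j + j) - 1`. -/
noncomputable def nn (K : ℕ) : ℕ → ℕ
  | 0 => thr K 0
  | j + 1 => max (max (qb (mc j) (nn K j + j)) (nn K j + j) + 1) (thr K (j + 1))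

/-- The coins of cost `m` are old for the first time at stage `jj K m`. -/
noncomputable def jj (K m : ℕ) : ℕ := sInf {j | m < nn K j}

/-- The class of a word. -/
def cls (K : ℕ) (x : List Bool) : ℕ := binVal x % K

/-! ## Coins -/

/-- Names of coins: the coin κ, x, y, i says whether `y` is a key of κ, x with the option `i`. -/
abbrev Idx : Type := ℕ × List Bool × List Bool × ℕ

/-- A sample: the values of all coins. -/
abbrev Om : Type := Idx → Bool

/-- The coin which is `false` with probability `s`. -/
noncomputable def bern (s : ℝ) : Measure Bool :=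
  ENNReal.ofReal s • Measure.dirac false + ENNReal.ofReal (1 - s) • Measure.dirac true

/-- The exponent of a coin. -/
noncomputable def ex (K : ℕ) (a : Idx) : ℝ :=
  (4 : ℝ) ^ (jj K (lev a.1 a.2.1) * cls K a.2.1) / 4 ^ (jj K (lev a.1 a.2.1) * a.2.2.2) /
    2 ^ lev a.1 a.2.1

/-- The probability that a coin is `false`. -/
noncomputable def sv (K : ℕ) (a : Idx) : ℝ := (1 / 2 : ℝ) ^ ex K a

theorem sv_pos (K : ℕ) (a : Idx) : 0 < sv K a := Real.rpow_pos_of_pos (by norm_num) _

theorem ex_nonneg (K : ℕ) (a : Idx) : 0 ≤ ex K a := by unfold ex; positivity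

theorem sv_le_one (K : ℕ) (a : Idx) : sv K a ≤ 1 :=
  Real.rpow_le_one (by norm_num) (by norm_num) (ex_nonneg K a)

theorem bern_prob {s : ℝ} (h0 : 0 ≤ s) (h1 : s ≤ 1) : IsProbabilityMeasure (bern s) := by
  refine ⟨?_⟩
  unfold bern
  simp only [Measure.coe_add, Measure.coe_smul, Pi.add_apply, Pi.smul_apply, measure_univ,
    smul_eq_mul, mul_one]
  rw [← ENNReal.ofReal_add h0 (by linarith)]
  simp

/-- The measure of a coin. -/
noncomputable def cm (K : ℕ) (a : Idx) : Measure Bool := bern (sv K a)

instance (K : ℕ) (a : Idx) : IsProbabilityMeasure (cm K a) :=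
  bern_prob (sv_pos K a).le (sv_le_one K a)

/-- Independent coins. -/
noncomputable def coin (K : ℕ) : Measure Om := Measure.infinitePi (cm K)

instance (K : ℕ) : IsProbabilityMeasure (coin K) := by unfold coin; infer_instance

/-- The coins older than stage `j`. -/
def Old (K j : ℕ) : Set Idx :=
  {a | lev a.1 a.2.1 < nn K j ∧ a.2.2.1.length = lev a.1 a.2.1 ∧ a.2.2.2 < K}

/-- `F` depends only on the coins in `s`. -/
def Dep {α : Type} (s : Set Idx) (F : Om → α) : Prop :=
  ∀ ω ω' : Om, (∀ a ∈ s, ω a = ω' a) → F ω = F ω'

open Classical in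
/-- The sample with the coins in `p` from `τ` and the others from `ω`. -/
noncomputable def mixP (p : Set Idx) (τ ω : Om) : Om := fun a => if a ∈ p then τ a else ω a

/-- The world of the sample `ω` with the options `o`. -/
noncomputable def zz (K : ℕ) (o : ℕ → ℕ) (ω : Om) : Z := fun κ x y =>
  ω (κ, x, y, o (jj K (lev κ x)))

/-! ## The supergales -/

/-- The probability given to the bit `b` at stage `j` when the hint is `h`. -/
noncomputable def qf (j : ℕ) (h : Option Bool) (b : Bool) : ℝ :=
  match h with
  | none => 1 / 2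
  | some c => if b = c then 1 - (1 / 2) ^ (j + 1) else (1 / 2) ^ (j + 1)

/-- The hints that are used. -/
noncomputable def hv (K : ℕ) (η : ℕ → ℕ → Option Bool) (j t : ℕ) : Option Bool :=
  if 2 ^ nn K j ≤ t ∧ t < 2 ^ (nn K j + j) then η j t else none

/-- The probability given to `w` at stage `j`. -/
noncomputable def Pw (K : ℕ) (η : ℕ → ℕ → Option Bool) (j : ℕ) (w : List Bool) : ℝ :=
  ∏ t ∈ Finset.range w.length, qf j (hv K η j t) (w.getD t false)

/-- The probability given to `w`. -/
noncomputable def PP (K : ℕ) (η : ℕ → ℕ → Option Bool) (w : List Bool) : ℝ :=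
  ∑ j ∈ Finset.range w.length, (1 / 2 : ℝ) ^ (j + 1) * Pw K η j w +
    (1 / 2 : ℝ) ^ w.length * (1 / 2 : ℝ) ^ w.length

/-- The parameter of the supergale number `k`. -/
noncomputable def sK (K k : ℕ) : ℝ := 1 / K + 1 / (k + 1)

/-- The supergale number `k`. -/
noncomputable def dd (K : ℕ) (η : ℕ → ℕ → Option Bool) (k : ℕ) (w : List Bool) : ℝ :=
  (1 / 2 : ℝ) ^ k * (2 : ℝ) ^ (sK K k * w.length) * PP K η w

/-- The numerator of the approximation. -/
noncomputable def num (K : ℕ) (η : ℕ → ℕ → Option Bool) (k r : ℕ) (w : List Bool) : ℕ :=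
  ⌊(2 : ℝ) ^ (r + 1) * dd K η k w⌋₊

open Classical in
/-- The bits of the numerators of the approximations. -/
noncomputable def bitsOf (K : ℕ) (η : ℕ → ℕ → Option Bool) : Lang := fun u => decide (
  (∃ j k r w, u = hq false false j k r w ∧ j < Nat.size (num K η k r w)) ∨
  (∃ j k r w, u = hq false true j k r w ∧ Nat.testBit (num K η k r w) j = true) ∨
  (∃ j k r w, u = hq true false j k r w ∧ j < r + 1))

/-! ## Options and hints -/

/-- Options and hints. -/
abbrev Hist : Type := (ℕ → ℕ) × (ℕ → ℕ → Option Bool)

/-- The oracle of a history. -/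
noncomputable def oh (K : ℕ) (h : Hist) (ω : Om) : Lang := orc (bitsOf K h.2) (zz K h.1 ω)

/-- The history with the option `i` for the coins that are new at stage `j`. -/
def seto (h : Hist) (j i : ℕ) : Hist := (Function.update h.1 (j + 1) i, h.2)

/-- The machine of stage `j` accepts the word number `t`. -/
def ans (K j : ℕ) (h : Hist) (ω : Om) (t : ℕ) : Prop := acc (oh K h ω) (mc j) (str t)

/-- The probability that the word number `t` is accepted with the option `i`, given the coins
older than stage `j`. -/
noncomputable def pa (K j : ℕ) (h : Hist) (ω : Om) (t i : ℕ) : ℝ :=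
  (coin K).real {τ | ans K j (seto h j i) (mixP (Old K j) ω τ) t}

/-- The tolerance of stage `j`. -/
noncomputable def dl (j : ℕ) : ℝ := (1 / 2) ^ j

open Classical in
/-- The number of undecided words of stage `j` with the option `i`. -/
noncomputable def unc (K j : ℕ) (h : Hist) (ω : Om) (i : ℕ) : ℕ :=
  ((Finset.Ico (2 ^ nn K j) (2 ^ (nn K j + j))).filter fun t =>
    dl j < pa K j h ω t i ∧ pa K j h ω t i < 1 - dl j).card

open Classical in
/-- The best option for stage `j`. -/
noncomputable def best (K j : ℕ) (h : Hist) (ω : Om) : ℕ :=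
  if hx : ∃ i < K, K * unc K j h ω i ≤ 2 ^ (nn K j + j) then hx.choose else 0

open Classical in
/-- The hint of stage `j` for the word number `t` with the option `i`. -/
noncomputable def hint (K j : ℕ) (h : Hist) (ω : Om) (i t : ℕ) : Option Bool :=
  if pa K j h ω t i ≤ dl j then some false
  else if 1 - dl j ≤ pa K j h ω t i then some true
  else none

/-- The history after the stages before `j`. -/
noncomputable def hs (K : ℕ) (ω : Om) : ℕ → Hist
  | 0 => (fun _ => 0, fun _ _ => none)
  | j + 1 => (Function.update (hs K ω j).1 (j + 1) (best K j (hs K ω j) ω),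
      Function.update (hs K ω j).2 j (hint K j (hs K ω j) ω (best K j (hs K ω j) ω)))

/-- The options and the hints. -/
noncomputable def hf (K : ℕ) (ω : Om) : Hist :=
  (fun j => (hs K ω j).1 j, fun j => (hs K ω (j + 1)).2 j)

/-- The world. -/
noncomputable def zo (K : ℕ) (ω : Om) : Z := zz K (hf K ω).1 ω

/-- The oracle. -/
noncomputable def oo (K : ℕ) (ω : Om) : Lang := oh K (hf K ω) ω

/-! ## Hiding -/

/-- The stage at which the coins of the pair κ, x become old. -/
noncomputable def bl (K κ : ℕ) (x : List Bool) : ℕ := jj K (lev κ x)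

/-- The pairs visible to a gambler who bets on the word number `t` of `Rl z κ`. -/
def SS (K κ t : ℕ) : ℕ → List Bool → Prop := fun κ' x =>
  lev κ' x < nn K (bl K κ (str t)) ∧ ¬ (κ' = κ ∧ ∃ t', t ≤ t' ∧ x = str t')

/-- The oracle in which only these pairs are visible, and only the hints that can be read. -/
noncomputable def ov (K κ t : ℕ) (ω : Om) : Lang :=
  orcV (SS K κ t) (bitsOf K (hs K ω (bl K κ (str t))).2) (zz K (hs K ω (bl K κ (str t))).1 ω)

/-- The bit of the word number `t` is fair. -/
def Fr (K κ t : ℕ) : Set Om :=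
  {ω | (hs K ω (bl K κ (str t))).1 (bl K κ (str t)) = cls K (str t)}

end Pool.Agent.RelS
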