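import Pool.Agent.RelS.STG

/-!
# The number of wrong hints
-/

set_option autoImplicit false

namespace Pool.Agent.RelS

open MeasureTheory Set
open scoped ENNReal
open Pool.Agent.RelM (Lang Instr Cfg run Halts pair triple str pre hq wq sq0 sq1 Asks code qb)
open Pool.Agent.RelO (lev st)

/-- The option of stage `j`. -/
noncomputable def bo (K j : ℕ) (ω : Om) : ℕ := best K j (hs K ω j) ω

/-- The history of stage `j`. -/
noncomputable def hb (K j : ℕ) (ω : Om) : Hist := seto (hs K ω j) j (bo K j ω)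

theorem hb_lt {K : ℕ} (hK : 1 ≤ K) (j : ℕ) (ω : Om) (i : ℕ) : (hb K j ω).1 i < K := by
  show Function.update (hs K ω j).1 (j + 1) (bo K j ω) i < K
  by_cases h : i = j + 1
  · subst h
    rw [Function.update_self]
    exact best_lt hK _ _
  · rw [Function.update_of_ne h]
    exact opt K ω j i hK

/-- The answers do not change after stage `j`. -/
theorem truth_iff (K j : ℕ) (ω : Om) {t : ℕ} (ht : t < 2 ^ (nn K j + j)) :
    acc (oo K ω) (mc j) (str t) ↔ ans K j (hb K j ω) ω t := by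
  unfold ans oo oh orc
  refine acc_congr fun q hq => ?_
  refine oloc _ _ _ _ _ (qb (mc j) (str t).length) ?_ ?_ q hq
  · intro κ x y h1 h2
    have h3 := (qb_small K j ht).1
    have h4 : jj K (lev κ x) ≤ j + 1 := jj_le (by omega)
    unfold zz
    rw [← (hsval K ω (j + 1)).1 _ h4, hs_succ]
    rfl
  · intro u hu
    refine bloc K _ _ u fun j' hj' => ?_
    have h3 := qb_small' K j ht
    have h4 : j' < j := by
      by_contra h5
      have h6 : 2 ^ nn K j ≤ 2 ^ nn K j' :=
        Nat.pow_le_pow_right (by norm_num) ((nnmono K).monotone (by omega))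
      omega
    exact ((hsval K ω j).2 j' h4).symm

/-- The answers of stage `j` depend only on the coins that are old at the next stage. -/
theorem ans_dep {K j : ℕ} {h : Hist} (hK : ∀ j, h.1 j < K) {ω ω' : Om} {t : ℕ}
    (ht : t < 2 ^ (nn K j + j)) (hw : ∀ a ∈ Old K (j + 1), ω a = ω' a) :
    ans K j h ω t ↔ ans K j h ω' t := by
  unfold ans oh orc
  refine acc_congr fun q hq => ?_
  refine oloc _ _ _ _ _ (qb (mc j) (str t).length) ?_ (fun u _ => rfl) q hq
  intro κ x y h1 h2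
  have h3 := (qb_small K j ht).1
  exact hw _ ⟨by show lev κ x < _; omega, h2, hK _⟩

theorem hs_congr {K j : ℕ} {ω ω' : Om} (h : ∀ a ∈ Old K j, ω a = ω' a) :
    hs K ω j = hs K ω' j := by
  cases j with
  | zero => rfl
  | succ j => exact hsdep K j ω ω' fun a ha => h a (old_mono K (Nat.le_succ j) ha)

theorem hb_congr {K j : ℕ} {ω ω' : Om} (h : ∀ a ∈ Old K j, ω a = ω' a) :
    hb K j ω = hb K j ω' := by
  unfold hb bo
  rw [hs_congr h, best_congr h]

theorem hf2_congr {K j : ℕ} {ω ω' : Om} (h : ∀ a ∈ Old K j, ω a = ω' a) :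
    (hf K ω).2 j = (hf K ω').2 j := by
  show (hs K ω (j + 1)).2 j = (hs K ω' (j + 1)).2 j
  rw [hsdep K j ω ω' h]

theorem hf2_eq (K j : ℕ) (ω : Om) : (hf K ω).2 j = hint K j (hs K ω j) ω (bo K j ω) := by
  show (hs K ω (j + 1)).2 j = _
  rw [hs_succ]
  exact Function.update_self _ _ _

open Classical in
/-- The hint for the word number `t` is wrong. -/
def Wrong (K j t : ℕ) (ω : Om) : Prop :=
  (hf K ω).2 j t = some (!decide (acc (oo K ω) (mc j) (str t)))

theorem wrong_dep {K j : ℕ} (hK : 1 ≤ K) {ω ω' : Om} {t : ℕ} (ht : t < 2 ^ (nn K j + j))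
    (hw : ∀ a ∈ Old K (j + 1), ω a = ω' a) : Wrong K j t ω ↔ Wrong K j t ω' := by
  have h0 : ∀ a ∈ Old K j, ω a = ω' a := fun a ha => hw a (old_mono K (Nat.le_succ j) ha)
  unfold Wrong
  have h1 : acc (oo K ω) (mc j) (str t) ↔ acc (oo K ω') (mc j) (str t) := by
    rw [truth_iff K j ω ht, truth_iff K j ω' ht, hb_congr h0]
    exact ans_dep (hb_lt hK j ω') ht hw
  rw [hf2_congr h0, decide_eq_decide.2 h1]

open Classical in
/-- The number of wrong hints of stage `j`. -/
noncomputable def err (K j : ℕ) (ω : Om) : ℕ :=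
  ((Finset.Ico (2 ^ nn K j) (2 ^ (nn K j + j))).filter fun t => Wrong K j t ω).card

/-- Stage `j` fails. -/
def fail (K j : ℕ) : Set Om := {ω | 2 * 2 ^ nn K j ≤ err K j ω}

theorem fail_dep {K : ℕ} (hK : 1 ≤ K) (j : ℕ) {ω ω' : Om} (hw : ∀ a ∈ Old K (j + 1), ω a = ω' a) :
    ω ∈ fail K j ↔ ω' ∈ fail K j := by
  have h1 : err K j ω = err K j ω' := by
    classical
    unfold err
    congr 1
    refine Finset.filter_congr fun t ht => ?_
    exact wrong_dep hK (Finset.mem_Ico.1 ht).2 hw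
  show 2 * 2 ^ nn K j ≤ err K j ω ↔ 2 * 2 ^ nn K j ≤ err K j ω'
  rw [h1]

theorem fail_meas {K : ℕ} (hK : 1 ≤ K) (j : ℕ) : MeasurableSet (fail K j) :=
  fd (oldfin K (j + 1)) fun _ _ h => fail_dep hK j h

theorem wrong_meas {K : ℕ} (hK : 1 ≤ K) (j : ℕ) {t : ℕ} (ht : t < 2 ^ (nn K j + j)) :
    MeasurableSet {ω | Wrong K j t ω} :=
  fd (oldfin K (j + 1)) fun _ _ h => wrong_dep hK ht h

/-- A hint is wrong with small probability, given the old coins. -/
theorem wrong_prob {K : ℕ} (hK : 1 ≤ K) (j : ℕ) {t : ℕ} (ht : t < 2 ^ (nn K j + j)) (ω : Om) :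
    coin K {τ | Wrong K j t (mixP (Old K j) ω τ)} ≤ ENNReal.ofReal (dl j) := by
  classical
  have h0 : ∀ τ, ∀ a ∈ Old K j, mixP (Old K j) ω τ a = ω a := fun τ a ha => mixP_pos ha
  have h1 : ∀ τ, Wrong K j t (mixP (Old K j) ω τ) ↔
      (hf K ω).2 j t = some (!decide (ans K j (hb K j ω) (mixP (Old K j) ω τ) t)) := by
    intro τ
    unfold Wrong
    rw [hf2_congr (h0 τ)]
    have h2 : acc (oo K (mixP (Old K j) ω τ)) (mc j) (str t) ↔
        ans K j (hb K j ω) (mixP (Old K j) ω τ) t := by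
      rw [truth_iff K j _ ht, hb_congr (h0 τ)]
    simp only [h2]
  simp only [h1]
  have hpa : pa K j (hs K ω j) ω t (bo K j ω) =
      (coin K).real {τ | ans K j (hb K j ω) (mixP (Old K j) ω τ) t} := rfl
  have hm : MeasurableSet {τ | ans K j (hb K j ω) (mixP (Old K j) ω τ) t} := by
    refine fd (oldfin K (j + 1)) fun τ τ' h => ?_
    refine ans_dep (hb_lt hK j ω) ht fun a ha => ?_
    by_cases h3 : a ∈ Old K j
    · rw [mixP_pos h3, mixP_pos h3]
    · rw [mixP_neg h3, mixP_neg h3]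
      exact h a ha
  rw [hf2_eq]
  unfold hint
  split_ifs with h2 h3
  · have h4 : {τ | some false = some (!decide (ans K j (hb K j ω) (mixP (Old K j) ω τ) t))} =
        {τ | ans K j (hb K j ω) (mixP (Old K j) ω τ) t} := by
      ext τ
      by_cases h5 : ans K j (hb K j ω) (mixP (Old K j) ω τ) t <;> simp [h5]
    rw [h4]
    rw [hpa] at h2
    exact (ENNReal.le_ofReal_iff_toReal_le (measure_ne_top _ _) (measureReal_nonneg.trans h2)).2 h2
  · have h4 : {τ | some true = some (!decide (ans K j (hb K j ω) (mixP (Old K j) ω τ) t))} =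
        {τ | ans K j (hb K j ω) (mixP (Old K j) ω τ) t}ᶜ := by
      ext τ
      by_cases h5 : ans K j (hb K j ω) (mixP (Old K j) ω τ) t <;> simp [h5]
    rw [h4]
    rw [hpa] at h3
    have h5 : (coin K).real {τ | ans K j (hb K j ω) (mixP (Old K j) ω τ) t}ᶜ ≤ dl j := by
      rw [probReal_compl_eq_one_sub hm]
      linarith
    exact (ENNReal.le_ofReal_iff_toReal_le (measure_ne_top _ _) (measureReal_nonneg.trans h5)).2 h5
  · simp

/-- Stage `j` fails with probability at most `1 / 2`, given the old coins. -/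
theorem fail_prob {K : ℕ} (hK : 1 ≤ K) (j : ℕ) (ω : Om) :
    coin K {τ | mixP (Old K j) ω τ ∈ fail K j} ≤ 2⁻¹ := by
  classical
  obtain ⟨I, hI⟩ : ∃ I, I = Finset.Ico (2 ^ nn K j) (2 ^ (nn K j + j)) := ⟨_, rfl⟩
  have hIm : ∀ t ∈ I, t < 2 ^ (nn K j + j) := by
    intro t ht
    rw [hI] at ht
    exact (Finset.mem_Ico.1 ht).2
  have hcard : I.card ≤ 2 ^ (nn K j + j) := by
    rw [hI, Nat.card_Ico]
    exact Nat.sub_le _ _
  have hmm : Measurable fun τ => mixP (Old K j) ω τ :=
    (mixP_meas (Old K j)).comp (measurable_const.prodMk measurable_id)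
  have hms : ∀ t ∈ I, MeasurableSet {τ | Wrong K j t (mixP (Old K j) ω τ)} := fun t ht =>
    hmm (wrong_meas hK j (hIm t ht))
  have h1 : ∀ τ, ((err K j (mixP (Old K j) ω τ) : ℕ) : ℝ≥0∞) =
      ∑ t ∈ I, ({τ | Wrong K j t (mixP (Old K j) ω τ)} : Set Om).indicator 1 τ := by
    intro τ
    unfold err
    rw [← hI, Finset.card_filter, Nat.cast_sum]
    refine Finset.sum_congr rfl fun t _ => ?_
    by_cases h : Wrong K j t (mixP (Old K j) ω τ) <;> simp [Set.indicator, h]
  have h2 : ∫⁻ τ, ((err K j (mixP (Old K j) ω τ) : ℕ) : ℝ≥0∞) ∂(coin K) ≤ 2 ^ nn K j := by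
    simp only [h1]
    rw [lintegral_finsetSum _ fun t ht => measurable_one.indicator (hms t ht)]
    calc ∑ t ∈ I, ∫⁻ τ, ({τ | Wrong K j t (mixP (Old K j) ω τ)} : Set Om).indicator 1 τ ∂(coin K)
        ≤ ∑ _t ∈ I, ENNReal.ofReal (dl j) := by
          refine Finset.sum_le_sum fun t ht => ?_
          rw [lintegral_indicator_one (hms t ht)]
          exact wrong_prob hK j (hIm t ht) ω
      _ = ENNReal.ofReal (I.card * dl j) := by
          rw [Finset.sum_const, nsmul_eq_mul, ENNReal.ofReal_mul (by positivity)]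
          simp
      _ ≤ ENNReal.ofReal (2 ^ nn K j) := by
          apply ENNReal.ofReal_le_ofReal
          unfold dl
          calc (I.card : ℝ) * (1 / 2) ^ j ≤ 2 ^ (nn K j + j) * (1 / 2) ^ j := by
                gcongr
                exact_mod_cast hcard
            _ = 2 ^ nn K j * (2 ^ j * (1 / 2) ^ j) := by rw [pow_add]; ring
            _ = 2 ^ nn K j := by rw [← mul_pow]; norm_num
      _ = 2 ^ nn K j := by
          rw [ENNReal.ofReal_pow (by norm_num), ENNReal.ofReal_ofNat]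
  have h3 : {τ | mixP (Old K j) ω τ ∈ fail K j} =
      {τ | (2 : ℝ≥0∞) * 2 ^ nn K j ≤ ((err K j (mixP (Old K j) ω τ) : ℕ) : ℝ≥0∞)} := by
    ext τ
    show 2 * 2 ^ nn K j ≤ err K j (mixP (Old K j) ω τ) ↔ _
    rw [Set.mem_ofPred_eq]
    constructor
    · intro h
      exact_mod_cast h
    · intro h
      exact_mod_cast h
  have h4 : Measurable fun τ => ((err K j (mixP (Old K j) ω τ) : ℕ) : ℝ≥0∞) := by
    simp only [h1]
    exact Finset.measurable_sum _ fun t ht => measurable_one.indicator (hms t ht)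
  have h5 := mul_meas_ge_le_lintegral h4 (μ := coin K) ((2 : ℝ≥0∞) * 2 ^ nn K j)
  rw [← h3] at h5
  have h6 := h5.trans h2
  have h7 : (2 : ℝ≥0∞) ^ nn K j ≠ 0 := by positivity
  have h8 : (2 : ℝ≥0∞) ^ nn K j ≠ ⊤ := by finiteness
  rw [← one_div]
  refine (ENNReal.le_div_iff_mul_le (Or.inl (by norm_num)) (Or.inl (by norm_num))).2 ?_
  have h9 : (2 : ℝ≥0∞) ^ nn K j * (coin K {τ | mixP (Old K j) ω τ ∈ fail K j} * 2) ≤
      2 ^ nn K j * 1 := by
    calc _ = 2 * 2 ^ nn K j * coin K {τ | mixP (Old K j) ω τ ∈ fail K j} := by ring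
      _ ≤ _ := by rw [mul_one]; exact h6
  exact (ENNReal.mul_le_mul_iff_right h7 h8).1 h9

theorem fail_half {K : ℕ} (hK : 1 ≤ K) (j : ℕ) {H : Om → ℝ≥0∞} (hH : Measurable H)
    (dH : Dep (Old K j) H) :
    ∫⁻ ω in fail K j, H ω ∂(coin K) ≤ 2⁻¹ * ∫⁻ ω, H ω ∂(coin K) := by
  rw [lint_mix K (fail_meas hK j) hH dH, ← lintegral_const_mul _ hH]
  refine lintegral_mono fun ω => ?_
  rw [mul_comm]
  gcongr
  exact fail_prob hK j ω

/-! ## Infinitely many stages succeed -/

theorem succ_ae {K : ℕ} (hK : 1 ≤ K) (e n : ℕ) :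
    ∀ᵐ ω ∂(coin K), ∃ m, n ≤ m ∧ ω ∉ fail K (Nat.pair e m) := by
  have hu : StrictMono fun m => Nat.pair e (n + m) := by
    refine strictMono_nat_of_lt_succ fun m => ?_
    exact Nat.pair_lt_pair_right e (by omega)
  obtain ⟨A, hA⟩ : ∃ A : ℕ → Set Om, ∀ m, A m = {ω | ∀ i < m, ω ∈ fail K (Nat.pair e (n + i))} :=
    ⟨_, fun _ => rfl⟩
  have hd : ∀ m, ∀ ω ω' : Om, (∀ a ∈ Old K (Nat.pair e (n + m)), ω a = ω' a) →
      (ω ∈ A m ↔ ω' ∈ A m) := by
    intro m ω ω' h
    rw [hA]
    simp only [Set.mem_ofPred_eq]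
    refine forall_congr' fun i => forall_congr' fun hi => ?_
    refine fail_dep hK _ fun a ha => h a (old_mono K ?_ ha)
    exact hu hi
  have hAm : ∀ m, MeasurableSet (A m) := fun m => fd (oldfin K _) (hd m)
  have hp : ∀ m, coin K (A m) ≤ 2⁻¹ ^ m := by
    intro m
    induction m with
    | zero => simpa using prob_le_one
    | succ m ih =>
      have h1 : A (m + 1) = A m ∩ fail K (Nat.pair e (n + m)) := by
        rw [hA, hA]
        ext ω
        simp only [Set.mem_ofPred_eq, Set.mem_inter_iff]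
        constructor
        · intro h
          exact ⟨fun i hi => h i (by omega), h m (by omega)⟩
        · rintro ⟨h2, h3⟩ i hi
          rcases Nat.lt_succ_iff_lt_or_eq.1 hi with h4 | h4
          · exact h2 i h4
          · rw [h4]; exact h3
      have h2 := fail_half hK (Nat.pair e (n + m)) (H := (A m).indicator 1)
        (measurable_one.indicator (hAm m)) (by
          intro ω ω' h
          have h3 := hd m ω ω' h
          by_cases h4 : ω ∈ A m
          · rw [indicator_of_mem h4, indicator_of_mem (h3.1 h4)]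
            rfl
          · rw [indicator_of_notMem h4, indicator_of_notMem fun h5 => h4 (h3.2 h5)])
      rw [lintegral_indicator_one (hAm m), lintegral_indicator_one (hAm m),
        Measure.restrict_apply (hAm m)] at h2
      rw [h1, pow_succ']
      exact h2.trans (by gcongr)
  rw [ae_iff]
  have h3 : {ω | ¬ ∃ m, n ≤ m ∧ ω ∉ fail K (Nat.pair e m)} ⊆ ⋂ m, A m := by
    intro ω hω
    rw [Set.mem_ofPred_eq] at hω
    push Not at hω
    rw [Set.mem_iInter]
    intro m
    rw [hA]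
    intro i _
    exact hω (n + i) (by omega)
  have h4 : ∀ m, coin K {ω | ¬ ∃ m, n ≤ m ∧ ω ∉ fail K (Nat.pair e m)} ≤ 2⁻¹ ^ m := fun m =>
    (measure_mono (h3.trans (Set.iInter_subset _ m))).trans (hp m)
  have h5 : Filter.Tendsto (fun m : ℕ => (2⁻¹ : ℝ≥0∞) ^ m) Filter.atTop (nhds 0) :=
    ENNReal.tendsto_pow_atTop_nhds_zero_of_lt_one (ENNReal.inv_lt_one.2 (by norm_num))
  exact le_antisymm (ge_of_tendsto' h5 h4) zero_le

end Pool.Agent.RelS
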