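import Mathlib

/-!
# The value of the game
-/

set_option autoImplicit false

namespace Pool.Agent.RelS

open Real Set

/-- The entropy of the event that there is no point, for the intensity `φ`. -/
noncomputable def gf (φ : ℝ) : ℝ := binEntropy (exp (-φ))

theorem gf_cont : Continuous gf := by unfold gf; fun_prop

theorem gf_nonneg {φ : ℝ} (h : 0 ≤ φ) : 0 ≤ gf φ :=
  binEntropy_nonneg (exp_pos _).le (exp_le_one_iff.2 (by linarith))

theorem gf_le (φ : ℝ) : gf φ ≤ log 2 := binEntropy_le_log_two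

theorem gf_zero : gf 0 = 0 := by simp [gf]

theorem exp_neg_log_two : exp (-log 2) = 2⁻¹ := by
  rw [exp_neg, exp_log (by norm_num)]

theorem gf_log_two : gf (log 2) = log 2 := by
  unfold gf
  rw [exp_neg_log_two]
  exact binEntropy_two_inv

theorem gf_mono {φ ψ : ℝ} (h0 : 0 ≤ φ) (h1 : φ ≤ ψ) (h2 : ψ ≤ log 2) : gf φ ≤ gf ψ := by
  unfold gf
  have e1 : exp (-φ) ≤ 1 := exp_le_one_iff.2 (by linarith)
  have e2 : 2⁻¹ ≤ exp (-ψ) := by
    rw [← exp_neg_log_two]; exact exp_le_exp.2 (by linarith)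
  have e3 : exp (-ψ) ≤ exp (-φ) := exp_le_exp.2 (by linarith)
  exact binEntropy_strictAntiOn.antitoneOn ⟨e2, e3.trans e1⟩ ⟨e2.trans e3, e1⟩ e3

theorem gf_anti {φ ψ : ℝ} (h1 : log 2 ≤ φ) (h2 : φ ≤ ψ) : gf ψ ≤ gf φ := by
  unfold gf
  have e2 : exp (-φ) ≤ 2⁻¹ := by
    rw [← exp_neg_log_two]; exact exp_le_exp.2 (by linarith)
  have e3 : exp (-ψ) ≤ exp (-φ) := exp_le_exp.2 (by linarith)
  exact binEntropy_strictMonoOn.monotoneOn ⟨(exp_pos _).le, e3.trans e2⟩ ⟨(exp_pos _).le, e2⟩ e3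

namespace GAME_

theorem small_zero {ε : ℝ} (hε : 0 < ε) : ∃ φ₀ : ℝ, 0 < φ₀ ∧ ∀ φ, 0 ≤ φ → φ ≤ φ₀ → gf φ ≤ ε := by
  have h := Metric.continuous_iff.1 gf_cont 0 ε hε
  obtain ⟨δ, hδ, h⟩ := h
  refine ⟨δ / 2, by positivity, fun φ h0 h1 => ?_⟩
  have h2 := h φ (by rw [Real.dist_eq, sub_zero, abs_of_nonneg h0]; linarith)
  rw [Real.dist_eq, gf_zero, sub_zero] at h2
  exact (le_abs_self _).trans h2.le

theorem small_top {ε : ℝ} (hε : 0 < ε) : ∃ φ₁ : ℝ, 0 < φ₁ ∧ ∀ φ, φ₁ ≤ φ → gf φ ≤ ε := by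
  have h : Filter.Tendsto gf Filter.atTop (nhds (binEntropy 0)) := by
    unfold gf
    exact (binEntropy_continuous.tendsto 0).comp
      (tendsto_exp_neg_atTop_nhds_zero)
  rw [binEntropy_zero] at h
  have h2 := (h.eventually (gt_mem_nhds hε)).and (Filter.eventually_gt_atTop 0)
  obtain ⟨φ₁, h3⟩ := h2.exists_forall_of_atTop
  exact ⟨φ₁, (h3 φ₁ le_rfl).2, fun φ hφ => (h3 φ hφ).1.le⟩

/-- The entropies for the intensity `u`. -/
noncomputable def Pt (K : ℕ) (τ u : ℝ) : Fin K → ℝ := fun i => gf (exp (i * τ) * u)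

/-- The entropies for all intensities. -/
noncomputable def Sx (K : ℕ) (τ : ℝ) : Set (Fin K → ℝ) := Pt K τ '' Icc 0 (log 2)

/-- The numbers that can be guaranteed by a mixture. -/
def Rx (K : ℕ) (τ : ℝ) : Set ℝ := {r | ∃ y ∈ convexHull ℝ (Sx K τ), ∀ i, r ≤ y i}

/-- The value. -/
noncomputable def Vx (K : ℕ) (τ : ℝ) : ℝ := sSup (Rx K τ)

theorem hull_bd {K : ℕ} {τ : ℝ} {y : Fin K → ℝ} (hy : y ∈ convexHull ℝ (Sx K τ)) (i : Fin K) :
    0 ≤ y i ∧ y i ≤ log 2 := by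
  have hc : Convex ℝ {y : Fin K → ℝ | 0 ≤ y i ∧ y i ≤ log 2} := by
    have h1 : {y : Fin K → ℝ | 0 ≤ y i ∧ y i ≤ log 2} =
        (fun y : Fin K → ℝ => y i) ⁻¹' (Icc 0 (log 2)) := rfl
    rw [h1]
    exact (convex_Icc (0 : ℝ) (log 2)).linear_preimage (LinearMap.proj i : (Fin K → ℝ) →ₗ[ℝ] ℝ)
  refine convexHull_min ?_ hc hy
  rintro _ ⟨u, hu, rfl⟩
  exact ⟨gf_nonneg (mul_nonneg (exp_pos _).le hu.1), gf_le _⟩

theorem zero_mem (K : ℕ) (τ : ℝ) : (0 : Fin K → ℝ) ∈ Sx K τ := by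
  refine ⟨0, ⟨le_rfl, (log_pos (by norm_num)).le⟩, ?_⟩
  funext i
  simp [Pt, gf_zero]

theorem R_zero (K : ℕ) (τ : ℝ) : (0 : ℝ) ∈ Rx K τ :=
  ⟨0, subset_convexHull ℝ _ (zero_mem K τ), fun _ => le_rfl⟩

theorem R_bd {K : ℕ} (hK : 1 ≤ K) {τ r : ℝ} (hr : r ∈ Rx K τ) : r ≤ log 2 := by
  obtain ⟨y, hy, h⟩ := hr
  exact (h ⟨0, hK⟩).trans (hull_bd hy _).2

theorem R_bdd {K : ℕ} (hK : 1 ≤ K) (τ : ℝ) : BddAbove (Rx K τ) := ⟨log 2, fun _ h => R_bd hK h⟩

theorem V_nonneg {K : ℕ} (hK : 1 ≤ K) (τ : ℝ) : 0 ≤ Vx K τ := le_csSup (R_bdd hK τ) (R_zero K τ)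

theorem V_zero {K : ℕ} (hK : 1 ≤ K) : Vx K 0 = log 2 := by
  refine le_antisymm (csSup_le ⟨0, R_zero K 0⟩ fun _ h => R_bd hK h) ?_
  refine le_csSup (R_bdd hK 0) ⟨Pt K 0 (log 2), subset_convexHull ℝ _ ⟨log 2,
    ⟨(log_pos (by norm_num)).le, le_rfl⟩, rfl⟩, fun i => ?_⟩
  simp [Pt, gf_log_two]

theorem R_map {K : ℕ} {τ τ' ε : ℝ}
    (h : ∀ u ∈ Icc (0 : ℝ) (log 2), ∀ i : Fin K, |Pt K τ u i - Pt K τ' u i| ≤ ε) {r : ℝ}
    (hr : r ∈ Rx K τ) : r - ε ∈ Rx K τ' := by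
  obtain ⟨y, hy, hry⟩ := hr
  have hc : Convex ℝ {y : Fin K → ℝ | ∃ y' ∈ convexHull ℝ (Sx K τ'), ∀ i, |y i - y' i| ≤ ε} := by
    rintro x ⟨x', hx', hx⟩ z ⟨z', hz', hz⟩ a b ha hb hab
    refine ⟨a • x' + b • z', (convex_convexHull ℝ _) hx' hz' ha hb hab, fun i => ?_⟩
    simp only [Pi.add_apply, Pi.smul_apply, smul_eq_mul]
    have e : a * x i + b * z i - (a * x' i + b * z' i) = a * (x i - x' i) + b * (z i - z' i) := by
      ring
    rw [e]
    calc |a * (x i - x' i) + b * (z i - z' i)| ≤ |a * (x i - x' i)| + |b * (z i - z' i)| :=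
          abs_add_le _ _
      _ = a * |x i - x' i| + b * |z i - z' i| := by
          rw [abs_mul, abs_mul, abs_of_nonneg ha, abs_of_nonneg hb]
      _ ≤ a * ε + b * ε := by gcongr; exacts [hx i, hz i]
      _ = ε := by rw [← add_mul, hab, one_mul]
  have hs : Sx K τ ⊆ {y : Fin K → ℝ | ∃ y' ∈ convexHull ℝ (Sx K τ'), ∀ i, |y i - y' i| ≤ ε} := by
    rintro _ ⟨u, hu, rfl⟩
    exact ⟨Pt K τ' u, subset_convexHull ℝ _ ⟨u, hu, rfl⟩, fun i => h u hu i⟩
  obtain ⟨y', hy', hyy⟩ := convexHull_min hs hc hy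
  refine ⟨y', hy', fun i => ?_⟩
  have h1 := (abs_le.1 (hyy i)).2
  have h2 := hry i
  linarith

theorem V_map {K : ℕ} (hK : 1 ≤ K) {τ τ' ε : ℝ}
    (h : ∀ u ∈ Icc (0 : ℝ) (log 2), ∀ i : Fin K, |Pt K τ u i - Pt K τ' u i| ≤ ε) :
    Vx K τ - ε ≤ Vx K τ' := by
  have h1 : Vx K τ ≤ Vx K τ' + ε := by
    refine csSup_le ⟨0, R_zero K τ⟩ fun r hr => ?_
    have := le_csSup (R_bdd hK τ') (R_map h hr)
    unfold Vx
    linarith
  linarith

theorem V_cont {K : ℕ} (hK : 1 ≤ K) (T : ℝ) : ContinuousOn (Vx K) (Icc 0 T) := by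
  have hc : Continuous fun z : ℝ × ℝ => Pt K z.1 z.2 := by
    refine continuous_pi fun i => ?_
    exact gf_cont.comp (by fun_prop)
  have hu := ((isCompact_Icc (a := (0 : ℝ)) (b := T)).prod
    (isCompact_Icc (a := (0 : ℝ)) (b := log 2))).uniformContinuousOn_of_continuous hc.continuousOn
  rw [Metric.uniformContinuousOn_iff] at hu
  rw [Metric.continuousOn_iff]
  intro τ hτ ε hε
  obtain ⟨δ, hδ, h⟩ := hu (ε / 2) (by positivity)
  have key : ∀ τ₁ ∈ Icc 0 T, ∀ τ₂ ∈ Icc 0 T, dist τ₁ τ₂ < δ → ∀ u ∈ Icc (0 : ℝ) (log 2),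
      ∀ i : Fin K, |Pt K τ₁ u i - Pt K τ₂ u i| ≤ ε / 2 := by
    intro τ₁ h₁ τ₂ h₂ hd u hu i
    have h3 := h (τ₁, u) ⟨h₁, hu⟩ (τ₂, u) ⟨h₂, hu⟩ (by
      rw [Prod.dist_eq]
      simp only [dist_self]
      exact max_lt hd hδ)
    have h4 := (dist_le_pi_dist (Pt K τ₁ u) (Pt K τ₂ u) i)
    rw [← Real.dist_eq]
    exact h4.trans h3.le
  refine ⟨δ, hδ, fun τ' hτ' hd => ?_⟩
  have h1 := V_map hK (key τ' hτ' τ hτ hd)
  have h2 := V_map hK (key τ hτ τ' hτ' (by rwa [dist_comm]))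
  rw [Real.dist_eq]
  rw [abs_lt]
  constructor <;> linarith

theorem sum_small {K : ℕ} {ω : ℝ} (hω : 0 < ω) : ∃ T : ℝ, 0 ≤ T ∧ ∀ u : ℝ, 0 ≤ u →
    ∑ i : Fin K, gf (exp (i * T) * u) ≤ log 2 + K * ω := by
  classical
  obtain ⟨φ₀, h0, h0'⟩ := small_zero hω
  obtain ⟨φ₁, h1, h1'⟩ := small_top hω
  refine ⟨max 0 (log (φ₁ / φ₀)), le_max_left _ _, fun u hu => ?_⟩
  set T := max 0 (log (φ₁ / φ₀)) with hT
  have hT0 : 0 ≤ T := le_max_left _ _
  have hT1 : φ₁ ≤ exp T * φ₀ := by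
    have : log (φ₁ / φ₀) ≤ T := le_max_right _ _
    have h2 : φ₁ / φ₀ ≤ exp T := by
      rw [← exp_log (show 0 < φ₁ / φ₀ by positivity)]
      exact exp_le_exp.2 this
    rwa [div_le_iff₀ h0] at h2
  have hsum : ∀ i₀ : ℕ, (∀ i : Fin K, (i : ℕ) ≠ i₀ → gf (exp (i * T) * u) ≤ ω) →
      ∑ i : Fin K, gf (exp (i * T) * u) ≤ log 2 + K * ω := by
    intro i₀ h
    calc ∑ i : Fin K, gf (exp (i * T) * u)
        ≤ ∑ i : Fin K, ((if (i : ℕ) = i₀ then log 2 else 0) + ω) := by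
          refine Finset.sum_le_sum fun i _ => ?_
          by_cases hi : (i : ℕ) = i₀
          · rw [if_pos hi]
            have := gf_le (exp (i * T) * u)
            linarith
          · rw [if_neg hi]
            have := h i hi
            linarith
      _ = (∑ i : Fin K, if (i : ℕ) = i₀ then log 2 else 0) + K * ω := by
          rw [Finset.sum_add_distrib]; simp
      _ ≤ log 2 + K * ω := by
          have hl : 0 < log 2 := log_pos (by norm_num)
          have : (∑ i : Fin K, if (i : ℕ) = i₀ then log 2 else 0) ≤ log 2 := by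
            by_cases hi : i₀ < K
            · rw [Finset.sum_eq_single (⟨i₀, hi⟩ : Fin K)]
              · simp
              · intro b _ hb
                rw [if_neg]
                intro h'
                exact hb (Fin.ext h')
              · simp
            · rw [Finset.sum_eq_zero]
              · exact hl.le
              · intro i _
                rw [if_neg]
                have := i.2
                omega
          linarith
  by_cases hex : ∃ i : ℕ, φ₀ < exp (i * T) * u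
  · refine hsum (Nat.find hex) fun i hi => ?_
    have hs := Nat.find_spec hex
    rcases lt_or_gt_of_ne hi with h | h
    · have := Nat.find_min hex h
      push Not at this
      exact h0' _ (by positivity) this
    · refine h1' _ ?_
      have e1 : ((Nat.find hex : ℕ) : ℝ) + 1 ≤ (i : ℕ) := by exact_mod_cast h
      calc φ₁ ≤ exp T * φ₀ := hT1
        _ ≤ exp T * (exp ((Nat.find hex : ℕ) * T) * u) := by gcongr
        _ = exp (((Nat.find hex : ℕ) + 1) * T) * u := by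
            rw [← mul_assoc, ← exp_add]
            congr 2
            ring
        _ ≤ exp ((i : ℕ) * T) * u := by gcongr
  · push Not at hex
    refine hsum 0 fun i _ => h0' _ (by positivity) (hex i)

theorem V_small {K : ℕ} (hK : 1 ≤ K) {a : ℝ} (ha : 1 / K < a) :
    ∃ T, 0 ≤ T ∧ Vx K T ≤ a * log 2 := by
  have hl : 0 < log 2 := log_pos (by norm_num)
  have hK' : (0 : ℝ) < K := by exact_mod_cast hK
  obtain ⟨T, hT, h⟩ := sum_small (K := K) (ω := (a - 1 / K) * log 2)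
    (mul_pos (by linarith) hl)
  refine ⟨T, hT, csSup_le ⟨0, R_zero K T⟩ ?_⟩
  rintro r ⟨y, hy, hr⟩
  have hc : Convex ℝ {y : Fin K → ℝ | ∑ i, y i ≤ log 2 + K * ((a - 1 / K) * log 2)} := by
    rintro x hx z hz a' b' ha' hb' hab
    simp only [Set.mem_ofPred_eq, Pi.add_apply, Pi.smul_apply, smul_eq_mul,
      Finset.sum_add_distrib, ← Finset.mul_sum] at hx hz ⊢
    calc a' * ∑ i, x i + b' * ∑ i, z i ≤ a' * (log 2 + K * ((a - 1 / K) * log 2)) +
          b' * (log 2 + K * ((a - 1 / K) * log 2)) := by gcongr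
      _ = log 2 + K * ((a - 1 / K) * log 2) := by rw [← add_mul, hab, one_mul]
  have hs : Sx K T ⊆ {y : Fin K → ℝ | ∑ i, y i ≤ log 2 + K * ((a - 1 / K) * log 2)} := by
    rintro _ ⟨u, hu, rfl⟩
    exact h u hu.1
  have h1 := convexHull_min hs hc hy
  simp only [Set.mem_ofPred_eq] at h1
  have h2 : (K : ℝ) * r ≤ ∑ i, y i := by
    calc (K : ℝ) * r = ∑ _i : Fin K, r := by simp
      _ ≤ _ := Finset.sum_le_sum fun i _ => hr i
  have h3 : (K : ℝ) * r ≤ K * (a * log 2) := by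
    have : log 2 + K * ((a - 1 / K) * log 2) = K * (a * log 2) := by field_simp; ring
    linarith
  exact le_of_mul_le_mul_left h3 hK'

theorem exists_tau {a : ℝ} (h0 : 0 < a) (h1 : a ≤ 1) : ∃ (K : ℕ) (τ : ℝ), 1 ≤ K ∧ 0 ≤ τ ∧
    Vx K τ = a * log 2 := by
  have hl : 0 < log 2 := log_pos (by norm_num)
  obtain ⟨n, hn⟩ := exists_nat_one_div_lt h0
  have hK : 1 ≤ n + 1 := by omega
  obtain ⟨T, hT, hV⟩ := V_small hK (a := a) (by push_cast; exact hn)
  have h2 := intermediate_value_Icc' hT (V_cont hK T)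
  have h3 : a * log 2 ∈ Icc (Vx (n + 1) T) (Vx (n + 1) 0) := by
    refine ⟨hV, ?_⟩
    rw [V_zero hK]
    nlinarith
  obtain ⟨τ, hτ, h4⟩ := h2 h3
  exact ⟨n + 1, τ, hK, hτ.1, h4⟩

theorem dual {K : ℕ} (hK : 1 ≤ K) (τ : ℝ) : ∃ pv : Fin K → ℝ, (∀ i, 0 ≤ pv i) ∧ ∑ i, pv i = 1 ∧
    ∀ u ∈ Icc (0 : ℝ) (log 2), ∑ i, pv i * Pt K τ u i ≤ Vx K τ := by
  classical
  have hQo : IsOpen {y : Fin K → ℝ | ∀ i, Vx K τ < y i} := by
    have : {y : Fin K → ℝ | ∀ i, Vx K τ < y i} = Set.pi univ fun _ => Ioi (Vx K τ) := by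
      ext y; simp
    rw [this]
    exact isOpen_set_pi finite_univ fun _ _ => isOpen_Ioi
  have hQc : Convex ℝ {y : Fin K → ℝ | ∀ i, Vx K τ < y i} := by
    have : {y : Fin K → ℝ | ∀ i, Vx K τ < y i} = Set.pi univ fun _ => Ioi (Vx K τ) := by
      ext y; simp
    rw [this]
    exact convex_pi fun _ _ => convex_Ioi _
  have hd : Disjoint {y : Fin K → ℝ | ∀ i, Vx K τ < y i} (convexHull ℝ (Sx K τ)) := by
    rw [Set.disjoint_left]
    intro y hy hy'
    have : Nonempty (Fin K) := ⟨⟨0, hK⟩⟩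
    obtain ⟨i₀, h0⟩ := Finite.exists_min y
    have h1 : y i₀ ∈ Rx K τ := ⟨y, hy', h0⟩
    have h2 := le_csSup (R_bdd hK τ) h1
    have h3 := hy i₀
    unfold Vx at h3
    linarith
  obtain ⟨f, u, hf1, hf2⟩ := geometric_hahn_banach_open hQc hQo (convex_convexHull ℝ _) hd
  have hfe : ∀ y : Fin K → ℝ, f y = ∑ i, y i * f (Pi.single i 1) := by
    intro y
    have h1 : y = ∑ i, y i • (Pi.single i 1 : Fin K → ℝ) := by
      funext j
      simp [Finset.sum_apply, Pi.single_apply]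
    conv_lhs => rw [h1]
    simp [map_sum]
  have hc0 : ∀ i, f (Pi.single i 1) ≤ 0 := by
    intro i
    by_contra hpos
    push Not at hpos
    have hq : ∀ t : ℝ, 0 ≤ t → f (fun _ => Vx K τ + 1) + t * f (Pi.single i 1) < u := by
      intro t ht
      have h1 := hf1 ((fun _ => Vx K τ + 1) + t • (Pi.single i 1 : Fin K → ℝ)) (by
        intro j
        simp only [Pi.add_apply, Pi.smul_apply, smul_eq_mul, Pi.single_apply]
        split_ifs <;> nlinarith)
      rwa [map_add, map_smul, smul_eq_mul] at h1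
    have h0 := hq 0 le_rfl
    have h1 := hq ((u - f (fun _ => Vx K τ + 1)) / f (Pi.single i 1))
      (div_nonneg (by linarith) hpos.le)
    rw [div_mul_cancel₀ _ hpos.ne'] at h1
    linarith
  have hs : 0 < ∑ i, -f (Pi.single i 1) := by
    rcases (Finset.sum_nonneg fun i (_ : i ∈ Finset.univ) =>
      neg_nonneg.2 (hc0 i)).eq_or_lt with h | h
    · exfalso
      have h1 : ∀ i, f (Pi.single i 1) = 0 := by
        intro i
        have := (Finset.sum_eq_zero_iff_of_nonneg fun i _ => neg_nonneg.2 (hc0 i)).1 h.symm i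
          (Finset.mem_univ _)
        linarith
      have h2 : ∀ y, f y = 0 := fun y => by rw [hfe y]; simp [h1]
      have h3 := hf1 (fun _ => Vx K τ + 1) fun i => by linarith
      have h4 := hf2 0 (subset_convexHull ℝ _ (zero_mem K τ))
      rw [h2] at h3 h4
      linarith
    · exact h
  refine ⟨fun i => -f (Pi.single i 1) / ∑ i, -f (Pi.single i 1), fun i =>
    div_nonneg (neg_nonneg.2 (hc0 i)) hs.le, ?_, fun w hw => ?_⟩
  · rw [← Finset.sum_div, div_self hs.ne']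
  · have h1 : u ≤ f (Pt K τ w) := hf2 _ (subset_convexHull ℝ _ ⟨w, hw, rfl⟩)
    have h2 : ∀ η : ℝ, 0 < η → ∑ i, -f (Pi.single i 1) * Pt K τ w i ≤
        (Vx K τ + η) * ∑ i, -f (Pi.single i 1) := by
      intro η hη
      have h3 := hf1 (fun _ => Vx K τ + η) fun i => by linarith
      rw [hfe] at h3
      rw [hfe] at h1
      have e1 : ∑ i, -f (Pi.single i 1) * Pt K τ w i =
          -∑ i, Pt K τ w i * f (Pi.single i 1) := by
        rw [← Finset.sum_neg_distrib]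
        exact Finset.sum_congr rfl fun i _ => by ring
      have e2 : (Vx K τ + η) * ∑ i, -f (Pi.single i 1) =
          -∑ i : Fin K, (Vx K τ + η) * f (Pi.single i 1) := by
        rw [Finset.mul_sum, ← Finset.sum_neg_distrib]
        exact Finset.sum_congr rfl fun i _ => by ring
      rw [e1, e2]
      linarith
    have h3 : ∑ i, -f (Pi.single i 1) * Pt K τ w i ≤ Vx K τ * ∑ i, -f (Pi.single i 1) := by
      refine le_of_forall_pos_le_add fun ε hε => ?_
      have h4 := h2 (ε / ∑ i, -f (Pi.single i 1)) (by positivity)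
      rw [add_mul, div_mul_cancel₀ _ hs.ne'] at h4
      exact h4
    have e3 : ∑ i, -f (Pi.single i 1) / (∑ i, -f (Pi.single i 1)) * Pt K τ w i =
        (∑ i, -f (Pi.single i 1) * Pt K τ w i) / ∑ i, -f (Pi.single i 1) := by
      rw [Finset.sum_div]
      exact Finset.sum_congr rfl fun i _ => by ring
    rw [e3, div_le_iff₀ hs]
    exact h3

theorem rat {K : ℕ} {τ r : ℝ} (hr : r ∈ Rx K τ) {ε : ℝ} (hε : 0 < ε) :
    ∃ (D : ℕ) (m : ℕ → ℝ), 1 ≤ D ∧ (∀ c, 0 ≤ m c ∧ m c ≤ log 2) ∧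
      ∀ i : Fin K, (r - ε) * D ≤ ∑ c ∈ Finset.range D, gf (exp (i * τ) * m c) := by
  classical
  have hl : 0 < log 2 := log_pos (by norm_num)
  obtain ⟨y, hy, hry⟩ := hr
  rw [mem_convexHull_iff_exists_fintype] at hy
  obtain ⟨ι, hι, w, z, hw0, hw1, hz, hyz⟩ := hy
  choose u hu huz using hz
  obtain ⟨D, hD⟩ := exists_nat_ge (Fintype.card ι * log 2 / ε + 1)
  have hD1 : (1 : ℝ) ≤ D := by
    have : 0 ≤ Fintype.card ι * log 2 / ε := by positivity
    linarith
  have hD2 : (Fintype.card ι : ℝ) * log 2 ≤ ε * D := by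
    have : Fintype.card ι * log 2 / ε ≤ D := by linarith
    rw [div_le_iff₀ hε] at this
    linarith
  let n : ι → ℕ := fun c => ⌊w c * D⌋₊
  have hn1 : ∀ c, (n c : ℝ) ≤ w c * D := fun c => Nat.floor_le (mul_nonneg (hw0 c) (by positivity))
  have hn2 : ∀ c, w c * D - 1 ≤ n c := fun c => by
    have := Nat.lt_floor_add_one (w c * D)
    simp only [n]
    linarith
  have hN : Fintype.card (Σ c, Fin (n c)) ≤ D := by
    rw [Fintype.card_sigma]
    simp only [Fintype.card_fin]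
    have : ((∑ c, n c : ℕ) : ℝ) ≤ D := by
      push_cast
      calc ∑ c, (n c : ℝ) ≤ ∑ c, w c * D := Finset.sum_le_sum fun c _ => hn1 c
        _ = D := by rw [← Finset.sum_mul, hw1, one_mul]
    exact_mod_cast this
  let e := Fintype.equivFin (Σ c, Fin (n c))
  set N := Fintype.card (Σ c, Fin (n c)) with hNdef
  let m : ℕ → ℝ := fun t => if h : t < N then u (e.symm ⟨t, h⟩).1 else 0
  refine ⟨D, m, by exact_mod_cast hD1, fun c => ?_, fun i => ?_⟩
  · simp only [m]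
    split_ifs with h
    · exact hu _
    · exact ⟨le_rfl, hl.le⟩
  · have h1 : ∑ c ∈ Finset.range N, gf (exp (i * τ) * m c) =
        ∑ p : Σ c, Fin (n c), gf (exp (i * τ) * u p.1) := by
      rw [Finset.sum_range, ← Equiv.sum_comp e]
      refine Finset.sum_congr rfl fun p _ => ?_
      have : m (e p : Fin N) = u p.1 := by
        simp only [m]
        rw [dif_pos (e p).2]
        simp
      rw [this]
    have h2 : ∑ p : Σ c, Fin (n c), gf (exp (i * τ) * u p.1) =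
        ∑ c, (n c : ℝ) * gf (exp (i * τ) * u c) := by
      rw [Fintype.sum_sigma]
      refine Finset.sum_congr rfl fun c _ => ?_
      simp
    have hg0 : ∀ c, 0 ≤ gf (exp (i * τ) * u c) := fun c =>
      gf_nonneg (mul_nonneg (exp_pos _).le (hu c).1)
    have h3 : y i = ∑ c, w c * gf (exp (i * τ) * u c) := by
      rw [← hyz, Finset.sum_apply]
      refine Finset.sum_congr rfl fun c _ => ?_
      rw [← huz c]
      rfl
    calc (r - ε) * D = r * D - ε * D := by ring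
      _ ≤ y i * D - Fintype.card ι * log 2 := by
          have := mul_le_mul_of_nonneg_right (hry i) (show (0 : ℝ) ≤ D by positivity)
          linarith
      _ = ∑ c, (w c * D * gf (exp (i * τ) * u c) - log 2) := by
          rw [Finset.sum_sub_distrib, h3, Finset.sum_mul]
          simp only [Finset.sum_const, Finset.card_univ, nsmul_eq_mul]
          congr 1
          exact Finset.sum_congr rfl fun c _ => by ring
      _ ≤ ∑ c, (n c : ℝ) * gf (exp (i * τ) * u c) := by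
          refine Finset.sum_le_sum fun c _ => ?_
          have a1 := mul_le_mul_of_nonneg_right (hn2 c) (hg0 c)
          have a2 := gf_le (exp (i * τ) * u c)
          nlinarith
      _ = ∑ c ∈ Finset.range N, gf (exp (i * τ) * m c) := by rw [h1, h2]
      _ ≤ ∑ c ∈ Finset.range D, gf (exp (i * τ) * m c) := by
          refine Finset.sum_le_sum_of_subset_of_nonneg (Finset.range_subset_range.2 hN) ?_
          intro c _ _
          refine gf_nonneg (mul_nonneg (exp_pos _).le ?_)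
          simp only [m]
          split_ifs with h
          · exact (hu _).1
          · exact le_rfl

end GAME_

open GAME_ in
/-- For every `a` in `(0, 1]` there is a game with the value `a * log 2`. -/
theorem game {a : ℝ} (h0 : 0 < a) (h1 : a ≤ 1) : ∃ (K : ℕ) (τ : ℝ), 1 ≤ K ∧ 0 ≤ τ ∧
    (∃ pv : Fin K → ℝ, (∀ i, 0 ≤ pv i) ∧ ∑ i, pv i = 1 ∧
      ∀ u, 0 ≤ u → ∑ i, pv i * gf (exp (i * τ) * u) ≤ a * log 2) ∧
    ∀ ε : ℝ, 0 < ε → ∃ (D : ℕ) (m : ℕ → ℝ), 1 ≤ D ∧ (∀ c, 0 ≤ m c ∧ m c ≤ log 2) ∧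
      ∀ i : Fin K, (a * log 2 - ε) * D ≤ ∑ c ∈ Finset.range D, gf (exp (i * τ) * m c) := by
  obtain ⟨K, τ, hK, hτ, hV⟩ := exists_tau h0 h1
  refine ⟨K, τ, hK, hτ, ?_, fun ε hε => ?_⟩
  · obtain ⟨pv, hpv0, hpv1, hpv⟩ := dual hK τ
    refine ⟨pv, hpv0, hpv1, fun u hu => ?_⟩
    rw [← hV]
    have hl : 0 < log 2 := log_pos (by norm_num)
    rcases le_total u (log 2) with h | h
    · exact hpv u ⟨hu, h⟩
    · refine le_trans (Finset.sum_le_sum fun i _ => ?_) (hpv (log 2) ⟨hl.le, le_rfl⟩)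
      refine mul_le_mul_of_nonneg_left ?_ (hpv0 i)
      unfold Pt
      refine gf_anti ?_ (mul_le_mul_of_nonneg_left h (exp_pos _).le)
      have : 1 ≤ exp ((i : ℕ) * τ) := one_le_exp (by positivity)
      nlinarith
  · have h2 : a * log 2 - ε / 2 < Vx K τ := by linarith
    obtain ⟨r, hr, hr2⟩ := exists_lt_of_lt_csSup ⟨0, R_zero K τ⟩ h2
    obtain ⟨D, m, hD, hm, h⟩ := rat hr (show 0 < ε / 2 by positivity)
    refine ⟨D, m, hD, hm, fun i => le_trans ?_ (h i)⟩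
    have : (0 : ℝ) ≤ D := by positivity
    nlinarith

end Pool.Agent.RelS
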