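import Pool.Agent.RelS.ACC

/-!
# At most one option leaves a word undecided
-/

set_option autoImplicit false

namespace Pool.Agent.RelS

open MeasureTheory Set
open scoped ENNReal
open Pool.Agent.RelM (Lang Instr Cfg run Halts pair triple str pre hq wq sq0 sq1 Asks code qb)
open Pool.Agent.RelO (lev st)

/-- The coins of the option `i`. -/
def iot (a b i : ℕ) (d : DD a b) : Idx := (d.1.1, d.1.2.1, d.1.2.2, i)

theorem iot_inj (a b i : ℕ) : Function.Injective (iot a b i) := by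
  rintro ⟨⟨κ, x, y⟩, hd⟩ ⟨⟨κ', x', y'⟩, hd'⟩ h
  simp only [iot, Prod.mk.injEq] at h
  obtain ⟨h1, h2, h3, -⟩ := h
  subst h1; subst h2; subst h3
  rfl

theorem jj_le {K m j : ℕ} (h : m < nn K j) : jj K m ≤ j := by
  by_contra h1
  have := (jjspec K m).2 j (by omega)
  omega

/-- The words of stage `j` are short. -/
theorem str_len_le {n t : ℕ} (h : t < 2 ^ n) : (str t).length ≤ n := by
  rw [Pool.Agent.RelM.strlen]
  have h1 : t + 1 < 2 ^ (n + 1) := by rw [pow_succ]; omega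
  have h2 := Nat.log_lt_of_lt_pow (b := 2) (by omega) h1
  omega

theorem qb_mono (v : List Instr × ℕ × ℕ) {n n' : ℕ} (h : n ≤ n') : qb v n ≤ qb v n' := by
  unfold qb
  exact Nat.pow_le_pow_left (by omega) _

theorem qb_small (K j : ℕ) {t : ℕ} (h : t < 2 ^ (nn K j + j)) :
    qb (mc j) (str t).length < nn K (j + 1) ∧
    2 ^ (j + 3) * qb (mc j) (str t).length * 4 ^ ((j + 1) * (K + 3)) < 2 ^ nn K j := by
  have h1 := qb_mono (mc j) (str_len_le h)
  refine ⟨h1.trans_lt (nnnext K j), ?_⟩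
  have h2 := nnq K j (nn K j) le_rfl
  have h3 : 2 ^ (j + 3) * qb (mc j) (str t).length * 4 ^ ((j + 1) * (K + 3)) ≤
      2 ^ (j + 3) * qb (mc j) (nn K j + j) * 4 ^ ((j + 1) * (K + 3)) := by gcongr
  omega

theorem qb_small' (K j : ℕ) {t : ℕ} (h : t < 2 ^ (nn K j + j)) :
    qb (mc j) (str t).length < 2 ^ nn K j := by
  have h1 := (qb_small K j h).2
  have h2 : 1 ≤ 2 ^ (j + 3) * 4 ^ ((j + 1) * (K + 3)) := Nat.succ_le_of_lt (by positivity)
  calc qb (mc j) (str t).length ≤ qb (mc j) (str t).length *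
        (2 ^ (j + 3) * 4 ^ ((j + 1) * (K + 3))) := Nat.le_mul_of_pos_right _ h2
    _ = 2 ^ (j + 3) * qb (mc j) (str t).length * 4 ^ ((j + 1) * (K + 3)) := by ring
    _ < _ := h1

/-- Acceptance of the word number `t` at stage `j` as a function of the new coins. -/
def ga (K j : ℕ) (h : Hist) (ω : Om) (t : ℕ) (z : DD (nn K j) (nn K (j + 1)) → Bool) : Prop :=
  gg (nn K j) (nn K (j + 1)) (bitsOf K h.2) (zz K h.1 ω) (mc j) (str t) z

theorem ans_iff {K j : ℕ} {h : Hist} (hK : ∀ j, h.1 j < K) {ω τ : Om} {t i : ℕ}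
    (ht : t < 2 ^ (nn K j + j)) :
    ans K j (seto h j i) (mixP (Old K j) ω τ) t ↔
      ga K j h ω t fun d => τ (iot (nn K j) (nn K (j + 1)) i d) := by
  unfold ans ga gg oh orc
  refine acc_congr fun q hq => ?_
  refine oloc _ _ _ _ _ (qb (mc j) (str t).length) ?_ (fun u _ => rfl) q hq
  intro κ x y h1 h2
  have h3 := (qb_small K j ht).1
  by_cases h4 : lev κ x < nn K j
  · rw [WW_lt h4]
    unfold zz seto
    simp only
    rw [Function.update_of_ne (by have := jj_le h4; omega)]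
    exact mixP_pos ⟨h4, h2, hK _⟩
  · have hd : nn K j ≤ lev κ x ∧ lev κ x < nn K (j + 1) ∧ y.length = lev κ x :=
      ⟨by omega, by omega, h2⟩
    have h5 := WW_mid (z0 := zz K h.1 ω)
      (z := fun d => τ (iot (nn K j) (nn K (j + 1)) i d)) ⟨(κ, x, y), hd⟩
    rw [h5]
    unfold zz seto
    simp only
    rw [jj_eq hd.1 hd.2.1, Function.update_self]
    exact mixP_neg fun h6 => h4 h6.1

theorem pa_eq {K j : ℕ} {h : Hist} (hK : ∀ j, h.1 j < K) {ω : Om} {t i : ℕ}
    (ht : t < 2 ^ (nn K j + j)) :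
    pa K j h ω t i = (mu fun d => sv K (iot (nn K j) (nn K (j + 1)) i d)).real
      {z | ga K j h ω t z} := by
  unfold pa
  simp only [ans_iff hK ht]
  have h1 := coin_map K (iot (nn K j) (nn K (j + 1)) i) (iot_inj _ _ i)
  unfold mu
  rw [← h1, Measure.real, Measure.real, Measure.map_apply
    (measurable_pi_lambda _ fun d => measurable_pi_apply _) MeasurableSet.of_discrete]
  rfl

theorem sv01 (K : ℕ) {D : Type} (ι : D → Idx) : Pr01 fun d => sv K (ι d) := fun d =>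
  ⟨(sv_pos K _).le, sv_le_one K _⟩

theorem sv_pow (K j i : ℕ) (d : DD (nn K j) (nn K (j + 1))) :
    sv K (iot (nn K j) (nn K (j + 1)) i d) =
      sv K (iot (nn K j) (nn K (j + 1)) (i + 1) d) ^ 4 ^ (j + 1) := by
  have hJ : jj K (lev d.1.1 d.1.2.1) = j + 1 := jj_eq d.2.1 d.2.2.1
  unfold sv
  rw [← Real.rpow_natCast, ← Real.rpow_mul (by norm_num)]
  congr 1
  unfold ex iot
  simp only [hJ]
  have h1 : (4 : ℝ) ^ ((j + 1) * (i + 1)) = 4 ^ ((j + 1) * i) * 4 ^ (j + 1) := by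
    rw [← pow_add]
    ring_nf
  rw [h1]
  push_cast
  field_simp

theorem sv_eps {K : ℕ} (hK : 1 ≤ K) (j i : ℕ) (d : DD (nn K j) (nn K (j + 1))) :
    1 - sv K (iot (nn K j) (nn K (j + 1)) i d) ≤ 4 ^ ((j + 1) * K) / 2 ^ nn K j := by
  have hJ : jj K (lev d.1.1 d.1.2.1) = j + 1 := jj_eq d.2.1 d.2.2.1
  have h1 : ex K (iot (nn K j) (nn K (j + 1)) i d) ≤ 4 ^ ((j + 1) * K) / 2 ^ nn K j := by
    unfold ex iot
    simp only [hJ]
    have h2 : (4 : ℝ) ^ ((j + 1) * cls K d.1.2.1) ≤ 4 ^ ((j + 1) * K) := by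
      refine pow_le_pow_right₀ (by norm_num) ?_
      exact Nat.mul_le_mul_left _ (Nat.mod_lt _ (by omega)).le
    have h3 : (1 : ℝ) ≤ 4 ^ ((j + 1) * i) := one_le_pow₀ (by norm_num)
    have h4 : (2 : ℝ) ^ nn K j ≤ 2 ^ lev d.1.1 d.1.2.1 :=
      pow_le_pow_right₀ (by norm_num) d.2.1
    gcongr
    calc (4 : ℝ) ^ ((j + 1) * cls K d.1.2.1) / 4 ^ ((j + 1) * i)
        ≤ 4 ^ ((j + 1) * cls K d.1.2.1) / 1 := by gcongr
      _ ≤ _ := by rw [div_one]; exact h2
  refine le_trans ?_ h1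
  have h5 : 0 ≤ ex K (iot (nn K j) (nn K (j + 1)) i d) := ex_nonneg K _
  unfold sv
  generalize ex K (iot (nn K j) (nn K (j + 1)) i d) = e at h5
  have h6 := Real.add_one_le_exp (Real.log (1 / 2) * e)
  rw [Real.rpow_def_of_pos (by norm_num)]
  have h7 : Real.log (1 / 2) = - Real.log 2 := by
    rw [one_div, Real.log_inv]
  have h8 := Real.log_two_lt_d9
  rw [h7] at h6 ⊢
  nlinarith

/-! ## Undecided words -/

/-- A rough bound. -/
theorem pow_bound (j : ℕ) : (1 - (1 / 2 : ℝ) ^ j) ^ 4 ^ (j + 1) ≤ (1 / 2) ^ (j + 2) := by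
  have h0 : (0 : ℝ) < (1 / 2) ^ j := by positivity
  have h1 : (1 / 2 : ℝ) ^ j ≤ 1 := pow_le_one₀ (by norm_num) (by norm_num)
  have h2 : (0 : ℝ) ≤ (1 - (1 / 2 : ℝ) ^ j) ^ 4 ^ (j + 1) := pow_nonneg (by linarith) _
  have h3 := one_add_mul_le_pow (a := (1 / 2 : ℝ) ^ j) (by linarith) (4 ^ (j + 1))
  have h4 : (1 - (1 / 2 : ℝ) ^ j) ^ 4 ^ (j + 1) * (1 + (1 / 2 : ℝ) ^ j) ^ 4 ^ (j + 1) ≤ 1 := by
    rw [← mul_pow]
    refine pow_le_one₀ (mul_nonneg (by linarith) (by linarith)) ?_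
    nlinarith
  have h5 : (1 : ℝ) + ((4 ^ (j + 1) : ℕ) : ℝ) * (1 / 2 : ℝ) ^ j ≥ 2 ^ (j + 2) := by
    have h6 : ((4 ^ (j + 1) : ℕ) : ℝ) * (1 / 2 : ℝ) ^ j = 2 ^ (j + 2) := by
      push_cast
      rw [pow_succ, show (4 : ℝ) = 2 * 2 by norm_num, mul_pow]
      rw [show (2 : ℝ) ^ j * 2 ^ j * (2 * 2) * (1 / 2) ^ j =
        2 ^ j * (2 * 2) * (2 ^ j * (1 / 2) ^ j) by ring, ← mul_pow]
      norm_num
      ring
    rw [h6]
    linarith
  have h7 : (1 - (1 / 2 : ℝ) ^ j) ^ 4 ^ (j + 1) * 2 ^ (j + 2) ≤ 1 := by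
    refine le_trans ?_ h4
    gcongr
    linarith
  rw [show (1 / 2 : ℝ) ^ (j + 2) = 1 / 2 ^ (j + 2) from one_div_pow _ _,
    le_div_iff₀ (by positivity)]
  exact h7

/-- If the option `i + 1` does not decide for `no`, the option `i` decides for `yes`. -/
theorem step_down {K j : ℕ} (hK1 : 1 ≤ K) {h : Hist} (hK : ∀ j, h.1 j < K) {ω : Om} {t i : ℕ}
    (ht : t < 2 ^ (nn K j + j)) (hp : dl j < pa K j h ω t (i + 1)) :
    1 - dl j ≤ pa K j h ω t i := by
  have hC := cert (nn K j) (nn K (j + 1)) (bitsOf K h.2) (zz K h.1 ω) (mc j) (str t)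
    (qb_small' K j ht)
  have h1 := union_pow (sv01 K (iot (nn K j) (nn K (j + 1)) (i + 1)))
    (sv_eps hK1 j (i + 1)) (by positivity) hC (4 ^ (j + 1))
  have h2 : (fun d => sv K (iot (nn K j) (nn K (j + 1)) (i + 1) d) ^ 4 ^ (j + 1)) =
      fun d => sv K (iot (nn K j) (nn K (j + 1)) i d) := by
    funext d
    exact (sv_pow K j i d).symm
  rw [h2] at h1
  have hno : ∀ i, (mu fun d => sv K (iot (nn K j) (nn K (j + 1)) i d)).real
      {z | ¬ gg (nn K j) (nn K (j + 1)) (bitsOf K h.2) (zz K h.1 ω) (mc j) (str t) z} =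
      1 - pa K j h ω t i := by
    intro i
    have i1 := mu_prob (sv01 K (iot (nn K j) (nn K (j + 1)) i))
    rw [pa_eq hK ht]
    have h3 : {z | ¬ gg (nn K j) (nn K (j + 1)) (bitsOf K h.2) (zz K h.1 ω) (mc j) (str t) z} =
        {z | ga K j h ω t z}ᶜ := rfl
    rw [h3, probReal_compl_eq_one_sub MeasurableSet.of_discrete]
  rw [hno, hno] at h1
  have h4 : (1 - pa K j h ω t (i + 1)) ^ 4 ^ (j + 1) ≤ (1 / 2) ^ (j + 2) := by
    refine le_trans ?_ (pow_bound j)
    have h5 : pa K j h ω t (i + 1) ≤ 1 := by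
      unfold pa
      exact measureReal_le_one
    unfold dl at hp
    gcongr
  have h6 : (qb (mc j) (str t).length : ℝ) * (4 ^ ((j + 1) * K) / 2 ^ nn K j) *
      ((4 ^ (j + 1) : ℕ) : ℝ) ^ 2 ≤ (1 / 2) ^ (j + 3) := by
    have h7 := (qb_small K j ht).2
    have h8 : ((2 : ℝ) ^ (j + 3) * qb (mc j) (str t).length * 4 ^ ((j + 1) * (K + 3))) ≤
        2 ^ nn K j := by exact_mod_cast h7.le
    have h9 : (4 : ℝ) ^ ((j + 1) * K) * ((4 ^ (j + 1) : ℕ) : ℝ) ^ 2 ≤ 4 ^ ((j + 1) * (K + 3)) := by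
      push_cast
      rw [← pow_mul, ← pow_add]
      refine pow_le_pow_right₀ (by norm_num) ?_
      nlinarith
    rw [one_div_pow, le_div_iff₀ (by positivity)]
    have h10 : (qb (mc j) (str t).length : ℝ) * (4 ^ ((j + 1) * K) / 2 ^ nn K j) *
        ((4 ^ (j + 1) : ℕ) : ℝ) ^ 2 * 2 ^ (j + 3) =
        (2 ^ (j + 3) * qb (mc j) (str t).length *
          (4 ^ ((j + 1) * K) * ((4 ^ (j + 1) : ℕ) : ℝ) ^ 2)) / 2 ^ nn K j := by ring
    rw [h10, div_le_one (by positivity)]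
    refine le_trans ?_ h8
    gcongr
  have h11 : (1 / 2 : ℝ) ^ (j + 2) = (1 / 2) ^ j * (1 / 4) := by rw [pow_add]; norm_num
  have h12 : (1 / 2 : ℝ) ^ (j + 3) = (1 / 2) ^ j * (1 / 8) := by rw [pow_add]; norm_num
  have h13 : (0 : ℝ) < (1 / 2) ^ j := by positivity
  unfold dl
  rw [h11] at h4
  rw [h12] at h6
  linarith

/-- The word number `t` is undecided. -/
def Und (K j : ℕ) (h : Hist) (ω : Om) (t i : ℕ) : Prop :=
  dl j < pa K j h ω t i ∧ pa K j h ω t i < 1 - dl j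

theorem und_pos {K j : ℕ} {h : Hist} {ω : Om} {t i : ℕ} (hu : Und K j h ω t i) : 1 ≤ j := by
  by_contra h0
  have h1 : j = 0 := by omega
  subst h1
  have h2 := hu.1
  have h3 := hu.2
  unfold dl at h2 h3
  norm_num at h2 h3
  linarith

/-- At most one option leaves a word undecided. -/
theorem und_unique {K j : ℕ} (hK1 : 1 ≤ K) {h : Hist} (hK : ∀ j, h.1 j < K) {ω : Om}
    {t i i' : ℕ} (ht : t < 2 ^ (nn K j + j)) (hu : Und K j h ω t i) (hu' : Und K j h ω t i') :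
    i = i' := by
  have hj := und_pos hu
  have hdl : dl j ≤ 1 / 2 := by
    unfold dl
    calc (1 / 2 : ℝ) ^ j ≤ (1 / 2) ^ 1 := pow_le_pow_of_le_one (by norm_num) (by norm_num) hj
      _ = 1 / 2 := pow_one _
  have key : ∀ i i' : ℕ, Und K j h ω t i' → i < i' → 1 - dl j ≤ pa K j h ω t i := by
    intro i i' hu' hlt
    obtain ⟨n, rfl⟩ := Nat.exists_eq_add_of_lt hlt
    induction n generalizing i with
    | zero => exact step_down hK1 hK ht hu'.1
    | succ n ih =>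
      have h1 := ih (i + 1) (by
        rw [show i + 1 + n + 1 = i + (n + 1) + 1 by ring]
        exact hu') (by omega)
      by_cases h2 : dl j < pa K j h ω t (i + 1)
      · exact step_down hK1 hK ht h2
      · have h3 : dl j = 1 / 2 := by linarith
        have h4 := hu'.1
        have h5 := hu'.2
        rw [h3] at h4 h5
        linarith
  rcases lt_trichotomy i i' with h1 | h1 | h1
  · have := key i i' hu' h1
    have := hu.2
    linarith
  · exact h1
  · have := key i' i hu h1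
    have := hu'.2
    linarith

/-- The best option leaves few words undecided. -/
theorem best_spec {K j : ℕ} (hK1 : 1 ≤ K) {h : Hist} (hK : ∀ j, h.1 j < K) (ω : Om) :
    K * unc K j h ω (best K j h ω) ≤ 2 ^ (nn K j + j) := by
  classical
  have hex : ∃ i < K, K * unc K j h ω i ≤ 2 ^ (nn K j + j) := by
    have h1 : ∑ i ∈ Finset.range K, unc K j h ω i ≤ 2 ^ (nn K j + j) := by
      have h2 : ∀ i, unc K j h ω i = ∑ t ∈ Finset.Ico (2 ^ nn K j) (2 ^ (nn K j + j)),
          if Und K j h ω t i then 1 else 0 := by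
        intro i
        unfold unc Und
        rw [Finset.card_filter]
        exact Finset.sum_congr rfl fun t _ => by congr
      simp only [h2]
      rw [Finset.sum_comm]
      calc ∑ t ∈ Finset.Ico (2 ^ nn K j) (2 ^ (nn K j + j)),
            ∑ i ∈ Finset.range K, (if Und K j h ω t i then 1 else 0)
          ≤ ∑ t ∈ Finset.Ico (2 ^ nn K j) (2 ^ (nn K j + j)), 1 := by
            refine Finset.sum_le_sum fun t ht => ?_
            rw [← Finset.card_filter, Finset.card_le_one]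
            intro a ha b hb
            exact und_unique hK1 hK (Finset.mem_Ico.1 ht).2 (Finset.mem_filter.1 ha).2
              (Finset.mem_filter.1 hb).2
        _ = 2 ^ (nn K j + j) - 2 ^ nn K j := by simp
        _ ≤ 2 ^ (nn K j + j) := Nat.sub_le _ _
    obtain ⟨i, hi, h3⟩ := Finset.exists_le_of_sum_le (s := Finset.range K)
      (f := fun i => K * unc K j h ω i) (g := fun _ => 2 ^ (nn K j + j))
      ⟨0, Finset.mem_range.2 hK1⟩ (by
        rw [← Finset.mul_sum, Finset.sum_const, Finset.card_range, smul_eq_mul]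
        exact Nat.mul_le_mul_left _ h1)
    exact ⟨i, Finset.mem_range.1 hi, h3⟩
  unfold best
  rw [dif_pos hex]
  exact hex.choose_spec.2

end Pool.Agent.RelS
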