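import Pool.Agent.RelS.Core

/-!
# The targets of the jobs
-/

set_option autoImplicit false

namespace Pool.Agent.RelS

open MeasureTheory Set
open scoped ENNReal
open Pool.Agent.RelM (Lang Instr Cfg step run Halts Decides E1 E2 NP pair triple binVal outVal
  Approx IsDensity str pre IsNullCover Null1 Null2 wq sq0 sq1 Asks hq code qb)
open Pool.Agent.RelO (lev IsGale IsGaleCover GaleNull1 GaleNull2 st proc)

/-! ## Stages and histories (helper18) -/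

def T_NNMONO : Prop := ∀ K : ℕ, StrictMono (nn K)

def T_NNGE : Prop := ∀ K j : ℕ, j + 2 ≤ nn K j

/-- The stages are late enough for the intensities. -/
def T_NNK : Prop := ∀ K j : ℕ, 4 * K * (j + 1) ≤ nn K j

def T_JJ : Prop := ∀ K m : ℕ, m < nn K (jj K m) ∧ ∀ j, j < jj K m → nn K j ≤ m

def T_OLDFIN : Prop := ∀ K j : ℕ, (Old K j).Finite

/-- The history before stage `j + 1` depends only on the coins that are old at stage `j`. -/
def T_HSDEP : Prop := ∀ (K j : ℕ) (ω ω' : Om), (∀ a ∈ Old K j, ω a = ω' a) →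
  hs K ω (j + 1) = hs K ω' (j + 1)

/-- The options and the hints before stage `m` are final. -/
def T_HSVAL : Prop := ∀ (K : ℕ) (ω : Om) (m : ℕ),
  (∀ j, j ≤ m → (hs K ω m).1 j = (hf K ω).1 j) ∧ ∀ j, j < m → (hs K ω m).2 j = (hf K ω).2 j

/-- Options are less than `K`. -/
def T_OPT : Prop := ∀ (K : ℕ) (ω : Om) (m j : ℕ), 1 ≤ K → (hs K ω m).1 j < K

/-- The bits of the supergales depend only on the hints of stages that can be read. -/
def T_BLOC : Prop := ∀ (K : ℕ) (η η' : ℕ → ℕ → Option Bool) (u : List Bool),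
  (∀ j, 2 ^ nn K j ≤ u.length → η j = η' j) → bitsOf K η u = bitsOf K η' u

/-! ## Finding a hidden key (job HIT) -/

/-- The coins visible to a gambler who bets on the word number `t` of `Rl z κ`. -/
def Vis (K κ t : ℕ) : Set Idx :=
  {a | a ∈ Old K (bl K κ (str t)) ∧ ¬ (a.1 = κ ∧ ∃ t', t ≤ t' ∧ a.2.1 = str t')}

/-- A machine that runs for `τ` steps on an input that depends only on the visible coins finds no
hidden key. -/
def T_HIT : Prop := ∀ (K κ t : ℕ) (Pr : List Instr) (X : Om → List Bool) (τ : ℕ),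
  1 ≤ K → nn K 0 ≤ lev κ (str t) → Dep (Vis K κ t) X →
  (∀ ω, (X ω).length + τ < 2 ^ lev κ (str t)) →
  coin K {ω | ∃ s ≤ τ, run (oo K ω) Pr (X ω) s ≠ run (ov K κ t ω) Pr (X ω) s}
    ≤ τ * (2⁻¹ : ℝ≥0∞) ^ (lev κ (str t) / 2)

/-! ## Fair bits (jobs FAIR, CNT) -/

/-- On `Fr K κ t` the bit number `t` of `Rl z κ` is fair, given the visible coins. -/
def T_FAIR : Prop := ∀ (K κ t : ℕ) (i : Bool) (H : Om → ℝ≥0∞),
  1 ≤ K → nn K 0 ≤ lev κ (str t) → Measurable H → Dep (Vis K κ t) H →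
  ∫⁻ ω in {ω | Rl (zo K ω) κ (str t) = i} ∩ Fr K κ t, H ω ∂(coin K) ≤
    2⁻¹ * ∫⁻ ω in Fr K κ t, H ω ∂(coin K)

open Classical in
/-- The number of fair bits before the bit number `t`. -/
noncomputable def Vn (K κ t : ℕ) (ω : Om) : ℕ :=
  ((Finset.range t).filter fun t' => ω ∈ Fr K κ t').card

def T_CNT : Prop := ∀ (K κ t : ℕ) (ω : Om), 1 ≤ K →
  (t : ℝ) / K - Nat.log 2 (t + 1) - 1 ≤ Vn K κ t ω

/-! ## The maximal inequality (job CROSS) -/

/-- Like `RelO.T_CROSS`, but the bit is fair on `F t` only, and outside `F t` both possible values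
at time `t + 1` are at most the value at time `t` plus `ε t`. -/
def T_CROSS : Prop := ∀ (Ω : Type) (_ : MeasurableSpace Ω) (μ : Measure Ω)
  (_ : IsProbabilityMeasure μ)
  (b : ℕ → Ω → Bool) (X : ℕ → Bool → Ω → ℝ) (Y : Ω → ℝ) (r : ℕ → Ω → Ω → Prop)
  (F : ℕ → Set Ω) (ε : ℕ → ℝ) (a : ℝ),
  (∀ t, Measurable (b t)) → (∀ t i, Measurable (X t i)) → Measurable Y →
  (∀ t, MeasurableSet (F t)) →
  (∀ t ω ω', r t ω ω' → Y ω = Y ω') →
  (∀ t ω ω', r t ω ω' → (ω ∈ F t ↔ ω' ∈ F t)) →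
  (∀ s t, s < t → ∀ ω ω', r t ω ω' → b s ω = b s ω') →
  (∀ s t, s ≤ t → ∀ i ω ω', r t ω ω' → X s i ω = X s i ω') →
  (∀ t i (H : Ω → ℝ≥0∞), Measurable H → (∀ ω ω', r t ω ω' → H ω = H ω') →
    ∫⁻ ω in {ω | b t ω = i} ∩ F t, H ω ∂μ ≤ 2⁻¹ * ∫⁻ ω in F t, H ω ∂μ) →
  (∀ t i ω, 0 ≤ X t i ω) → (∀ ω, 0 ≤ Y ω) → (∀ t, 0 ≤ ε t) → Summable ε → 0 ≤ a →
  μ {ω | Y ω ≤ a ∧
      (∀ t, (ω ∈ F t → (X t false ω + X t true ω) / 2 ≤ proc b X Y t ω + ε t) ∧
        (ω ∉ F t → ∀ i, X t i ω ≤ proc b X Y t ω + ε t)) ∧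
      ∃ t, 1 / 2 ≤ proc b X Y t ω} ≤ ENNReal.ofReal (2 * (a + ∑' t, ε t))

/-! ## The hidden languages are not covered (jobs NONNULL, FAST) -/

/-- The time bound `T` is small compared with the lengths of the keys of the family `κ`. -/
def Fast (κ : ℕ) (T : ℕ → ℕ) : Prop := ∃ t₀ : ℕ, ∀ t, t₀ ≤ t → ∀ l, l ≤ 16 * (t + 1) →
  l + T l < 2 ^ lev κ (str t) ∧ 4 * (t + 1) ^ 2 * T l ≤ 2 ^ (lev κ (str t) / 2)

def T_NONNULL : Prop := ∀ (K κ : ℕ) (Pr : List Instr) (T : ℕ → ℕ) (s : ℝ), 1 ≤ K →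
  s < 1 / K → Fast κ T →
  ∀ᵐ ω ∂(coin K), ¬ ∃ d : ℕ → List Bool → ℝ,
    IsGaleCover s d {Rl (zo K ω) κ} ∧ Approx (oo K ω) Pr T d

/-- Polynomial time is small compared with the keys of some odd family. -/
def T_FAST1 : Prop := ∀ c : ℕ, ∃ κ, κ % 2 = 1 ∧ Fast κ (fun l => (l + 2) ^ c)

/-- Quasi-polynomial time is small compared with the keys of some even family. -/
def T_FAST2 : Prop := ∀ c : ℕ, ∃ κ, κ % 2 = 0 ∧ Fast κ (fun l => 2 ^ ((Nat.log 2 l + 2) ^ c))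

/-! ## The hidden languages are in the classes (jobs NPR, ER) -/

def T_NPR : Prop := ∀ (G : Lang) (z : Z) (κ : ℕ), Rl z κ ∈ NP (orc G z)

def T_E1R : Prop := ∀ (G : Lang) (z : Z) (κ : ℕ), κ % 2 = 1 → Rl z κ ∈ E1 (orc G z)

def T_E2R : Prop := ∀ (G : Lang) (z : Z) (κ : ℕ), κ % 2 = 0 → Rl z κ ∈ E2 (orc G z)

/-! ## The lower half (job LOW) -/

/-- Almost surely, relative to the oracle, the dimension is at least `1 / K`. -/
def T_LOW : Prop := ∀ K : ℕ, 1 ≤ K → ∀ᵐ ω ∂(coin K), ∀ s : ℝ, s < 1 / K →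
  ¬ GaleNull1 s (oo K ω) (NP (oo K ω) ∩ E1 (oo K ω)) ∧
  ¬ GaleNull2 s (oo K ω) (NP (oo K ω) ∩ E2 (oo K ω))

/-! ## A machine for the shifted sequence (job SHIFT) -/

/-- If a sequence is computable, so is the sequence without its first `l` members. -/
def T_SHIFT : Prop := ∀ (O : Lang) (P : List Instr) (c l : ℕ) (d : ℕ → List Bool → ℝ),
  Approx O P (fun n => (n + 2) ^ c) d →
  ∃ (P' : List Instr) (c' : ℕ), Approx O P' (fun n => (n + 2) ^ c') fun k => d (k + l)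

end Pool.Agent.RelS
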