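import Pool.Agent.RelS.COV
import Pool.Agent.RelO.FAM
import Pool.Agent.RelO.MAIN
import Pool.Agent.RelM.READ

/-!
# The dimension is at most `1 / K`
-/

set_option autoImplicit false

namespace Pool.Agent.RelS

open MeasureTheory Set
open scoped ENNReal
open Pool.Agent.RelM (Lang Instr Cfg run Halts NP E1 E2 Approx IsDensity IsNullCover Null1 Null2
  pair triple str pre hq wq sq0 sq1 Asks code qb)
open Pool.Agent.RelO (lev st IsGale IsGaleCover GaleNull1 GaleNull2)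

theorem oo_tt (K : ℕ) (ω : Om) (u : List Bool) :
    oo K ω (true :: true :: u) = bitsOf K (hf K ω).2 u := ott _ _ _ _

/-- The supergales can be computed in polynomial time. -/
theorem appr : ∃ (P : List Instr) (c : ℕ), ∀ (K : ℕ) (ω : Om),
    Approx (oo K ω) P (fun l => (l + 2) ^ c) (dd K (hf K ω).2) := by
  obtain ⟨P, c, h⟩ := Pool.Agent.RelM.read Pool.Agent.RelM.stay
  refine ⟨P, c, fun K ω k r w => ?_⟩
  have h1 := h (oo K ω) (num K (hf K ω).2)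
    (fun j k r w => by rw [oo_tt]; exact (bits K (hf K ω).2 j k r w).1)
    (fun j k r w => by rw [oo_tt]; exact (bits K (hf K ω).2 j k r w).2.1)
    (fun j k r w => by rw [oo_tt]; exact (bits K (hf K ω).2 j k r w).2.2)
    (fun k r w => (numok K (hf K ω).2 k r w).1) k r w
  refine ⟨h1.1, ?_⟩
  rw [h1.2]
  exact (numok K (hf K ω).2 k r w).2

/-- The dimension of `NP` is at most `1 / K`. -/
theorem upper (hSHIFT : T_SHIFT) {K : ℕ} (hK : 1 ≤ K) {ω : Om}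
    (hω : ∀ e n : ℕ, ∃ m, n ≤ m ∧ ω ∉ fail K (Nat.pair e m)) {s : ℝ} (hs : 1 / K < s) :
    GaleNull1 s (oo K ω) (NP (oo K ω)) ∧ GaleNull2 s (oo K ω) (NP (oo K ω)) := by
  obtain ⟨l, hl⟩ := exists_nat_one_div_lt (show (0 : ℝ) < s - 1 / K by linarith)
  have hcov : IsGaleCover s (fun k => dd K (hf K ω).2 (k + l)) (NP (oo K ω)) := by
    intro k
    refine ⟨Pool.Agent.RelO.MAIN_.gale_mono ?_ (dgale K (hf K ω).2 (k + l)), ?_, ?_⟩
    · unfold sK
      have h1 : (1 : ℝ) / (((k + l : ℕ) : ℝ) + 1) ≤ 1 / ((l : ℝ) + 1) := by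
        apply one_div_le_one_div_of_le (by positivity)
        push_cast
        linarith [Nat.cast_nonneg (α := ℝ) k]
      linarith
    · refine (dnil K (hf K ω).2 (k + l)).trans ?_
      exact pow_le_pow_of_le_one (by norm_num) (by norm_num) (by omega)
    · intro A hA
      exact cov hK hω hA (k + l)
  obtain ⟨P, c, hap⟩ := appr
  obtain ⟨P', c', hap'⟩ := hSHIFT (oo K ω) P c l _ (hap K ω)
  refine ⟨⟨_, hcov, P', c', hap'⟩, ?_⟩
  obtain ⟨c'', hc''⟩ := Pool.Agent.RelO.t12 c'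
  exact ⟨_, hcov, P', c'', Pool.Agent.RelO.time _ _ _ _ _ hc'' hap'⟩

/-- A set with a null cover by `1`-supergales is null. -/
theorem null_of_gale {O X} (h : GaleNull1 1 O X ∧ GaleNull2 1 O X) :
    Null1 O X ∧ Null2 O X := by
  have key : ∀ d : ℕ → List Bool → ℝ, IsGaleCover 1 d X → IsNullCover d X := by
    intro d hd k
    refine ⟨⟨(hd k).1.nonneg, fun w => ?_⟩, (hd k).2⟩
    have := (hd k).1.le w
    rw [Real.rpow_one] at this
    linarith
  obtain ⟨⟨d, hd, h1⟩, ⟨d', hd', h2⟩⟩ := h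
  exact ⟨⟨d, key d hd, h1⟩, ⟨d', key d' hd', h2⟩⟩

/-- A null set has null covers by `s`-supergales for `s > 1`. -/
theorem gale_of_null {O X} (h : Null1 O X ∧ Null2 O X) {s : ℝ} (hs : 1 < s) :
    GaleNull1 s O X ∧ GaleNull2 s O X := by
  have key : ∀ d : ℕ → List Bool → ℝ, IsNullCover d X → IsGaleCover s d X := by
    intro d hd k
    refine ⟨⟨(hd k).1.nonneg, fun w => ?_⟩, (hd k).2⟩
    have h1 := (hd k).1.avg w
    have h2 := (hd k).1.nonneg w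
    have h3 : (2 : ℝ) ≤ 2 ^ s := by
      calc (2 : ℝ) = 2 ^ (1 : ℝ) := (Real.rpow_one 2).symm
        _ ≤ 2 ^ s := Real.rpow_le_rpow_of_exponent_le (by norm_num) hs.le
    nlinarith
  obtain ⟨⟨d, hd, h1⟩, ⟨d', hd', h2⟩⟩ := h
  exact ⟨⟨d, key d hd, h1⟩, ⟨d', key d' hd', h2⟩⟩

/-- The theorem for `K ≥ 2`. -/
theorem main_of (hSHIFT : T_SHIFT) (hLOW : T_LOW) {K : ℕ} (hK : 2 ≤ K) :
    ∃ O : Lang, Null1 O (NP O) ∧ Null2 O (NP O) ∧
      (∀ s : ℝ, 1 / K < s → GaleNull1 s O (NP O) ∧ GaleNull2 s O (NP O)) ∧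
      (∀ s : ℝ, s < 1 / K → ¬ GaleNull1 s O (NP O ∩ E1 O) ∧ ¬ GaleNull2 s O (NP O ∩ E2 O)) := by
  have hK1 : 1 ≤ K := by omega
  have a1 : ∀ᵐ ω ∂(coin K), ∀ e n : ℕ, ∃ m, n ≤ m ∧ ω ∉ fail K (Nat.pair e m) :=
    ae_all_iff.2 fun e => ae_all_iff.2 fun n => succ_ae hK1 e n
  obtain ⟨ω, h1, h2⟩ := (a1.and (hLOW K hK1)).exists
  have hup : ∀ s : ℝ, 1 / K < s →
      GaleNull1 s (oo K ω) (NP (oo K ω)) ∧ GaleNull2 s (oo K ω) (NP (oo K ω)) :=
    fun s hs => upper hSHIFT hK1 h1 hs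
  have hK2 : (1 : ℝ) / K < 1 := by
    rw [div_lt_one (by positivity)]
    exact_mod_cast hK
  obtain ⟨h3, h4⟩ := null_of_gale (hup 1 hK2)
  exact ⟨oo K ω, h3, h4, hup, h2⟩

end Pool.Agent.RelS
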